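import Pool.Agent.Lib.MP_a5d4dd_co.Two

namespace Pool.Agent.Lib.MP_a5d4dd_co

open Finset

section
variable {ι : Type*} [Fintype ι] [DecidableEq ι]

lemma sum_two' {M : Type*} [AddCommMonoid M] {i j : ι} (hij : i ≠ j) (f : ι → M) :
    ∑ l, f l = f i + f j + ∑ l ∈ (univ.erase i).erase j, f l := by
  rw [← add_sum_erase _ _ (mem_univ i),
    ← add_sum_erase _ _ (mem_erase.2 ⟨hij.symm, mem_univ j⟩), add_assoc]

lemma prod_two' {M : Type*} [CommMonoid M] {i j : ι} (hij : i ≠ j) (f : ι → M) :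
    ∏ l, f l = f i * f j * ∏ l ∈ (univ.erase i).erase j, f l := by
  rw [← mul_prod_erase _ _ (mem_univ i),
    ← mul_prod_erase _ _ (mem_erase.2 ⟨hij.symm, mem_univ j⟩), mul_assoc]

lemma move_ind {β : ι → ℤ} (hβ : ∀ i j, β i ≤ β j + 1) (P : (ι → ℤ) → Prop) (h0 : P β)
    (hs : ∀ μ i k, i ≠ k → μ k + 1 ≤ μ i → P (up2 μ i (μ i - 1) k (μ k + 1)) → P μ)
    (μ : ι → ℤ) (hμ : ∑ i, μ i = ∑ i, β i) : P μ := by
  generalize hn : ∑ l, (μ l - β l).natAbs = n
  induction n using Nat.strong_induction_on generalizing μ with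
  | _ n ih =>
    by_cases he : μ = β
    · rwa [he]
    have h1 : ∃ i, β i < μ i := by
      by_contra hc
      push Not at hc
      exact he (funext fun i => (sum_eq_sum_iff_of_le fun l _ => hc l).1 hμ i (mem_univ i))
    have h2 : ∃ k, μ k < β k := by
      by_contra hc
      push Not at hc
      exact he (funext fun i =>
        ((sum_eq_sum_iff_of_le fun l _ => hc l).1 hμ.symm i (mem_univ i)).symm)
    obtain ⟨i, hi⟩ := h1
    obtain ⟨k, hk⟩ := h2
    have hik : i ≠ k := by rintro rfl; omega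
    have hb := hβ k i
    have er : ∀ (g : ι → ℤ → ℤ), ∑ l ∈ (univ.erase i).erase k,
        g l (up2 μ i (μ i - 1) k (μ k + 1) l) = ∑ l ∈ (univ.erase i).erase k, g l (μ l) := by
      intro g
      refine sum_congr rfl fun l hl => ?_
      simp only [mem_erase] at hl
      simp [up2, hl.1, hl.2.1]
    have ei : up2 μ i (μ i - 1) k (μ k + 1) i = μ i - 1 := by simp [up2]
    have ek : up2 μ i (μ i - 1) k (μ k + 1) k = μ k + 1 := by simp [up2, hik.symm]
    refine hs μ i k hik (by omega) (ih _ ?_ _ ?_ rfl)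
    · have a1 := er fun l x => ((x - β l).natAbs : ℤ)
      rw [← hn, sum_two' hik, sum_two' hik fun l => (μ l - β l).natAbs, ei, ek]
      have a2 : ∑ l ∈ (univ.erase i).erase k, (up2 μ i (μ i - 1) k (μ k + 1) l - β l).natAbs
          = ∑ l ∈ (univ.erase i).erase k, (μ l - β l).natAbs := by exact_mod_cast a1
      rw [a2]
      omega
    · rw [← hμ, sum_two' hik, sum_two' hik μ, ei, ek, er fun _ x => x]
      ring

lemma N_le_bal {β : ι → ℤ} (hβ : ∀ i j, β i ≤ β j + 1) (μ : ι → ℤ) (hμ : ∑ i, μ i = ∑ i, β i) :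
    N μ ≤ N β := by
  refine move_ind hβ (fun μ => N μ ≤ N β) le_rfl (fun μ i k hik h1 h2 => le_trans ?_ h2) μ hμ
  refine N_schur hik (fun l a b => by simp [up2, a, b]) ?_ ?_ ?_ <;>
    simp only [up2, if_true, hik.symm, if_false] <;> omega

lemma N_fl_bal {β : ι → ℤ} (hβ : ∀ i j, β i ≤ β j + 1) (μ : ι → ℤ) (hμ : ∑ i, μ i = ∑ i, β i)
    (h0 : ∀ i, 0 ≤ μ i) :
    N β * ∏ l, (β l).toNat.factorial ≤ N μ * ∏ l, (μ l).toNat.factorial := by
  refine move_ind hβ (fun μ => (∀ i, 0 ≤ μ i) →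
    N β * ∏ l, (β l).toNat.factorial ≤ N μ * ∏ l, (μ l).toNat.factorial) (fun _ => le_rfl)
    (fun μ i k hik h1 h2 h0 => ?_) μ hμ h0
  have ei : up2 μ i (μ i - 1) k (μ k + 1) i = μ i - 1 := by simp [up2]
  have ek : up2 μ i (μ i - 1) k (μ k + 1) k = μ k + 1 := by simp [up2, hik.symm]
  have hk := h0 k
  refine (h2 fun l => ?_).trans ?_
  · have := h0 l
    simp only [up2]
    split_ifs <;> omega
  have h3 := N_fl hik (μ := μ) (ν := up2 μ i (μ i - 1) k (μ k + 1))
    (fun l a b => by simp [up2, a, b]) ei ek h1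
  obtain ⟨p, hp⟩ := Int.eq_ofNat_of_zero_le hk
  obtain ⟨q, hq⟩ := Int.eq_ofNat_of_zero_le (show 0 ≤ μ i - 1 by omega)
  have hq' : μ i = (q + 1 : ℕ) := by push_cast; omega
  have er : ∏ l ∈ (univ.erase i).erase k, (up2 μ i (μ i - 1) k (μ k + 1) l).toNat.factorial
      = ∏ l ∈ (univ.erase i).erase k, (μ l).toNat.factorial := by
    refine prod_congr rfl fun l hl => ?_
    simp only [mem_erase] at hl
    simp [up2, hl.1, hl.2.1]
  rw [prod_two' hik, prod_two' hik fun l => (μ l).toNat.factorial, ei, ek, er]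
  generalize N (up2 μ i (μ i - 1) k (μ k + 1)) = X at h3 ⊢
  generalize ∏ l ∈ (univ.erase i).erase k, (μ l).toNat.factorial = Z
  rw [hq, hq', hp, show (p : ℤ) + 1 = (p + 1 : ℕ) by push_cast; rfl]
  rw [hq', hp] at h3
  simp only [Int.toNat_natCast, Nat.factorial_succ]
  have h4 : (p + 1) * X ≤ (q + 1) * N μ := by exact_mod_cast h3
  calc X * (q.factorial * ((p + 1) * p.factorial) * Z)
      = ((p + 1) * X) * (q.factorial * p.factorial * Z) := by ring
    _ ≤ ((q + 1) * N μ) * (q.factorial * p.factorial * Z) := Nat.mul_le_mul_right _ h4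
    _ = _ := by ring

end

def bl (r T i : ℕ) : ℕ := T / r + if i < T % r then 1 else 0

def bal (r T : ℕ) : Fin r → ℤ := fun i => bl r T i

def U (r T : ℕ) : ℕ := N (bal r T)

lemma sum_bv {r q ρ : ℕ} (h : ρ ≤ r) :
    ∑ i : Fin r, (q + if (i : ℕ) < ρ then 1 else 0) = r * q + ρ := by
  rw [sum_add_distrib, ← card_filter, Fin.card_filter_val_lt, min_eq_right h]
  simp

lemma sum_bl {r : ℕ} (hr : 0 < r) (T : ℕ) : ∑ i : Fin r, bl r T i = T := by
  unfold bl
  rw [sum_bv (Nat.mod_lt _ hr).le, Nat.div_add_mod]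

lemma sum_bal {r : ℕ} (hr : 0 < r) (T : ℕ) : ∑ i, bal r T i = T := by
  unfold bal
  exact_mod_cast sum_bl hr T

lemma bal_bal (r T : ℕ) (i j : Fin r) : bal r T i ≤ bal r T j + 1 := by
  simp only [bal, bl]
  split_ifs <;> omega

lemma N_le_U {r T : ℕ} (μ : Fin r → ℤ) (h : ∑ i, μ i = T) : N μ ≤ U r T := by
  rcases Nat.eq_zero_or_pos r with rfl | hr
  · rw [U, N_fin0, N_fin0]
  · exact N_le_bal (bal_bal r T) μ (by rw [h, sum_bal hr])

lemma N_eq_U {r T : ℕ} (β : Fin r → ℤ) (hβ : ∀ i j, β i ≤ β j + 1) (h : ∑ i, β i = T) :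
    N β = U r T := by
  rcases Nat.eq_zero_or_pos r with rfl | hr
  · rw [U, N_fin0, N_fin0]
  · exact le_antisymm (N_le_U β h) (N_le_bal hβ _ (by rw [h, sum_bal hr]))

lemma U_const (r c : ℕ) : N (fun _ : Fin r => (c : ℤ)) = U r (r * c) :=
  N_eq_U _ (fun _ _ => by omega) (by simp)

lemma U_zero (T : ℕ) : U 0 T = 1 := N_fin0 _

lemma U_one (T : ℕ) : U 1 T = 1 := by
  rw [U, N_fin1, if_pos]
  simp [bal]

lemma U_mono (r : ℕ) {T T' : ℕ} (h : T ≤ T') : U r T ≤ U r T' := by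
  rcases r with _ | r
  · rw [U_zero, U_zero]
  · refine (N_mono (ν := fun i => bal (r + 1) T i + if i = 0 then ((T' - T : ℕ) : ℤ) else 0)
      fun i => ?_).trans (N_le_U _ ?_)
    · split_ifs <;> omega
    · rw [sum_add_distrib, sum_bal (by omega), sum_ite_eq' univ 0 fun _ => ((T' - T : ℕ) : ℤ)]
      simp only [mem_univ, if_true]
      omega

lemma N_le_U_supp {ι : Type*} [Fintype ι] [DecidableEq ι] (Φ : Finset ι) (m : ℕ) (μ : ι → ℤ)
    (h0 : ∀ i, i ∉ Φ → μ i = 0) (hm : ∀ i, μ i ≤ m) : N μ ≤ U #Φ (#Φ * m) := by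
  rw [N_ext (fun k => (Φ.equivFin.symm k : ι))
    (Subtype.val_injective.comp Φ.equivFin.symm.injective) μ, ← U_const]
  · exact N_mono fun i => hm _
  · intro i hi
    refine h0 i fun h => hi ⟨Φ.equivFin ⟨i, h⟩, by simp⟩

lemma card_pA {ι : Type*} [DecidableEq ι] (s : Finset ι) (b : ℕ) :
    #(piAntidiag s b) = (#s).multichoose b := by
  rw [← card_finsuppAntidiag_nat_eq_multichoose]
  simp [finsuppAntidiag]

lemma U_succ_le {r : ℕ} (hr : 0 < r) (T : ℕ) :
    U (r + 1) T ≤ ∑ b ∈ range (T / (r + 1) + 1), r.multichoose b * U r (T - T / (r + 1) - b) := by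
  have h1 := Nat.div_add_mod T (r + 1)
  have h2 := Nat.mod_lt T (show 0 < r + 1 by omega)
  generalize T / (r + 1) = a at h1 ⊢
  generalize T % (r + 1) = ρ at h1 h2
  have h3 : ∑ i : Fin r, ((a + if (i : ℕ) < ρ then 1 else 0 : ℕ) : ℤ) = (r * a + ρ : ℕ) := by
    exact_mod_cast sum_bv (show ρ ≤ r by omega)
  have h4 : a ≤ r * a := Nat.le_mul_of_pos_left a hr
  have h5 : (r + 1) * a = r * a + a := by ring
  rw [← N_eq_U (Fin.cons (a : ℤ) fun i : Fin r => ((a + if (i : ℕ) < ρ then 1 else 0 : ℕ) : ℤ)),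
    N_cons]
  · refine sum_le_sum fun b hb => ?_
    have := mem_range.1 hb
    refine (sum_le_card_nsmul _ _ (U r (T - a - b)) fun y hy => N_le_U _ ?_).trans ?_
    · rw [sum_sub_distrib, h3, ← Nat.cast_sum, mem_pA.1 hy]
      omega
    · rw [card_pA]; simp
  · intro i j
    refine Fin.cases ?_ (fun i => ?_) i <;> refine Fin.cases ?_ (fun j => ?_) j <;>
      simp only [Fin.cons_zero, Fin.cons_succ] <;> (try split_ifs) <;> omega
  · rw [Fin.sum_univ_succ]
    simp only [Fin.cons_zero, Fin.cons_succ]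
    rw [h3]
    omega

def SN (r c b : ℕ) : ℕ := ∑ y ∈ piAntidiag univ b, N (fun i : Fin r => (c : ℤ) - (y i : ℕ))

lemma sum_SN_le (r c a : ℕ) : ∑ b ∈ range (a + 1), SN r c b ≤ U (r + 1) (r * c + a) := by
  unfold SN
  rw [← N_cons]
  refine N_le_U _ ?_
  rw [Fin.sum_univ_succ]
  simp only [Fin.cons_zero, Fin.cons_succ, sum_const, card_univ, Fintype.card_fin]
  push_cast
  ring

def cp (g : ℕ → ℕ) : ℕ → ℕ → ℕ
  | 0, b => if b = 0 then 1 else 0
  | r + 1, a => ∑ b ∈ range (a + 1), g (a - b) * cp g r b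

lemma sum_prod_cp (g : ℕ → ℕ) (r b : ℕ) :
    ∑ y ∈ piAntidiag univ b, ∏ i : Fin r, g (y i) = cp g r b := by
  induction r generalizing b with
  | zero =>
    simp only [univ_eq_empty, piAntidiag_empty, cp]
    split_ifs <;> simp
  | succ r ih =>
    rw [sum_pA_succ, cp]
    refine sum_congr rfl fun b' _ => ?_
    rw [← ih, mul_sum]
    refine sum_congr rfl fun y _ => ?_
    rw [Fin.prod_univ_succ]
    simp

def Qw (r c b : ℕ) : ℕ :=
  c.descFactorial (b / r) ^ (r - b % r) * c.descFactorial (b / r + 1) ^ (b % r)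

lemma N_ge_wt {r c b : ℕ} (hr : 0 < r) (hb : b ≤ r * c) (y : Fin r → ℕ) (hy : ∑ i, y i = b) :
    U r (r * c - b) * ∏ i, c.descFactorial (y i)
      ≤ N (fun i : Fin r => (c : ℤ) - (y i : ℕ)) * Qw r c b := by
  by_cases h : ∃ i, c < y i
  · obtain ⟨i, hi⟩ := h
    rw [prod_eq_zero (mem_univ i) (Nat.descFactorial_eq_zero_iff_lt.2 hi)]
    simp
  push Not at h
  have h0 : ∀ i : Fin r, bl r b i ≤ c := by
    intro i
    have h1 := Nat.div_add_mod b r
    have h2 : b / r ≤ c := Nat.div_le_of_le_mul hb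
    unfold bl
    split_ifs with h3
    · rcases h2.eq_or_lt with h4 | h4
      · rw [h4] at h1; omega
      · omega
    · omega
  have hs : ∑ i : Fin r, ((c : ℤ) - (bl r b i : ℕ)) = (r * c - b : ℕ) := by
    rw [sum_sub_distrib, ← Nat.cast_sum _ fun i : Fin r => bl r b i, sum_bl hr,
      Nat.cast_sub hb]
    simp
  have hbal : ∀ i j : Fin r, (c : ℤ) - (bl r b i : ℕ) ≤ (c : ℤ) - (bl r b j : ℕ) + 1 := by
    intro i j
    have := bal_bal r b j i
    simp only [bal] at this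
    omega
  have h1 := N_fl_bal hbal (fun i : Fin r => (c : ℤ) - (y i : ℕ)) (by
    rw [hs, sum_sub_distrib, ← Nat.cast_sum _ y, hy, Nat.cast_sub hb]; simp)
    (fun i => by have := h i; omega)
  rw [N_eq_U _ hbal hs] at h1
  have e : ∀ z : Fin r → ℕ, (∀ i, z i ≤ c) →
      (∏ l, ((c : ℤ) - (z l : ℕ)).toNat.factorial) * ∏ i, c.descFactorial (z i)
        = c.factorial ^ r := by
    intro z hz
    rw [← prod_mul_distrib, prod_congr rfl (g := fun _ => c.factorial)]
    · simp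
    · intro i _
      rw [← Nat.factorial_mul_descFactorial (hz i)]
      congr 2
      have := hz i
      omega
  have e0 : ∏ i : Fin r, c.descFactorial (bl r b i) = Qw r c b := by
    have : ∀ i : Fin r, c.descFactorial (bl r b i) = if (i : ℕ) < b % r then
        c.descFactorial (b / r + 1) else c.descFactorial (b / r) := by
      intro i
      unfold bl
      split_ifs <;> rfl
    simp only [this]
    have h5 := Fin.card_filter_val_lt (n := r) (m := b % r)
    have h6 := card_filter_add_card_filter_not (s := (univ : Finset (Fin r)))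
      fun i => (i : ℕ) < b % r
    rw [min_eq_right (Nat.mod_lt _ hr).le] at h5
    rw [h5, card_univ, Fintype.card_fin] at h6
    rw [prod_ite, prod_const, prod_const, h5, Qw, mul_comm]
    congr 2
    omega
  have e1 := e y h
  have e2 := e (fun i => bl r b i) h0
  rw [e0] at e2
  have hp : 0 < ∏ l : Fin r, ((c : ℤ) - (bl r b l : ℕ)).toNat.factorial :=
    prod_pos fun _ _ => Nat.factorial_pos _
  refine Nat.le_of_mul_le_mul_left ?_ hp
  generalize ∏ l : Fin r, ((c : ℤ) - (bl r b l : ℕ)).toNat.factorial = A0 at *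
  generalize ∏ l : Fin r, ((c : ℤ) - (y l : ℕ)).toNat.factorial = A at *
  generalize ∏ i, c.descFactorial (y i) = W at *
  generalize N (fun i : Fin r => (c : ℤ) - (y i : ℕ)) = X at *
  calc A0 * (U r (r * c - b) * W) = (U r (r * c - b) * A0) * W := by ring
    _ ≤ (X * A) * W := Nat.mul_le_mul_right _ h1
    _ = X * (A * W) := by ring
    _ = _ := by rw [e1, ← e2]; ring

lemma SN_ex {r c b : ℕ} (hr : 0 < r) (hb : b ≤ r * c) :
    U r (r * c - b) * cp c.descFactorial r b ≤ SN r c b * Qw r c b := by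
  rw [← sum_prod_cp, SN, mul_sum, sum_mul]
  exact sum_le_sum fun y hy => N_ge_wt hr hb y (mem_pA.1 hy)

end Pool.Agent.Lib.MP_a5d4dd_co
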