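import Mathlib

namespace Pool.Agent.Lib.MP_a5d4dd_co

open Finset

section
variable {ι : Type*} [Fintype ι] [DecidableEq ι]

def Fs (π : ι → ι) (μ : ι → ℤ) : Finset (ι → ι → ℕ) :=
  (Fintype.piFinset fun i => Fintype.piFinset fun _ => range ((μ i).toNat + 1)).filter
    fun A => (∀ i j, A i j = A j (π i)) ∧ ∀ i, ∑ j, (A i j : ℤ) = μ i

lemma mem_Fs {π : ι → ι} {μ : ι → ℤ} {A : ι → ι → ℕ} :
    A ∈ Fs π μ ↔ (∀ i j, A i j = A j (π i)) ∧ ∀ i, ∑ j, (A i j : ℤ) = μ i := by
  unfold Fs
  simp only [mem_filter, Fintype.mem_piFinset, mem_range, and_iff_right_iff_imp]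
  rintro ⟨-, h⟩ i j
  have h1 : (A i j : ℤ) ≤ ∑ j, (A i j : ℤ) :=
    single_le_sum (f := fun j => (A i j : ℤ)) (fun _ _ => by positivity) (mem_univ j)
  rw [h i] at h1
  omega

def N (μ : ι → ℤ) : ℕ := #(Fs id μ)

lemma mem_pA {a : ℕ} {y : ι → ℕ} : y ∈ piAntidiag univ a ↔ ∑ i, y i = a := by
  simp [mem_piAntidiag]

lemma mem_Sy {μ : ι → ℤ} {A : ι → ι → ℕ} :
    A ∈ Fs id μ ↔ (∀ i j, A i j = A j i) ∧ ∀ i, ∑ j, (A i j : ℤ) = μ i := mem_Fs

lemma row_zero {π : ι → ι} {μ : ι → ℤ} {A : ι → ι → ℕ} (h : A ∈ Fs π μ) {i : ι} (hi : μ i = 0)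
    (j : ι) : A i j = 0 := by
  have h1 : (A i j : ℤ) ≤ ∑ j, (A i j : ℤ) :=
    single_le_sum (f := fun j => (A i j : ℤ)) (fun _ _ => by positivity) (mem_univ j)
  rw [(mem_Fs.1 h).2 i] at h1
  omega

lemma N_neg {μ : ι → ℤ} {i : ι} (h : μ i < 0) : N μ = 0 := by
  unfold N
  rw [card_eq_zero, eq_empty_iff_forall_notMem]
  intro A hA
  have h1 := (mem_Sy.1 hA).2 i
  have : (0 : ℤ) ≤ ∑ j, (A i j : ℤ) := sum_nonneg fun _ _ => by positivity
  omega

def res (μ : ι → ℤ) (v : ι) (y : ι → ℕ) : ι → ℤ := fun i => if i = v then 0 else μ i - y i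

lemma sum_ite_ne (v : ι) (f : ι → ℤ) : ∑ j, (if j = v then 0 else f j) = ∑ j, f j - f v := by
  rw [← add_sum_erase _ _ (mem_univ v), ← add_sum_erase _ f (mem_univ v)]
  simp only [if_true, zero_add, add_sub_cancel_left]
  exact sum_congr rfl fun j hj => if_neg (ne_of_mem_erase hj)

lemma N_row (μ : ι → ℤ) (v : ι) (a : ℕ) (h : μ v = a) :
    N μ = ∑ y ∈ piAntidiag univ a, N (res μ v y) := by
  unfold N
  rw [card_eq_sum_card_fiberwise (f := fun A => A v) (t := piAntidiag univ a)]
  · refine sum_congr rfl fun y hy => ?_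
    have hy' : ∑ j, y j = a := mem_pA.1 hy
    refine card_nbij' (fun A i j => if i = v ∨ j = v then 0 else A i j)
      (fun A i j => if i = v then y j else if j = v then y i else A i j) ?_ ?_ ?_ ?_
    · intro A hA
      simp only [coe_filter, Set.mem_ofPred_eq] at hA
      obtain ⟨hA, hv⟩ := hA
      obtain ⟨h1, h2⟩ := mem_Sy.1 hA
      refine mem_coe.2 (mem_Sy.2 ⟨fun i j => ?_, fun i => ?_⟩)
      · by_cases hi : i = v <;> by_cases hj : j = v <;> simp [hi, hj, h1 i j]
      · by_cases hi : i = v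
        · simp [hi, res]
        · simp only [hi, false_or, res, if_false]
          rw [← h2 i, ← hv, h1 v i, ← sum_ite_ne v fun j => (A i j : ℤ)]
          refine sum_congr rfl fun j _ => ?_
          split_ifs <;> simp
    · intro A hA
      obtain ⟨h1, h2⟩ := mem_Sy.1 (mem_coe.1 hA)
      have hz : ∀ j, A v j = 0 := row_zero (mem_coe.1 hA) (by simp [res])
      simp only [coe_filter, Set.mem_ofPred_eq]
      refine ⟨mem_Sy.2 ⟨fun i j => ?_, fun i => ?_⟩, by funext j; simp⟩
      · by_cases hi : i = v <;> by_cases hj : j = v <;> simp [hi, hj, h1 i j]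
      · by_cases hi : i = v
        · simp only [hi, if_true, h]
          exact_mod_cast hy'
        · have := h2 i
          simp only [hi, res, if_false] at this ⊢
          have e : ∀ j, ((if j = v then y i else A i j : ℕ) : ℤ)
              = A i j + if j = v then (y i : ℤ) else 0 := by
            intro j
            split_ifs with hj
            · rw [hj, h1 i v, hz i]; simp
            · simp
          simp only [e, sum_add_distrib, this, sum_ite_eq', mem_univ, if_true]
          ring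
    · intro A hA
      simp only [coe_filter, Set.mem_ofPred_eq] at hA
      obtain ⟨hA, hv⟩ := hA
      obtain ⟨h1, -⟩ := mem_Sy.1 hA
      funext i j
      by_cases hi : i = v
      · simp [hi, ← hv]
      · by_cases hj : j = v
        · simp [hi, hj, ← hv, h1 i v]
        · simp [hi, hj]
    · intro A hA
      obtain ⟨h1, -⟩ := mem_Sy.1 (mem_coe.1 hA)
      have hz : ∀ j, A v j = 0 := row_zero (mem_coe.1 hA) (by simp [res])
      funext i j
      by_cases hi : i = v
      · simp [hi, hz]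
      · by_cases hj : j = v
        · simp [hj, h1 i v, hz]
        · simp [hi, hj]
  · intro A hA
    have := (mem_Sy.1 (mem_coe.1 hA)).2 v
    rw [h] at this
    refine mem_coe.2 (mem_pA.2 ?_)
    exact_mod_cast this

lemma N_ext {κ : Type*} [Fintype κ] [DecidableEq κ] (e : κ → ι) (he : Function.Injective e)
    (μ : ι → ℤ) (h : ∀ i, i ∉ Set.range e → μ i = 0) : N μ = N (μ ∘ e) := by
  unfold N
  have hs : ∀ (f : ι → ℤ), (∀ i, i ∉ Set.range e → f i = 0) → ∑ j, f j = ∑ k, f (e k) := by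
    intro f hf
    rw [← sum_image (s := univ) (g := e) (f := f) fun x _ y _ hxy => he hxy]
    symm
    refine sum_subset (subset_univ _) fun x _ hx => hf x ?_
    rintro ⟨k, rfl⟩
    exact hx (mem_image_of_mem _ (mem_univ k))
  refine card_bij (fun A _ => fun k l => A (e k) (e l)) ?_ ?_ ?_
  · intro A hA
    obtain ⟨h1, h2⟩ := mem_Sy.1 hA
    refine mem_Sy.2 ⟨fun i j => h1 _ _, fun i => ?_⟩
    rw [Function.comp, ← h2, hs fun j => (A (e i) j : ℤ)]
    intro j hj
    rw [h1, row_zero hA (h j hj)]; simp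
  · intro A hA B hB hAB
    funext i j
    by_cases hi : i ∈ Set.range e
    · by_cases hj : j ∈ Set.range e
      · obtain ⟨k, rfl⟩ := hi
        obtain ⟨l, rfl⟩ := hj
        exact congrFun (congrFun hAB k) l
      · rw [(mem_Sy.1 hA).1, (mem_Sy.1 hB).1, row_zero hA (h j hj), row_zero hB (h j hj)]
    · rw [row_zero hA (h i hi), row_zero hB (h i hi)]
  · intro B hB
    obtain ⟨h1, h2⟩ := mem_Sy.1 hB
    classical
    let A : ι → ι → ℕ := fun i j =>
      if hij : i ∈ Set.range e ∧ j ∈ Set.range e then B hij.1.choose hij.2.choose else 0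
    have hA : ∀ k l, A (e k) (e l) = B k l := by
      intro k l
      have hij : e k ∈ Set.range e ∧ e l ∈ Set.range e := ⟨⟨k, rfl⟩, ⟨l, rfl⟩⟩
      simp only [A, dif_pos hij]
      rw [he hij.1.choose_spec, he hij.2.choose_spec]
    have hA0 : ∀ i j, ¬(i ∈ Set.range e ∧ j ∈ Set.range e) → A i j = 0 := by
      intro i j hij
      simp only [A, dif_neg hij]
    refine ⟨A, mem_Sy.2 ⟨fun i j => ?_, fun i => ?_⟩, by funext k l; exact hA k l⟩
    · by_cases hij : i ∈ Set.range e ∧ j ∈ Set.range e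
      · obtain ⟨⟨k, rfl⟩, ⟨l, rfl⟩⟩ := hij
        rw [hA, hA, h1]
      · rw [hA0 i j hij, hA0 j i fun h => hij h.symm]
    · by_cases hi : i ∈ Set.range e
      · obtain ⟨k, rfl⟩ := hi
        rw [hs fun j => (A (e k) j : ℤ)]
        · simp only [hA]; exact h2 k
        · intro j hj
          rw [hA0 _ _ fun h => hj h.2]; simp
      · rw [h i hi]
        refine sum_eq_zero fun j _ => ?_
        rw [hA0 _ _ fun h => hi h.1]; simp

lemma N_mono {μ ν : ι → ℤ} (h : ∀ i, μ i ≤ ν i) : N μ ≤ N ν := by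
  unfold N
  refine card_le_card_of_injOn
    (fun A i j => A i j + if j = i then (ν i - μ i).toNat else 0) ?_ ?_
  · intro A hA
    obtain ⟨h1, h2⟩ := mem_Sy.1 (mem_coe.1 hA)
    refine mem_coe.2 (mem_Sy.2 ⟨fun i j => ?_, fun i => ?_⟩)
    · by_cases hij : j = i
      · rw [hij]
      · simp [hij, Ne.symm hij, h1 i j]
    · have := h i
      push_cast
      rw [sum_add_distrib, h2, sum_ite_eq' univ i fun _ => (((ν i - μ i).toNat : ℕ) : ℤ)]
      simp only [mem_univ, if_true]
      omega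
  · intro A _ B _ hAB
    funext i j
    exact Nat.add_right_cancel (congrFun (congrFun hAB i) j)

end

lemma sum_pA_succ {M : Type*} [AddCommMonoid M] {r : ℕ} (a : ℕ) (G : (Fin (r + 1) → ℕ) → M) :
    ∑ y ∈ piAntidiag univ a, G y
      = ∑ b ∈ range (a + 1), ∑ y ∈ piAntidiag univ b, G (Fin.cons (a - b) y) := by
  rw [sum_sigma']
  refine sum_nbij' (fun y => ⟨∑ i : Fin r, y i.succ, fun i => y i.succ⟩)
    (fun p => Fin.cons (a - p.1) p.2) ?_ ?_ ?_ ?_ ?_
  · intro y hy
    have hy' : ∑ j, y j = a := mem_pA.1 hy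
    rw [Fin.sum_univ_succ] at hy'
    simp only [mem_sigma, mem_range, mem_pA, and_true]
    omega
  · rintro ⟨b, y⟩ hp
    simp only [mem_sigma, mem_range, mem_pA] at hp ⊢
    rw [Fin.sum_univ_succ]
    simp only [Fin.cons_zero, Fin.cons_succ]
    omega
  · intro y hy
    have hy' : ∑ j, y j = a := mem_pA.1 hy
    rw [Fin.sum_univ_succ] at hy'
    funext i
    refine Fin.cases ?_ (fun i => ?_) i
    · simp only [Fin.cons_zero]; omega
    · simp
  · rintro ⟨b, y⟩ hp
    simp only [mem_sigma, mem_range, mem_pA] at hp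
    simp [hp.2]
  · intro y hy
    have hy' : ∑ j, y j = a := mem_pA.1 hy
    rw [Fin.sum_univ_succ] at hy'
    congr 1
    funext i
    refine Fin.cases ?_ (fun i => ?_) i
    · simp only [Fin.cons_zero]; omega
    · simp

lemma N_cons {r : ℕ} (a : ℕ) (ν : Fin r → ℤ) :
    N (Fin.cons (a : ℤ) ν : Fin (r + 1) → ℤ)
      = ∑ b ∈ range (a + 1), ∑ y ∈ piAntidiag univ b, N (fun i => ν i - (y i : ℕ)) := by
  rw [N_row _ 0 a (by simp), sum_pA_succ]
  refine sum_congr rfl fun b _ => sum_congr rfl fun y _ => ?_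
  rw [N_ext Fin.succ (Fin.succ_injective r)]
  · congr 1
  · intro i hi
    refine Fin.cases (fun _ => by simp [res]) (fun i hi => absurd ⟨i, rfl⟩ hi) i hi

lemma N_fin0 (ν : Fin 0 → ℤ) : N ν = 1 := by
  unfold N
  rw [card_eq_one]
  refine ⟨fun _ _ => 0, ?_⟩
  ext A
  simp only [mem_Sy, mem_singleton, IsEmpty.forall_iff, true_and, true_iff]
  funext i
  exact i.elim0

lemma N_fin1 (ν : Fin 1 → ℤ) : N ν = if 0 ≤ ν 0 then 1 else 0 := by
  split_ifs with h
  · obtain ⟨a, ha⟩ := Int.eq_ofNat_of_zero_le h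
    have : ν = Fin.cons (a : ℤ) Fin.elim0 := by
      funext i
      fin_cases i
      simpa using ha
    rw [this, N_cons]
    simp only [N_fin0, univ_eq_empty, piAntidiag_empty]
    rw [sum_eq_single 0] <;> simp +contextual
  · exact N_neg (i := 0) (by omega)

lemma N_fin2 (p q : ℕ) : N (Fin.cons (p : ℤ) (fun _ => (q : ℤ)) : Fin 2 → ℤ) = min p q + 1 := by
  rw [N_cons]
  have : ∀ b, ∑ y ∈ piAntidiag (univ : Finset (Fin 1)) b, N (fun i => (q : ℤ) - (y i : ℕ))
      = if b ≤ q then 1 else 0 := by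
    intro b
    have e : piAntidiag (univ : Finset (Fin 1)) b = {fun _ => b} := by
      ext y
      rw [mem_pA]
      simp only [mem_singleton, univ_unique, sum_singleton]
      constructor
      · intro h; funext i; rw [Subsingleton.elim i default]; exact h
      · rintro rfl; rfl
    rw [e, sum_singleton, N_fin1]
    simp
  simp only [this]
  rw [← card_filter]
  have : filter (fun b => b ≤ q) (range (p + 1)) = range (min p q + 1) := by
    ext b; simp only [mem_filter, mem_range]; omega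
  rw [this, card_range]

end Pool.Agent.Lib.MP_a5d4dd_co
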