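import Mathlib

namespace Pool.Agent.Lib.MP_a5d4dd_co

/-- `n × n` matrices of non-negative integers with all row and column sums equal to `m`. -/
def Magic (n m : ℕ) : Set (Matrix (Fin n) (Fin n) ℕ) :=
  {A | (∀ i, ∑ j, A i j = m) ∧ ∀ j, ∑ i, A i j = m}

/-- `B` arises from `A` by permuting rows and permuting columns. -/
def PermEquiv {n : ℕ} (A B : Matrix (Fin n) (Fin n) ℕ) : Prop :=
  ∃ σ τ : Equiv.Perm (Fin n), B = A.submatrix σ τ

/-- The magic matrices that are permutation equivalent to their transpose. -/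
def SelfTr (n m : ℕ) : Set (Matrix (Fin n) (Fin n) ℕ) :=
  {A | A ∈ Magic n m ∧ PermEquiv A A.transpose}

/-- The number of permutation equivalence classes in `SelfTr n m`. -/
noncomputable def tnum (n m : ℕ) : ℕ :=
  Nat.card (Quot fun A B : SelfTr n m => PermEquiv A.1 B.1)

end Pool.Agent.Lib.MP_a5d4dd_co
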