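import Pool.Agent.Lib.MP_a5d4dd_co.Fix
import Pool.Agent.Lib.MP_a5d4dd_co.Defs

namespace Pool.Agent.Lib.MP_a5d4dd_co

open Finset Equiv

lemma magic_sub {n m : ℕ} {A : Matrix (Fin n) (Fin n) ℕ} (h : A ∈ Magic n m) (a b : Perm (Fin n)) :
    A.submatrix a b ∈ Magic n m :=
  ⟨fun i => (Equiv.sum_comp b fun j => A (a i) j).trans (h.1 _),
    fun j => (Equiv.sum_comp a fun i => A i (b j)).trans (h.2 _)⟩

lemma selfTr_sub {n m : ℕ} {A : Matrix (Fin n) (Fin n) ℕ} (h : A ∈ SelfTr n m)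
    (a b : Perm (Fin n)) : A.submatrix a b ∈ SelfTr n m := by
  refine ⟨magic_sub h.1 a b, ?_⟩
  obtain ⟨σ, τ, e⟩ := h.2
  refine ⟨a⁻¹ * σ * b, b⁻¹ * τ * a, ?_⟩
  ext i j
  simpa using congrFun (congrFun e (b i)) (a j)

@[reducible] def act (n m : ℕ) : MulAction (Perm (Fin n) × Perm (Fin n)) (SelfTr n m) where
  smul g A := ⟨A.1.submatrix (g.1⁻¹ : Perm (Fin n)) (g.2⁻¹ : Perm (Fin n)), selfTr_sub A.2 _ _⟩
  one_smul _ := rfl
  mul_smul _ _ _ := rfl

theorem burnside (n m : ℕ) : n.factorial * tnum n m = XX n m := by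
  let _ := act n m
  have hs : ∀ (g : Perm (Fin n) × Perm (Fin n)) (A : SelfTr n m),
      (g • A).1 = A.1.submatrix (g.1⁻¹ : Perm (Fin n)) (g.2⁻¹ : Perm (Fin n)) := fun _ _ => rfl
  have h1 : tnum n m
      = Nat.card (MulAction.orbitRel.Quotient (Perm (Fin n) × Perm (Fin n)) (SelfTr n m)) := by
    have : (fun A B : SelfTr n m => PermEquiv A.1 B.1)
        = (MulAction.orbitRel (Perm (Fin n) × Perm (Fin n)) (SelfTr n m)).r := by
      funext A B
      refine propext ⟨?_, ?_⟩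
      · rintro ⟨σ, τ, e⟩
        refine ⟨(σ, τ), Subtype.ext ?_⟩
        simp only [hs, e]
        ext i j
        simp
      · rintro ⟨g, e⟩
        refine ⟨g.1, g.2, ?_⟩
        rw [← e]
        simp only [hs]
        ext i j
        simp
    unfold tnum
    rw [this]
    rfl
  have hc : ∀ A : SelfTr n m, ∃ g : Perm (Fin n) × Perm (Fin n), (g • A).1 = A.1.transpose := by
    intro A
    obtain ⟨σ, τ, e⟩ := A.2.2
    exact ⟨(σ⁻¹, τ⁻¹), by rw [hs, e]; simp⟩
  choose c hc using hc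
  let e1 : (Σ g : Perm (Fin n) × Perm (Fin n), MulAction.fixedBy (SelfTr n m) g)
      ≃ {p : (Perm (Fin n) × Perm (Fin n)) × SelfTr n m // (p.1 • p.2).1 = p.2.1.transpose} :=
    { toFun := fun p => ⟨(c p.2.1 * p.1, p.2.1), by
        rw [mul_smul, show p.1 • p.2.1 = p.2.1 from p.2.2]; exact hc _⟩
      invFun := fun p => ⟨(c p.1.2)⁻¹ * p.1.1, p.1.2, by
        rw [MulAction.mem_fixedBy, mul_smul, inv_smul_eq_iff]
        exact Subtype.ext (p.2.trans (hc _).symm)⟩
      left_inv := by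
        rintro ⟨g, A, h⟩
        refine Sigma.subtype_ext ?_ rfl
        simp
      right_inv := by
        rintro ⟨⟨g, A⟩, h⟩
        simp }
  let e2 : {p : (Perm (Fin n) × Perm (Fin n)) × SelfTr n m // (p.1 • p.2).1 = p.2.1.transpose}
      ≃ (Σ π : Perm (Fin n), Fs π fun _ => (m : ℤ)) × Perm (Fin n) :=
    { toFun := fun p => (⟨p.1.1.2⁻¹ * p.1.1.1⁻¹, fun i j => p.1.2.1 (p.1.1.1⁻¹ i) j, by
        refine mem_Fs.2 ⟨fun i j => ?_, fun i => ?_⟩
        · exact (congrFun (congrFun p.2 j) (p.1.1.1⁻¹ i)).symm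
        · exact_mod_cast p.1.2.2.1.1 _⟩, p.1.1.1)
      invFun := fun q => ⟨((q.2, q.2⁻¹ * q.1.1⁻¹), ⟨fun i j => q.1.2.1 (q.2 i) j, by
        obtain ⟨a1, a2⟩ := mem_Fs.1 q.1.2.2
        refine ⟨⟨fun i => by exact_mod_cast a2 _, fun j => ?_⟩, q.2⁻¹, q.1.1 * q.2, ?_⟩
        · have : ∑ i, q.1.2.1 j i = m := by exact_mod_cast a2 j
          refine Eq.trans ?_ ((Equiv.sum_comp (q.1.1 * q.2) fun i => q.1.2.1 j i).trans this)
          exact sum_congr rfl fun i _ => a1 _ _
        · ext i j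
          simpa [Matrix.transpose, Matrix.submatrix] using a1 (q.2 j) i⟩), by
        obtain ⟨a1, -⟩ := mem_Fs.1 q.1.2.2
        rw [hs]
        ext i j
        simpa [Matrix.transpose, Matrix.submatrix] using (a1 (q.2 j) i).symm⟩
      left_inv := by
        rintro ⟨⟨⟨a, b⟩, A⟩, h⟩
        refine Subtype.ext (Prod.ext (Prod.ext rfl ?_) (Subtype.ext ?_))
        · simp
        · ext i j
          simp
      right_inv := by
        rintro ⟨⟨π, B⟩, a⟩
        refine Prod.ext (Sigma.subtype_ext ?_ ?_) rfl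
        · simp
        · funext i j
          simp }
  have h2 := Nat.card_congr ((MulAction.sigmaFixedByEquivOrbitsProdGroup
    (Perm (Fin n) × Perm (Fin n)) (SelfTr n m)).symm.trans (e1.trans e2))
  have h3 : Nat.card (Perm (Fin n)) = n.factorial := by
    rw [Nat.card_eq_fintype_card, Fintype.card_perm, Fintype.card_fin]
  rw [Nat.card_prod, Nat.card_prod, Nat.card_prod, h3, Nat.card_sigma, ← h1] at h2
  simp only [Nat.card_eq_fintype_card, Fintype.card_coe] at h2
  refine Nat.eq_of_mul_eq_mul_right (Nat.factorial_pos n) ?_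
  rw [XX, ← h2]
  ring

lemma U_le_XX (n m : ℕ) : U n (n * m) ≤ XX n m := by
  rw [← U_const]
  exact single_le_sum (f := fun π : Perm (Fin n) => #(Fs π fun _ => (m : ℤ)))
    (fun _ _ => Nat.zero_le _) (mem_univ 1)

lemma tnum_le_of {n m : ℕ} (h : m.factorial * XB n m ≤ n.factorial * U m (n * m)) :
    tnum n m ≤ tnum m n := by
  have h1 := XX_le n m
  have h2 := U_le_XX m n
  rw [← burnside] at h1 h2
  rw [mul_comm n m] at h
  refine Nat.le_of_mul_le_mul_left ?_ (Nat.mul_pos (Nat.factorial_pos m) (Nat.factorial_pos n))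
  calc _ = m.factorial * (n.factorial * tnum n m) := by ring
    _ ≤ m.factorial * XB n m := Nat.mul_le_mul_left _ h1
    _ ≤ _ := h
    _ ≤ n.factorial * (m.factorial * tnum m n) := Nat.mul_le_mul_left _ h2
    _ = _ := by ring

end Pool.Agent.Lib.MP_a5d4dd_co
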