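import Pool.Agent.Lib.MP_a5d4dd_co.Burn

namespace Pool.Agent.Lib.MP_a5d4dd_co

open Finset

lemma lam_fac_nonneg {r c b : ℕ} (h : b * (b - 1) ≤ (r + 1) * c) :
    (0 : ℚ) ≤ 1 - (b * (b - 1) : ℕ) / ((r + 1) * c) := by
  rw [sub_nonneg]
  refine div_le_one_of_le₀ ?_ (by positivity)
  exact_mod_cast h

lemma lam_nonneg {r c b : ℕ} (h1 : b ≤ r) (h2 : b ≤ c) : 0 ≤ lam r c b :=
  mul_nonneg (by positivity) (lam_fac_nonneg (Nat.mul_le_mul (by omega) (by omega)))

lemma SN_le (r c : ℕ) {a b : ℕ} (h : b ≤ a) : SN r c b ≤ U (r + 1) (r * c + a) :=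
  (single_le_sum (f := fun b => SN r c b) (fun _ _ => Nat.zero_le _)
    (mem_range.2 (by omega))).trans (sum_SN_le r c a)

lemma lam_le {r c a b : ℕ} (hc : 0 < c) (h1 : b ≤ r) (h2 : b ≤ a) :
    lam r c b * U r (r * c - b) ≤ U (r + 1) (r * c + a) :=
  (SN_lin hc h1).trans (by exact_mod_cast SN_le r c h2)

lemma sum_lam_le {r c a : ℕ} (hc : 0 < c) (B : ℕ) (h1 : B ≤ r) (h2 : B ≤ a) :
    ∑ b ∈ range (B + 1), lam r c b * U r (r * c - b) ≤ U (r + 1) (r * c + a) := by
  refine (sum_le_sum fun b hb => SN_lin hc (show b ≤ r by have := mem_range.1 hb; omega)).trans ?_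
  have := (sum_le_sum_of_subset (f := fun b => SN r c b)
    (range_subset_range.2 (show B + 1 ≤ a + 1 by omega))).trans (sum_SN_le r c a)
  exact_mod_cast this

def eta (n m b : ℕ) : ℚ := lam m n b / (th (n - 1) m ^ ((b + 1) / 2) * (m + 1))

lemma low_step {n m b : ℕ} (hn : 2 ≤ n) (hm : n ≤ m) (hb : b ≤ n) :
    eta n m b * (m + 1) * U m (n * m) ≤ U (m + 1) (n * (m + 1)) := by
  have h1 := lam_le (r := m) (c := n) (a := n) (b := b) (by omega) (by omega) hb
  have h0 : (n - 1) * m + m = m * n := by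
    obtain ⟨k, rfl⟩ : ∃ k, n = k + 1 := ⟨n - 1, by omega⟩
    simp only [Nat.add_sub_cancel]; ring
  have h2 := U_theta_le (a := n - 1) (r := m) (T := m * n) (T' := m * n - b) (k := (b + 1) / 2)
    (by omega) (by omega) (by omega) (by omega)
  have h3 := pow_pos (th_pos (a := n - 1) (r := m) (by omega) (by omega)) ((b + 1) / 2)
  have h4 := lam_nonneg (r := m) (c := n) (b := b) (by omega) hb
  rw [show n * (m + 1) = m * n + n by ring, mul_comm n m]
  refine le_trans ?_ h1
  unfold eta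
  generalize th (n - 1) m ^ ((b + 1) / 2) = t at *
  have : lam m n b / (t * (m + 1)) * (m + 1) = lam m n b / t := by field_simp
  rw [this, div_mul_eq_mul_div, div_le_iff₀ h3, mul_assoc, mul_comm _ t]
  exact mul_le_mul_of_nonneg_left h2 h4

lemma bern (K : ℚ) (hK : 0 < K) (k : ℕ) : (1 + 1 / K) ^ k * (K - k) ≤ K := by
  induction k with
  | zero => simp
  | succ k ih =>
    refine le_trans ?_ ih
    rw [pow_succ, mul_assoc]
    refine mul_le_mul_of_nonneg_left ?_ (by positivity)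
    have : (1 + 1 / K) * (K - ((k + 1 : ℕ) : ℚ)) = K - k - (k + 1) / K := by
      push_cast; field_simp; ring
    rw [this]
    have : (0 : ℚ) ≤ (k + 1) / K := by positivity
    linarith

lemma mc_succ (m b : ℕ) : (m + 1).multichoose b * m = m.multichoose b * (m + b) := by
  rcases m with _ | m
  · rcases b with _ | b <;> simp
  · rw [Nat.multichoose_eq, Nat.multichoose_eq, show m + 1 + 1 + b - 1 = m + b + 1 by omega,
      show m + 1 + b - 1 = m + b by omega, show m + 1 + b = m + b + 1 by ring,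
      Nat.choose_mul_succ_eq, show m + b + 1 - b = m + 1 by omega]

lemma eta_mono_succ {n m k : ℕ} (hk : 2 ≤ k) (hb : 2 * k ≤ n) (hm : n ≤ m) :
    eta n m (2 * k) ≤ eta n (m + 1) (2 * k) := by
  have hk' : (2 : ℚ) ≤ k := by exact_mod_cast hk
  have hb' : (2 : ℚ) * k ≤ n := by exact_mod_cast hb
  have hm' : (n : ℚ) ≤ m := by exact_mod_cast hm
  have t1 := th_pos (a := n - 1) (r := m) (by omega) (by omega)
  have t2 := th_pos (a := n - 1) (r := m + 1) (by omega) (by omega)
  have hK : (0 : ℚ) < n + m - 2 := by linarith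
  have h1 : th (n - 1) (m + 1) ≤ th (n - 1) m * (1 + 1 / (n + m - 2)) := by
    unfold th
    rw [Nat.cast_sub (by omega)]
    push_cast
    have a1 : (0 : ℚ) < n - 1 := by linarith
    have a2 : (0 : ℚ) < m - 1 := by linarith
    have a3 : (0 : ℚ) < m := by linarith
    have : ((m : ℚ) + 1) * (n - 1 + m - 1) / ((n - 1) * (m - 1)) * (1 + 1 / (n + m - 2))
        = (m + 1) * (n + m - 1) / ((n - 1) * (m - 1)) := by
      field_simp
      ring
    rw [this, div_le_div_iff₀ (mul_pos a1 (by linarith)) (mul_pos a1 a2)]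
    have a4 : (0 : ℚ) ≤ (n - 1) * (n + m - 1) := mul_nonneg a1.le (by linarith)
    nlinarith
  have h2 := pow_le_pow_left₀ t2.le h1 k
  rw [mul_pow] at h2
  have h3 := bern _ hK k
  have h4 : (((m + 1).multichoose (2 * k) : ℕ) : ℚ) * m = m.multichoose (2 * k) * (m + 2 * k) := by
    exact_mod_cast mc_succ m (2 * k)
  have h5 := lam_fac_nonneg (r := m) (c := n) (b := 2 * k) (Nat.mul_le_mul (by omega) (by omega))
  have h6 : (1 : ℚ) - (2 * k * (2 * k - 1) : ℕ) / ((m + 1) * n)
      ≤ 1 - (2 * k * (2 * k - 1) : ℕ) / (((m + 1 : ℕ) + 1) * n) := by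
    refine sub_le_sub_left (div_le_div_of_nonneg_left (by positivity)
      (mul_pos (by linarith) (by linarith)) ?_) _
    push_cast
    nlinarith
  have h7 : ((m : ℚ) + 2) * m * (n + m - 2) ≤ (m + 1) * (m + 2 * k) * (n + m - 2 - k) := by
    have a1 : (0 : ℚ) ≤ (n - 2 * k) * ((2 * k - 1) * m + 2 * k) :=
      mul_nonneg (by linarith) (by nlinarith)
    have a2 : (0 : ℚ) ≤ (k - 2) * (2 * k - 1) * m :=
      mul_nonneg (mul_nonneg (by linarith) (by linarith)) (by linarith)
    have a3 : (0 : ℚ) ≤ (k - 1) * m * (m - 1) :=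
      mul_nonneg (mul_nonneg (by linarith) (by linarith)) (by linarith)
    have a4 : (0 : ℚ) ≤ k * (k - 2) := mul_nonneg (by linarith) (by linarith)
    nlinarith
  unfold eta lam
  rw [show (2 * k + 1) / 2 = k by omega]
  generalize (1 : ℚ) - (2 * k * (2 * k - 1) : ℕ) / ((m + 1) * n) = A at *
  generalize (1 : ℚ) - (2 * k * (2 * k - 1) : ℕ) / (((m + 1 : ℕ) + 1) * n) = A' at *
  have p1 := pow_pos t1 k
  have p2 := pow_pos t2 k
  have p3 : (0 : ℚ) ≤ (1 + 1 / (n + m - 2)) ^ k := by positivity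
  generalize th (n - 1) m ^ k = P at *
  generalize th (n - 1) (m + 1) ^ k = P' at *
  generalize (1 + 1 / ((n : ℚ) + m - 2)) ^ k = B at *
  have q0 : (0 : ℚ) ≤ m.multichoose (2 * k) := by positivity
  have q1 : (0 : ℚ) ≤ (m + 1).multichoose (2 * k) := by positivity
  generalize ((m.multichoose (2 * k) : ℕ) : ℚ) = M at *
  generalize (((m + 1).multichoose (2 * k) : ℕ) : ℚ) = M' at *
  have hm0 : (0 : ℚ) < m := by linarith
  have hKk : (0 : ℚ) < n + m - 2 - k := by linarith
  have h8 : B * (m + 2) * m ≤ (m + 1) * (m + 2 * k) := by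
    refine le_of_mul_le_mul_right ?_ hKk
    have := mul_le_mul_of_nonneg_left h3 (show (0 : ℚ) ≤ (m + 2) * m by positivity)
    nlinarith
  have h9 : M * (B * (m + 2)) ≤ M' * (m + 1) := by
    refine le_of_mul_le_mul_right ?_ hm0
    have := mul_le_mul_of_nonneg_left h8 q0
    nlinarith
  push_cast
  rw [div_le_div_iff₀ (by positivity) (by positivity)]
  calc M * A * (P' * (m + 1 + 1)) ≤ M * A * (P * B * (m + 1 + 1)) :=
        mul_le_mul_of_nonneg_left (mul_le_mul_of_nonneg_right h2 (by positivity)) (by positivity)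
    _ = A * P * (M * (B * (m + 2))) := by ring
    _ ≤ A' * P * (M' * (m + 1)) :=
        mul_le_mul (mul_le_mul_of_nonneg_right h6 p1.le) h9 (by positivity)
          (mul_nonneg (h5.trans h6) p1.le)
    _ = _ := by ring

lemma eta_mono {n m m' k : ℕ} (hk : 2 ≤ k) (hb : 2 * k ≤ n) (hm : n ≤ m) (h : m ≤ m') :
    eta n m (2 * k) ≤ eta n m' (2 * k) := by
  induction m', h using Nat.le_induction with
  | base => exact le_rfl
  | succ m' h ih => exact ih.trans (eta_mono_succ hk hb (hm.trans h))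

def thp (a f : ℕ) : ℚ := if f ≤ 1 then 1 else th a f ^ ((f + 1) / 2)

lemma thp_pos {a : ℕ} (ha : 0 < a) (f : ℕ) : 0 < thp a f := by
  unfold thp
  split_ifs
  · exact one_pos
  · exact pow_pos (th_pos ha (by omega)) _

lemma thp_anti {a a' : ℕ} (ha : 0 < a) (h : a ≤ a') (f : ℕ) : thp a' f ≤ thp a f := by
  unfold thp
  split_ifs
  · exact le_rfl
  · exact pow_le_pow_left₀ (th_pos (by omega) (by omega)).le (th_anti ha h (by omega)) _

lemma U_up {a : ℕ} (ha : 0 < a) (f : ℕ) : (U f (f * (a + 1)) : ℚ) ≤ thp a f * U f (f * a) := by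
  unfold thp
  split_ifs with h
  · obtain rfl | rfl : f = 0 ∨ f = 1 := by omega
    · simp [U_zero]
    · simp [U_one]
  · refine U_theta_le ha (by omega) ?_ ?_
    · rw [mul_comm a f, mul_add]; omega
    · rw [mul_add]; omega

lemma Rp_up {n m m1 : ℕ} (h : m1 ≤ m) (q : ℕ) :
    (Rp (m + 1) n q : ℚ) ≤ ((m1 + 1 + n) / (m1 + 1)) ^ q * Rp m n q := by
  unfold Rp
  push_cast
  rw [← card_range q, ← prod_const, card_range, ← prod_mul_distrib]
  refine prod_le_prod (fun _ _ => by positivity) fun k _ => ?_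
  have hj : n - 2 - 2 * k ≤ n := by omega
  generalize n - 2 - 2 * k = j at hj
  have h1 := Nat.add_one_mul_choose_eq (m + j) m
  have h2 : ((m : ℚ) + j + 1) * (m + j).choose m = (m + j + 1).choose (m + 1) * (m + 1) := by
    exact_mod_cast h1
  have h3 : (j : ℚ) ≤ n := by exact_mod_cast hj
  have h4 : (m1 : ℚ) ≤ m := by exact_mod_cast h
  rw [show m + 1 + j = m + j + 1 by ring, div_mul_eq_mul_div, le_div_iff₀ (by positivity)]
  refine le_of_mul_le_mul_right ?_ (show (0 : ℚ) < m + 1 by positivity)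
  have h5 : (0 : ℚ) ≤ (m + j).choose m := by positivity
  have h6 : ((m : ℚ) + j + 1) * (m1 + 1) ≤ (m1 + 1 + n) * (m + 1) := by
    have : (j : ℚ) * (m1 + 1) ≤ n * (m + 1) :=
      mul_le_mul h3 (by linarith) (by positivity) (by positivity)
    nlinarith
  have := mul_le_mul_of_nonneg_right h6 h5
  nlinarith

def rho (n m s : ℕ) : ℚ := ((m + 1 + n) / (m + 1)) ^ (s / 2) * thp m (n - s)

lemma XT_up {n m m1 : ℕ} (h0 : 0 < m1) (h : m1 ≤ m) (s : ℕ) :
    (XT n (m + 1) s : ℚ) ≤ rho n m1 s * XT n m s := by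
  have h1 := Rp_up (n := n) h (s / 2)
  have h2 := (U_up (a := m) (by omega) (n - s)).trans
    (mul_le_mul_of_nonneg_right (thp_anti h0 h _) (by positivity))
  have h3 := mul_le_mul h1 h2 (by positivity) (by positivity)
  have h4 := mul_le_mul_of_nonneg_left h3
    (show (0 : ℚ) ≤ n.choose s * numDerangements s by positivity)
  unfold XT rho
  push_cast
  linarith

theorem step_all {n m1 m0 k : ℕ} (hk : 2 ≤ k) (hb : 2 * k ≤ n) (h1 : n ≤ m1) (h0 : m1 ≤ m0)
    (hr : ∀ s ≤ n, rho n m1 s ≤ eta n m1 (2 * k))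
    (base : m0.factorial * XB n m0 ≤ n.factorial * U m0 (n * m0)) {m : ℕ} (hm : m0 ≤ m) :
    m.factorial * XB n m ≤ n.factorial * U m (n * m) := by
  induction m, hm using Nat.le_induction with
  | base => exact base
  | succ m hm ih =>
    have e1 := eta_mono hk hb h1 (h0.trans hm)
    have e2 := low_step (b := 2 * k) (show 2 ≤ n by omega) (h1.trans (h0.trans hm)) hb
    have e3 : (XB n (m + 1) : ℚ) ≤ eta n m (2 * k) * XB n m := by
      unfold XB
      push_cast
      rw [mul_sum]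
      refine sum_le_sum fun s hs => (XT_up (by omega) (h0.trans hm) s).trans ?_
      exact mul_le_mul_of_nonneg_right ((hr s (by have := mem_range.1 hs; omega)).trans e1)
        (by positivity)
    have e4 : (m.factorial : ℚ) * XB n m ≤ n.factorial * U m (n * m) := by exact_mod_cast ih
    have e5 : 0 ≤ eta n m (2 * k) :=
      div_nonneg (lam_nonneg (by omega) hb)
        (mul_nonneg (pow_pos (th_pos (by omega) (by omega)) _).le (by positivity))
    have e6 := mul_le_mul_of_nonneg_left e3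
      (show (0 : ℚ) ≤ (m + 1) * m.factorial by positivity)
    have e7 := mul_le_mul_of_nonneg_left e4 (show (0 : ℚ) ≤ eta n m (2 * k) * (m + 1) by positivity)
    have e8 := mul_le_mul_of_nonneg_left e2 (show (0 : ℚ) ≤ n.factorial by positivity)
    have : ((m + 1).factorial : ℚ) * XB n (m + 1) ≤ n.factorial * U (m + 1) (n * (m + 1)) := by
      rw [Nat.factorial_succ]
      push_cast
      linarith
    exact_mod_cast this

def Dl (r : ℕ) : ℚ := ∑ b ∈ range (r + 1), lam r (r + 1) b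

lemma Dl_le (r : ℕ) : Dl r * U r (r * r) ≤ U (r + 1) ((r + 1) * (r + 1)) := by
  have := sum_lam_le (r := r) (c := r + 1) (a := r + 1) (by omega) r le_rfl (by omega)
  rw [show (r + 1) * (r + 1) = r * (r + 1) + (r + 1) by ring]
  refine le_trans ?_ this
  rw [Dl, sum_mul]
  refine sum_le_sum fun b hb => ?_
  have := mem_range.1 hb
  refine mul_le_mul_of_nonneg_left ?_ (lam_nonneg (by omega) (by omega))
  exact_mod_cast U_mono r (by rw [mul_add]; omega)

lemma lam_le_Dl (r : ℕ) {b : ℕ} (h : b ≤ r) : lam r (r + 1) b ≤ Dl r :=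
  single_le_sum (f := fun b => lam r (r + 1) b)
    (fun b hb => lam_nonneg (by have := mem_range.1 hb; omega) (by have := mem_range.1 hb; omega))
    (mem_range.2 (by omega))

lemma Dl_pos (r : ℕ) : 0 < Dl r :=
  lt_of_lt_of_le (by simp [lam]) (lam_le_Dl r (Nat.zero_le r))

def Dp (n : ℕ) : ℕ → ℚ
  | 0 => 1
  | j + 1 => Dp n j * Dl (n - 1 - j)

lemma Dp_pos (n j : ℕ) : 0 < Dp n j := by
  induction j with
  | zero => exact one_pos
  | succ j ih => exact mul_pos ih (Dl_pos _)

lemma Dp_le {n j : ℕ} (h : j ≤ n) : Dp n j * U (n - j) ((n - j) * (n - j)) ≤ U n (n * n) := by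
  induction j with
  | zero => simp [Dp]
  | succ j ih =>
    refine le_trans ?_ (ih (by omega))
    rw [Dp, mul_assoc, show n - j = n - 1 - j + 1 by omega, show n - (j + 1) = n - 1 - j by omega]
    exact mul_le_mul_of_nonneg_left (Dl_le _) (Dp_pos n j).le

def Tp (f : ℕ) : ℕ → ℚ
  | 0 => 1
  | j + 1 => Tp f j * th (f + j) f

def Tq (f j : ℕ) : ℚ := if f ≤ 1 then 1 else Tp f j ^ ((f + 1) / 2)

lemma Tp_pos {f : ℕ} (hf : 2 ≤ f) (j : ℕ) : 0 < Tp f j := by
  induction j with
  | zero => exact one_pos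
  | succ j ih => exact mul_pos ih (th_pos (by omega) hf)

lemma Tq_le (f j : ℕ) : (U f (f * (f + j)) : ℚ) ≤ Tq f j * U f (f * f) := by
  unfold Tq
  split_ifs with h
  · obtain rfl | rfl : f = 0 ∨ f = 1 := by omega
    · simp [U_zero]
    · simp [U_one]
  · induction j with
    | zero => simp [Tp]
    | succ j ih =>
      refine (U_up (a := f + j) (by omega) f).trans ?_
      rw [thp, if_neg h, Tp, mul_pow, mul_comm (Tp f j ^ _), mul_assoc]
      exact mul_le_mul_of_nonneg_left ih (pow_pos (th_pos (by omega) (by omega)) _).le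

lemma Tq_nonneg (f j : ℕ) : 0 ≤ Tq f j := by
  unfold Tq
  split_ifs
  · exact zero_le_one
  · exact (pow_pos (Tp_pos (by omega) j) _).le

def EE (n s : ℕ) : ℚ :=
  (n.choose s * numDerangements s * Rp (n + 1) n (s / 2) : ℕ) * Tq (n - s) (s + 1) / Dp n s

lemma XT_le_EE {n s : ℕ} (h : s ≤ n) : (XT n (n + 1) s : ℚ) ≤ EE n s * U n (n * n) := by
  have h1 := Tq_le (n - s) (s + 1)
  rw [show n - s + (s + 1) = n + 1 by omega] at h1
  have h2 := mul_le_mul_of_nonneg_left (Dp_le h) (Tq_nonneg (n - s) (s + 1))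
  have h3 := Dp_pos n s
  have h4 := mul_le_mul_of_nonneg_left h1 h3.le
  have h5 := mul_le_mul_of_nonneg_left (show (U (n - s) ((n - s) * (n + 1)) : ℚ) * Dp n s
    ≤ Tq (n - s) (s + 1) * U n (n * n) by linarith)
    (show (0 : ℚ) ≤ (n.choose s * numDerangements s * Rp (n + 1) n (s / 2) : ℕ) by positivity)
  rw [EE, XT, Nat.cast_mul, div_mul_eq_mul_div, le_div_iff₀ h3]
  linarith

theorem large_of {n k : ℕ} (hk : 2 ≤ k) (hb : 2 * k ≤ n)
    (hr : ∀ s ≤ n, rho n n s ≤ eta n n (2 * k))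
    (hE : ∑ s ∈ range (n + 1), EE n s ≤ eta n n (2 * k)) {m : ℕ} (hm : n < m) :
    m.factorial * XB n m ≤ n.factorial * U m (n * m) := by
  refine step_all hk hb le_rfl (Nat.le_succ n) hr ?_ hm
  have e2 := low_step (b := 2 * k) (show 2 ≤ n by omega) le_rfl hb
  have e3 : (XB n (n + 1) : ℚ) ≤ eta n n (2 * k) * U n (n * n) := by
    refine le_trans ?_ (mul_le_mul_of_nonneg_right hE (by positivity))
    unfold XB
    push_cast
    rw [sum_mul]
    exact sum_le_sum fun s hs => XT_le_EE (by have := mem_range.1 hs; omega)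
  have e6 := mul_le_mul_of_nonneg_left e3 (show (0 : ℚ) ≤ (n + 1) * n.factorial by positivity)
  have e8 := mul_le_mul_of_nonneg_left e2 (show (0 : ℚ) ≤ n.factorial by positivity)
  have : ((n + 1).factorial : ℚ) * XB n (n + 1) ≤ n.factorial * U (n + 1) (n * (n + 1)) := by
    rw [Nat.factorial_succ]
    push_cast
    linarith
  exact_mod_cast this

end Pool.Agent.Lib.MP_a5d4dd_co
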