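import Pool.Agent.Lib.MP_a5d4dd_co.NumDef

namespace Pool.Agent.Lib.MP_a5d4dd_co

def mz (n : ℕ) : ℕ := if n ≤ 4 then 19 else if n = 5 then 16 else max 13 (n + 1)

def chkS (n m : ℕ) : Bool :=
  decide (m ≤ n) || decide (mz n < m) || decide (m = n + 1 ∧ (n = 3 ∨ 9 ≤ n)) || chkP n m

theorem chk_small : ∀ n ∈ List.range 13, 3 ≤ n → ∀ m ∈ List.range 20, chkS n m = true := by
  decide +kernel

theorem chk_three : Nat.factorial 20 * 22 ^ 3 ≤ 6 * (rowL 20).getD 60 0 ∧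
    Nat.factorial 21 * 23 ^ 3 ≤ 6 * (rowL 21).getD 63 0 := by
  decide +kernel

theorem chk_R : ∀ n ∈ List.range 18, 4 ≤ n → chkR n (mz n) = true := by decide +kernel

end Pool.Agent.Lib.MP_a5d4dd_co
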