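import Pool.Agent.Lib.MP_a5d4dd_co.NumDef

namespace Pool.Agent.Lib.MP_a5d4dd_co

theorem chk_D : ∀ n ∈ List.range 18, 9 ≤ n → chkD n = true := by decide +kernel

end Pool.Agent.Lib.MP_a5d4dd_co
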