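import Pool.Agent.Lib.MP_a5d4dd_co.NumDef

namespace Pool.Agent.Lib.MP_a5d4dd_co

open Finset Equiv

theorem chk_M : ∀ n ∈ List.range 110, 18 ≤ n → chkM n = true := by decide +kernel

theorem chk_34 : ∑ π : Perm (Fin 3),
    #(filter (fun B : Fin 3 → Fin 3 → ℕ => ∀ i j, B i j = B j (π i))
      (Fintype.piFinset fun _ => Finset.Nat.antidiagonalTuple 3 4)) = 54 := by decide +kernel

theorem chk_43 : ex4 (bl 4 12 3) (bl 4 12 2) (bl 4 12 1) (bl 4 12 0) = 214 := by decide +kernel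

end Pool.Agent.Lib.MP_a5d4dd_co
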