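import Pool.Agent.Lib.MP_a5d4dd_co.Theta

namespace Pool.Agent.Lib.MP_a5d4dd_co

open Finset Equiv

def Rp (m n q : ℕ) : ℕ := ∏ k ∈ range q, (m + (n - 2 - 2 * k)).choose m

lemma choose_add_mono (m : ℕ) {a b : ℕ} (h : a ≤ b) : (m + a).choose m ≤ (m + b).choose m :=
  Nat.choose_le_choose m (by omega)

lemma Rp_mono (m : ℕ) {n n' q q' : ℕ} (h : n ≤ n') (hq : q ≤ q') : Rp m n q ≤ Rp m n' q' := by
  unfold Rp
  refine (prod_le_prod' fun k _ => choose_add_mono m (show n - 2 - 2 * k ≤ n' - 2 - 2 * k by
    omega)).trans (prod_le_prod_of_subset_of_one_le' (range_subset_range.2 hq) fun k _ _ => ?_)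
  exact Nat.choose_pos (by omega)

lemma Rp_succ (m n q : ℕ) : Rp m n (q + 1) = Rp m (n - 2) q * (m + (n - 2)).choose m := by
  unfold Rp
  rw [prod_range_succ']
  congr 1
  refine prod_congr rfl fun k _ => ?_
  congr 2
  omega

section
variable {ι : Type*} [Fintype ι] [DecidableEq ι]

lemma mem_pA' {s : Finset ι} {a : ℕ} {y : ι → ℕ} (h : ∑ i, y i = a) (h0 : ∀ i, y i ≠ 0 → i ∈ s) :
    y ∈ piAntidiag s a := by
  refine mem_piAntidiag.2 ⟨?_, h0⟩
  rw [← h]
  refine sum_subset (subset_univ _) fun x _ hx => ?_
  by_contra hc
  exact hx (h0 x hc)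

lemma Fs_le (π : Perm ι) (m : ℕ) (Φ : Finset ι) (hΦ : ∀ u ∈ Φ, π u = u) (S : Finset ι)
    (h1 : ∀ u ∈ S, π u ∈ S) (h2 : ∀ u ∈ S, π u ≠ u) (ρ : ι → ℤ) (hm : ∀ u, ρ u ≤ m)
    (h0 : ∀ u, u ∉ Φ → u ∉ S → ρ u = 0) :
    #(Fs π ρ) ≤ Rp m (#Φ + #S) (#S / 2) * U #Φ (#Φ * m) := by
  generalize hs : #S = s
  induction s using Nat.strong_induction_on generalizing S ρ with
  | _ s ih =>
    rcases S.eq_empty_or_nonempty with rfl | ⟨i, hi⟩
    · subst hs
      simp only [card_empty, Nat.zero_div, Rp, range_zero, prod_empty, one_mul]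
      refine le_trans (card_le_card fun B hB => ?_)
        (N_le_U_supp Φ m ρ (fun u hu => h0 u hu (notMem_empty u)) hm)
      obtain ⟨a1, a2⟩ := mem_Fs.1 hB
      refine mem_Sy.2 ⟨fun i j => ?_, a2⟩
      by_cases hi : i ∈ Φ
      · rw [a1, hΦ i hi]
      · have := row_zero hB (h0 i hi (notMem_empty i))
        rw [this, a1, this]
    have hne : π i ≠ i := h2 i hi
    have hS : ∀ n : ℕ, (π ^ n) i ∈ S := by
      intro n
      induction n with
      | zero => simpa using hi
      | succ n ih => rw [pow_succ', Perm.mul_apply]; exact h1 _ ih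
    have hc : #(S.filter fun u => ¬π.SameCycle i u) + 2 ≤ s := by
      rw [← hs, ← card_filter_add_card_filter_not (s := S) fun u => π.SameCycle i u, add_comm]
      refine Nat.add_le_add_right ?_ _
      rw [← card_pair hne]
      refine card_le_card fun u hu => ?_
      rw [mem_insert, mem_singleton] at hu
      rcases hu with rfl | rfl
      · exact mem_filter.2 ⟨h1 i hi, Perm.sameCycle_apply_right.2 (Perm.SameCycle.refl _ _)⟩
      · exact mem_filter.2 ⟨hi, Perm.SameCycle.refl _ _⟩
    have hcard : #(piAntidiag ((Φ ∪ S).erase (π i)) m) = (m + (#Φ + s - 2)).choose m := by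
      have hd : Disjoint Φ S := disjoint_left.2 fun u hu hu' => h2 u hu' (hΦ u hu)
      rw [card_pA, card_erase_of_mem (mem_union_right _ (h1 i hi)), card_union_of_disjoint hd,
        Nat.multichoose_eq, hs]
      congr 1
      omega
    obtain ⟨q, hq⟩ : ∃ q, s / 2 = q + 1 := ⟨s / 2 - 1, by omega⟩
    rw [hq, Rp_succ, ← hcard, mul_right_comm]
    refine card_le_mul_card_image_of_maps_to
      (f := fun B => up2 (B i) (π i) 0 i (B i i + B i (π i) + (m - ρ i).toNat)) ?_ _ ?_
    · intro B hB
      obtain ⟨a1, a2⟩ := mem_Fs.1 hB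
      refine mem_pA' ?_ fun l hl => ?_
      · have e := a2 i
        rw [← Nat.cast_sum, sum_two hne] at e
        have := hm i
        rw [sum_up2 hne]
        omega
      · simp only [up2] at hl
        by_cases b1 : l = π i
        · simp [b1] at hl
        · refine mem_erase.2 ⟨b1, ?_⟩
          by_cases b2 : l = i
          · rw [b2]; exact mem_union_right _ hi
          · simp only [b1, b2, if_false] at hl
            by_contra hc
            rw [mem_union, not_or] at hc
            exact hl (by rw [a1]; exact row_zero hB (h0 l hc.1 hc.2) _)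
    · intro y _
      rcases (filter (fun B => up2 (B i) (π i) 0 i (B i i + B i (π i) + (m - ρ i).toNat) = y)
        (Fs π ρ)).eq_empty_or_nonempty with he | ⟨B0, hB0⟩
      · rw [he]; simp
      have agree : ∀ B ∈ filter
          (fun B => up2 (B i) (π i) 0 i (B i i + B i (π i) + (m - ρ i).toNat) = y) (Fs π ρ),
          ∀ j k, π.SameCycle i j ∨ π.SameCycle i k → B j k = B0 j k := by
        intro B hB
        rw [mem_filter] at hB hB0
        have a1 := (mem_Fs.1 hB.1).1
        have b1 := (mem_Fs.1 hB0.1).1
        have e := hB.2.trans hB0.2.symm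
        have r0 : B i i = B0 i i := by
          have := congrFun e i
          simp only [up2, hne.symm, if_false, if_true, ← a1 i i, ← b1 i i] at this
          omega
        have r1 : ∀ k, B i k = B0 i k := by
          intro k
          by_cases c1 : k = π i
          · rw [c1, ← a1, ← b1, r0]
          · by_cases c2 : k = i
            · rw [c2, r0]
            · simpa [up2, c1, c2] using congrFun e k
        have r2 : ∀ (n : ℕ) k, B ((π ^ n) i) k = B0 ((π ^ n) i) k := by
          intro n
          induction n with
          | zero => simpa using r1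
          | succ n ih =>
            intro k
            obtain ⟨k, rfl⟩ := π.surjective k
            rw [pow_succ', Perm.mul_apply, ← a1, ← b1, ← a1, ← b1, ih]
        have r3 : ∀ j k, π.SameCycle i j → B j k = B0 j k := by
          intro j k h
          obtain ⟨n, rfl⟩ := h.exists_nat_pow_eq
          exact r2 n k
        rintro j k (h | h)
        · exact r3 j k h
        · rw [a1, b1, r3 k _ h]
      have hB0' := (mem_filter.1 hB0).1
      refine le_trans (card_le_card_of_injOn
        (t := Fs π fun j => if π.SameCycle i j then 0 else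
          ρ j - ∑ k ∈ univ.filter (π.SameCycle i), (B0 j k : ℤ))
        (fun B j k => if π.SameCycle i j ∨ π.SameCycle i k then 0 else B j k) ?_ ?_) ?_
      · intro B hB
        have ag := agree B (mem_coe.1 hB)
        obtain ⟨a1, a2⟩ := mem_Fs.1 (mem_filter.1 (mem_coe.1 hB)).1
        refine mem_coe.2 (mem_Fs.2 ⟨fun j k => ?_, fun j => ?_⟩)
        · simp only [Perm.sameCycle_apply_right, or_comm, a1 j k]
        · by_cases hj : π.SameCycle i j
          · simp [hj]
          · simp only [hj, false_or, if_false]
            rw [← a2 j, ← sum_filter_add_sum_filter_not univ (π.SameCycle i) fun k => (B j k : ℤ),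
              sum_congr rfl fun k hk => congrArg Nat.cast (ag j k (Or.inr (mem_filter.1 hk).2)),
              add_sub_cancel_left, sum_filter]
            refine sum_congr rfl fun k _ => ?_
            split_ifs <;> simp
      · intro B hB B' hB' e
        funext j k
        by_cases h : π.SameCycle i j ∨ π.SameCycle i k
        · rw [agree B (mem_coe.1 hB) j k h, agree B' (mem_coe.1 hB') j k h]
        · simpa [h] using congrFun (congrFun e j) k
      · refine (ih _ (by omega) (S.filter fun u => ¬π.SameCycle i u) ?_ ?_ _ ?_ ?_ rfl).trans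
          (Nat.mul_le_mul_right _ (Rp_mono m (by omega) (by omega)))
        · intro u hu
          rw [mem_filter] at hu ⊢
          exact ⟨h1 u hu.1, by rw [Perm.sameCycle_apply_right]; exact hu.2⟩
        · exact fun u hu => h2 u (mem_filter.1 hu).1
        · intro u
          have := hm u
          have : (0 : ℤ) ≤ ∑ k ∈ univ.filter (π.SameCycle i), (B0 u k : ℤ) :=
            sum_nonneg fun _ _ => by positivity
          split_ifs <;> omega
        · intro u c1 c2
          split_ifs with c3
          · rfl
          · have c4 : u ∉ S := fun h => c2 (mem_filter.2 ⟨h, c3⟩)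
            rw [h0 u c1 c4, sum_eq_zero fun k _ => by rw [row_zero hB0' (h0 u c1 c4)]; simp]
            simp

lemma card_support_eq (S : Finset ι) :
    #(univ.filter fun π : Perm ι => π.support = S) = numDerangements #S := by
  rw [← Fintype.card_coe S, ← card_derangements_eq_numDerangements,
    Fintype.card_congr (derangements.subtypeEquiv fun u => u ∈ S), Fintype.card_subtype]
  congr 1
  ext π
  simp only [mem_filter, mem_univ, true_and, Function.mem_fixedPoints, Function.IsFixedPt,
    Finset.ext_iff, Perm.mem_support]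
  exact forall_congr' fun a => by tauto

end

def XX (n m : ℕ) : ℕ := ∑ π : Perm (Fin n), #(Fs π fun _ => (m : ℤ))

def XT (n m s : ℕ) : ℕ :=
  n.choose s * numDerangements s * Rp m n (s / 2) * U (n - s) ((n - s) * m)

def XB (n m : ℕ) : ℕ := ∑ s ∈ range (n + 1), XT n m s

lemma XX_le (n m : ℕ) : XX n m ≤ XB n m := by
  have h1 : ∀ π : Perm (Fin n), #(Fs π fun _ => (m : ℤ))
      ≤ Rp m n (#π.support / 2) * U (n - #π.support) ((n - #π.support) * m) := by
    intro π
    have := Fs_le π m π.supportᶜ (fun u hu => by simpa using hu) π.support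
      (fun u hu => Perm.apply_mem_support.2 hu) (fun u hu => Perm.mem_support.1 hu)
      (fun _ => (m : ℤ)) (fun _ => le_rfl) (fun u a b => absurd (mem_compl.2 b) a)
    have h := card_le_univ π.support
    rw [card_compl, Fintype.card_fin] at this
    rw [Fintype.card_fin] at h
    rwa [Nat.sub_add_cancel h] at this
  refine (sum_le_sum fun π _ => h1 π).trans (le_of_eq ?_)
  rw [← sum_fiberwise_of_maps_to (s := univ) (t := powerset univ) (g := Perm.support)
    (fun _ _ => mem_powerset.2 (subset_univ _))]
  have h2 : ∀ S ∈ powerset (univ : Finset (Fin n)),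
      ∑ π ∈ univ.filter (fun π : Perm (Fin n) => π.support = S),
        Rp m n (#π.support / 2) * U (n - #π.support) ((n - #π.support) * m)
      = numDerangements #S * (Rp m n (#S / 2) * U (n - #S) ((n - #S) * m)) := by
    intro S _
    rw [sum_congr rfl fun π hπ => by rw [(mem_filter.1 hπ).2], sum_const, card_support_eq,
      smul_eq_mul]
  rw [sum_congr rfl h2, sum_powerset_apply_card
    fun s => numDerangements s * (Rp m n (s / 2) * U (n - s) ((n - s) * m)), card_univ,
    Fintype.card_fin]
  refine sum_congr rfl fun s _ => ?_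
  rw [XT, smul_eq_mul]
  ring

end Pool.Agent.Lib.MP_a5d4dd_co
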