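import Pool.Agent.Lib.MP_a5d4dd_co.NumTab

namespace Pool.Agent.Lib.MP_a5d4dd_co

open Finset

lemma th_le {a r : ℕ} (ha : 0 < a) (hr : 2 ≤ r) (h : r ≤ a + 1) :
    th a r ≤ 2 * ((r + 1) / (r - 1)) := by
  have h1 : (1 : ℚ) ≤ a := by exact_mod_cast ha
  have h2 : (2 : ℚ) ≤ r := by exact_mod_cast hr
  have h3 : (r : ℚ) ≤ a + 1 := by exact_mod_cast h
  unfold th
  rw [← mul_div_assoc, div_le_div_iff₀ (mul_pos (by linarith) (by linarith)) (by linarith)]
  have : 0 ≤ ((r : ℚ) + 1) * (r - 1) * (a + 1 - r) :=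
    mul_nonneg (mul_nonneg (by linarith) (by linarith)) (by linarith)
  nlinarith

lemma ratio_pow {f : ℕ} (hf : 2 ≤ f) : (((f : ℚ) + 1) / (f - 1)) ^ ((f + 1) / 2) ≤ 8 := by
  rcases hf.eq_or_lt with rfl | hf
  · norm_num
  have h1 : (3 : ℝ) ≤ f := by exact_mod_cast hf
  have h2 : ((f : ℝ) + 1) / (f - 1) ≤ Real.exp (2 / (f - 1)) := by
    refine le_trans (le_of_eq ?_) (Real.add_one_le_exp _)
    have : (f : ℝ) - 1 ≠ 0 := by linarith
    field_simp
    ring
  have h3 := pow_le_pow_left₀ (div_nonneg (by linarith) (by linarith)) h2 ((f + 1) / 2)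
  rw [← Real.exp_nat_mul] at h3
  have h4 : (((f + 1) / 2 : ℕ) : ℝ) * (2 / (f - 1)) ≤ 1 + 1 := by
    have : (2 : ℝ) * ((f + 1) / 2 : ℕ) ≤ f + 1 := by
      exact_mod_cast (show 2 * ((f + 1) / 2) ≤ f + 1 by omega)
    rw [← mul_div_assoc, div_le_iff₀ (by linarith)]
    linarith
  have h5 := Real.exp_le_exp.2 h4
  rw [Real.exp_add] at h5
  have h6 := Real.exp_one_lt_d9
  have h7 := Real.exp_pos 1
  have h8 : (((f : ℝ) + 1) / (f - 1)) ^ ((f + 1) / 2) ≤ 8 := by nlinarith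
  rw [← Rat.cast_le (K := ℝ)]
  push_cast
  exact h8

lemma two_ratio_pow {f : ℕ} (hf : 2 ≤ f) :
    (2 * (((f : ℚ) + 1) / (f - 1))) ^ ((f + 1) / 2) ≤ 2 ^ ((f + 1) / 2 + 3) := by
  rw [mul_pow, pow_add]
  exact mul_le_mul_of_nonneg_left ((ratio_pow hf).trans (by norm_num)) (by positivity)

lemma thp_le {a f : ℕ} (ha : 0 < a) (h : f ≤ a + 1) : thp a f ≤ 2 ^ ((f + 1) / 2 + 3) := by
  unfold thp
  split_ifs with hf
  · exact one_le_pow₀ (by norm_num)
  · exact (pow_le_pow_left₀ (th_pos ha (by omega)).le (th_le ha (by omega) h) _).trans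
      (two_ratio_pow (by omega))

lemma rho_le {n s : ℕ} (hn : 0 < n) (hs : s ≤ n) : rho n n s ≤ 2 ^ ((n + 1) / 2 + 3) := by
  have h1 : ((n : ℚ) + 1 + n) / (n + 1) ≤ 2 := by
    rw [div_le_iff₀ (by positivity)]; linarith
  have h2 := pow_le_pow_left₀ (by positivity) h1 (s / 2)
  refine (mul_le_mul h2 (thp_le hn (by omega)) (thp_pos hn _).le (by positivity)).trans ?_
  rw [← pow_add]
  exact pow_le_pow_right₀ (by norm_num) (by omega)

lemma th_diag {n : ℕ} (hn : 2 ≤ n) : th (n - 1) n = 2 * ((n + 1) / (n - 1)) := by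
  have h2 : (2 : ℚ) ≤ n := by exact_mod_cast hn
  have : (n : ℚ) - 1 ≠ 0 := by linarith
  unfold th
  rw [Nat.cast_sub (by omega)]
  push_cast
  field_simp
  ring

lemma etaN_le {n b : ℕ} (hn : 2 ≤ n) (hb : b ≤ n) : (etaN n b : ℚ) ≤ eta n n b := by
  have h2 : (2 : ℚ) ≤ n := by exact_mod_cast hn
  have h1 : (n : ℚ) - 1 ≠ 0 := by linarith
  refine Nat.cast_div_le.trans (le_of_eq ?_)
  have h3 : b * (b - 1) ≤ (n + 1) * n := Nat.mul_le_mul (by omega) (by omega)
  rw [eta, lam, th_diag hn, mc_eq]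
  generalize b * (b - 1) = B at *
  push_cast [Nat.cast_sub h3, Nat.cast_sub (show 1 ≤ n by omega)]
  rw [← mul_div_assoc, div_pow]
  field_simp

lemma DlN_le (r : ℕ) : (DlN r : ℚ) ≤ Dl r := by
  refine Nat.cast_div_le.trans (le_of_eq ?_)
  rw [sumTo_eq, Dl, Nat.cast_sum, sum_div]
  refine sum_congr rfl fun b hb => ?_
  have := mem_range.1 hb
  have h3 : b * (b - 1) ≤ (r + 1) * (r + 1) := Nat.mul_le_mul (by omega) (by omega)
  rw [lam, mc_eq]
  generalize b * (b - 1) = B at *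
  push_cast [Nat.cast_sub h3]
  field_simp

lemma DlN_pos (r : ℕ) : 0 < DlN r := by
  refine Nat.div_pos ?_ (by positivity)
  rw [sumTo_eq, sum_range_succ']
  simp [mc_eq]

lemma DpN_le (n j : ℕ) : 0 < DpN n j ∧ (DpN n j : ℚ) ≤ Dp n j := by
  induction j with
  | zero => simp [DpN, Dp]
  | succ j ih =>
    rw [DpN, Dp, frc_eq]
    refine ⟨Nat.mul_pos ih.1 (DlN_pos _), ?_⟩
    push_cast
    exact mul_le_mul ih.2 (DlN_le _) (by positivity) (Dp_pos n j).le

lemma Tp_eq {f : ℕ} (hf : 2 ≤ f) (j : ℕ) : 0 < TpD f j ∧ Tp f j = TpN f j / TpD f j := by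
  induction j with
  | zero => simp [Tp, TpN, TpD]
  | succ j ih =>
    rw [Tp, TpN, TpD, ih.2, th]
    refine ⟨Nat.mul_pos ih.1 (Nat.mul_pos (by omega) (by omega)), ?_⟩
    push_cast [Nat.cast_sub (show 1 ≤ f by omega), Nat.cast_sub (show 1 ≤ f + j + f by omega)]
    rw [div_mul_div_comm]

lemma div_le_succ (A B : ℕ) (hB : 0 < B) : (A : ℚ) / B ≤ (A / B + 1 : ℕ) := by
  rw [div_le_iff₀ (by exact_mod_cast hB)]
  have := Nat.lt_div_mul_add (a := A) hB
  have h : A ≤ (A / B + 1) * B := by rw [add_mul]; omega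
  exact_mod_cast h

lemma EE_le_EEN (n s : ℕ) : EE n s ≤ EEN n s := by
  have h1 := DpN_le n s
  have h2 : (0 : ℚ) < DpN n s := by exact_mod_cast h1.1
  rw [EEN, frc_eq, ch_eq, Rr_eq, EE]
  refine (div_le_div_of_nonneg_left (mul_nonneg (by positivity) (Tq_nonneg _ _)) h2 h1.2).trans ?_
  unfold Tq
  split_ifs with h
  · refine le_trans (le_of_eq ?_) (div_le_succ _ _ (by simpa using h1.1))
    simp
  · have h3 := Tp_eq (show 2 ≤ n - s by omega) (s + 1)
    refine le_trans (le_of_eq ?_) (div_le_succ _ _ (Nat.mul_pos (pow_pos h3.1 _) h1.1))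
    rw [h3.2, div_pow, ← mul_div_assoc, div_div]
    simp only [Nat.cast_mul, Nat.cast_pow]

lemma of_chkM {n m : ℕ} (hn : 4 ≤ n) (h : chkM n = true) (hm : n < m) :
    m.factorial * XB n m ≤ n.factorial * U m (n * m) := by
  rw [chkM, Bool.and_eq_true, decide_eq_true_eq, decide_eq_true_eq, sumTo_eq] at h
  have h0 := etaN_le (n := n) (b := 2 * (n / 2)) (by omega) (by omega)
  refine large_of (k := n / 2) (by omega) (by omega) (fun s hs => (rho_le (by omega) hs).trans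
    (le_trans ?_ h0)) ((sum_le_sum fun s _ => EE_le_EEN n s).trans (le_trans ?_ h0)) hm
  · exact_mod_cast h.1
  · exact_mod_cast h.2

lemma der_le (s : ℕ) : numDerangements s ≤ s.factorial := by
  induction s using Nat.strong_induction_on with
  | _ s ih =>
    match s, ih with
    | 0, _ => simp
    | 1, _ => simp
    | s + 2, ih =>
      rw [numDerangements_add_two]
      calc _ ≤ (s + 1) * (s.factorial + (s + 1).factorial) :=
            Nat.mul_le_mul_left _ (Nat.add_le_add (ih _ (by omega)) (ih _ (by omega)))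
        _ = _ := by simp only [Nat.factorial_succ]; ring

lemma cnt_le (n s : ℕ) : n.choose s * numDerangements s ≤ n ^ s :=
  (Nat.mul_le_mul_left _ (der_le s)).trans (by
    rw [mul_comm, ← Nat.descFactorial_eq_factorial_mul_choose]; exact Nat.descFactorial_le_pow n s)

lemma Rp_le {n q : ℕ} (h : 2 * q ≤ n) : Rp (n + 1) n q * 2 ^ (q * q) ≤ 2 ^ (2 * n * q) := by
  induction q with
  | zero => simp [Rp]
  | succ q ih =>
    have h1 := Nat.choose_le_two_pow (n + 1 + (n - 2 - 2 * q)) (n + 1)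
    have h2 : Rp (n + 1) n (q + 1) = Rp (n + 1) n q * (n + 1 + (n - 2 - 2 * q)).choose (n + 1) := by
      rw [Rp, Rp, prod_range_succ]
    obtain ⟨d, rfl⟩ : ∃ d, n = 2 * q + 2 + d := ⟨n - 2 - 2 * q, by omega⟩
    rw [show 2 * q + 2 + d - 2 - 2 * q = d by omega] at h1 h2
    have h3 := Nat.mul_le_mul (Nat.mul_le_mul (ih (by omega)) h1) (le_refl (2 ^ (2 * q + 1)))
    rw [h2]
    calc _ = _ := by ring
      _ ≤ _ := h3
      _ = _ := by ring

lemma Tq_le_pow (f j : ℕ) : Tq f j ≤ (2 ^ ((f + 1) / 2 + 3)) ^ j := by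
  unfold Tq
  split_ifs with h
  · exact one_le_pow₀ (one_le_pow₀ (by norm_num))
  · have h1 : Tp f j ≤ (2 * ((f + 1) / (f - 1))) ^ j := by
      induction j with
      | zero => simp [Tp]
      | succ j ih =>
        rw [Tp, pow_succ]
        exact mul_le_mul ih (th_le (by omega) (by omega) (by omega))
          (th_pos (by omega) (by omega)).le ((Tp_pos (by omega) j).le.trans ih)
    have h2 : (2 : ℚ) ≤ f := by exact_mod_cast (show 2 ≤ f by omega)
    refine (pow_le_pow_left₀ (Tp_pos (by omega) j).le h1 _).trans ?_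
    rw [← pow_mul, mul_comm j, pow_mul]
    exact pow_le_pow_left₀ (pow_nonneg (mul_nonneg (by norm_num)
      (div_nonneg (by linarith) (by linarith))) _) (two_ratio_pow (by omega)) j

lemma Dl_ge {r n : ℕ} (h : r < n) : (2 : ℚ) ^ (2 * r) ≤ Dl r * (2 * n ^ 2) := by
  have h1 : (r : ℚ) + 1 ≤ n := by exact_mod_cast h
  have h2 : ((r : ℚ) + 1) ^ 2 ≤ n ^ 2 := pow_le_pow_left₀ (by positivity) h1 2
  refine le_trans ?_ (mul_le_mul (lam_le_Dl r le_rfl) (mul_le_mul_of_nonneg_left h2 (by norm_num))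
    (by positivity) (Dl_pos r).le)
  rcases r with _ | r
  · simp [lam]
  have h3 := Nat.four_pow_le_two_mul_self_mul_centralBinom (r + 1) (by omega)
  have h4 : (r + 1).centralBinom = 2 * (r + 1).multichoose (r + 1) := by
    rw [Nat.centralBinom_eq_two_mul_choose, Nat.multichoose_eq,
      show 2 * (r + 1) = 2 * r + 1 + 1 by ring, Nat.choose_succ_succ,
      show r + 1 + (r + 1) - 1 = 2 * r + 1 by omega, ← Nat.choose_symm_half]
    simp only [Nat.succ_eq_add_one]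
    ring
  rw [h4] at h3
  have h5 : (4 : ℚ) ^ (r + 1) ≤ 2 * (r + 1) * (2 * (r + 1).multichoose (r + 1)) := by
    exact_mod_cast h3
  rw [lam, pow_mul, Nat.add_sub_cancel]
  have h6 : (0 : ℚ) ≤ (r + 1).multichoose (r + 1) := by positivity
  generalize (((r + 1).multichoose (r + 1) : ℕ) : ℚ) = M at *
  have h7 : M * (1 - (((r + 1) * r : ℕ) : ℚ) / ((((r + 1 : ℕ) : ℚ) + 1) * ((r + 1 + 1 : ℕ) : ℚ)))
      * (2 * (((r + 1 : ℕ) : ℚ) + 1) ^ 2) = M * (2 * (3 * r + 4)) := by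
    push_cast
    field_simp
    ring
  rw [h7]
  have h8 : (0 : ℚ) ≤ M * r := by positivity
  norm_num
  nlinarith

lemma Dp_ge {n j : ℕ} (h : j ≤ n) :
    (2 : ℚ) ^ (2 * n * j) ≤ Dp n j * (2 * n ^ 2) ^ j * 2 ^ (j * (j + 1)) := by
  induction j with
  | zero => simp [Dp]
  | succ j ih =>
    have h1 := Dl_ge (show n - 1 - j < n by omega)
    rw [Dp]
    obtain ⟨d, rfl⟩ : ∃ d, n = j + 1 + d := ⟨n - 1 - j, by omega⟩
    rw [show j + 1 + d - 1 - j = d by omega] at h1 ⊢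
    have h2 := ih (by omega)
    have h3 := mul_le_mul_of_nonneg_right (mul_le_mul h2 h1 (by positivity)
      (le_trans (by positivity) h2)) (show (0 : ℚ) ≤ 2 ^ (2 * (j + 1)) by positivity)
    calc _ = _ := by ring
      _ ≤ _ := h3
      _ = _ := by ring

lemma pow_big {n : ℕ} (h : 110 ≤ n) : n ^ 12 * 2 ^ 22 ≤ 2 ^ n := by
  induction n, h using Nat.le_induction with
  | base => norm_num
  | succ n h ih =>
    have h1 := Nat.pow_le_pow_left (show (n + 1) * 110 ≤ n * 111 by omega) 12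
    rw [mul_pow, mul_pow] at h1
    rw [pow_succ 2 n]
    generalize (n + 1) ^ 12 = A at *
    generalize n ^ 12 = B at *
    generalize 2 ^ n = C at *
    norm_num at h1 ih ⊢
    linarith

lemma EE_le {n s : ℕ} (hn : 110 ≤ n) (hs : s ≤ n) : EE n s ≤ 2 ^ ((n + 1) / 2 + 3) := by
  have h1 : ((n.choose s * numDerangements s : ℕ) : ℚ) ≤ n ^ s := by exact_mod_cast cnt_le n s
  have h2 : (Rp (n + 1) n (s / 2) : ℚ) * 2 ^ (s / 2 * (s / 2)) ≤ 2 ^ (2 * n * (s / 2)) := by
    exact_mod_cast Rp_le (show 2 * (s / 2) ≤ n by omega)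
  have h3 := Tq_le_pow (n - s) (s + 1)
  have h4 := Dp_ge hs
  have h5 : ((n : ℚ) ^ 12 * 2 ^ 22) ^ s ≤ (2 ^ n) ^ s :=
    pow_le_pow_left₀ (by positivity) (by exact_mod_cast pow_big hn) s
  have h6 : (2 : ℚ) ^ ((n - s + 1) / 2 + 3) ≤ 2 ^ ((n + 1) / 2 + 3) :=
    pow_le_pow_right₀ (by norm_num) (by omega)
  have hq : 2 * (s / 2) ≤ s := by omega
  have hk : 2 * ((n - s + 1) / 2) + s ≤ n + 1 := by omega
  have hD := Dp_pos n s
  have hT := Tq_nonneg (n - s) (s + 1)
  rw [EE, Nat.cast_mul, div_le_iff₀ hD]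
  generalize ((n.choose s * numDerangements s : ℕ) : ℚ) = C at *
  have hR : (0 : ℚ) ≤ Rp (n + 1) n (s / 2) := by positivity
  generalize (Rp (n + 1) n (s / 2) : ℚ) = R at *
  generalize Tq (n - s) (s + 1) = T at *
  generalize Dp n s = D at *
  generalize s / 2 = q at *
  generalize (n - s + 1) / 2 = k at *
  have h7 : ((n : ℚ) ^ 3) ^ s * 2 ^ (2 * n * q + (k + 3) * s + s + s * (s + 1))
      ≤ 2 ^ (q * q + 2 * n * s) := by
    refine le_of_pow_le_pow_left₀ (n := 4) (by norm_num) (by positivity) ?_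
    refine le_of_mul_le_mul_right ?_ (show (0 : ℚ) < 2 ^ (22 * s) by positivity)
    have a1 : n * s + (2 * n * q + (k + 3) * s + s + s * (s + 1)) * 4
        ≤ (q * q + 2 * n * s) * 4 + 22 * s := by
      have b1 := Nat.mul_le_mul_left s hk
      have b2 := Nat.mul_le_mul_left s hs
      obtain ⟨e, rfl⟩ : ∃ e, s = 2 * q + e := ⟨s - 2 * q, by omega⟩
      have b3 := Nat.mul_le_mul_left e hs
      nlinarith
    have a2 := pow_le_pow_right₀ (show (1 : ℚ) ≤ 2 by norm_num) a1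
    have a3 := mul_le_mul_of_nonneg_right h5
      (show (0 : ℚ) ≤ 2 ^ ((2 * n * q + (k + 3) * s + s + s * (s + 1)) * 4) by positivity)
    calc _ = ((n : ℚ) ^ 12 * 2 ^ 22) ^ s * 2 ^ ((2 * n * q + (k + 3) * s + s + s * (s + 1)) * 4) := by
          simp only [mul_pow, ← pow_mul]
          ring
      _ ≤ _ := a3
      _ = 2 ^ (n * s + (2 * n * q + (k + 3) * s + s + s * (s + 1)) * 4) := by
          rw [← pow_mul, ← pow_add]
      _ ≤ _ := a2
      _ = _ := by rw [pow_add, pow_mul]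
  have p1 : (0 : ℚ) < 2 ^ (q * q) * ((2 * n ^ 2) ^ s * 2 ^ (s * (s + 1))) := by
    have : (0 : ℚ) < n := by exact_mod_cast (show 0 < n by omega)
    positivity
  refine le_of_mul_le_mul_right ?_ p1
  have a1 := mul_le_mul (mul_le_mul h1 h2 (by positivity) (by positivity)) h3 hT (by positivity)
  have a2 := mul_le_mul_of_nonneg_right a1
    (show (0 : ℚ) ≤ (2 * n ^ 2) ^ s * 2 ^ (s * (s + 1)) by positivity)
  have a3 := mul_le_mul h6 h7 (by positivity) (by positivity)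
  have a4 := mul_le_mul_of_nonneg_left h4
    (show (0 : ℚ) ≤ 2 ^ ((n + 1) / 2 + 3) * 2 ^ (q * q) by positivity)
  calc _ = _ := by ring
    _ ≤ _ := a2
    _ = _ := by
      simp only [mul_pow, ← pow_mul, pow_add]
      ring
    _ ≤ _ := a3
    _ = _ := by ring
    _ ≤ _ := a4
    _ = _ := by ring

lemma eta_ge {n : ℕ} (hn : 110 ≤ n) :
    ((n : ℚ) + 1) * 2 ^ ((n + 1) / 2 + 3) ≤ eta n n (2 * (n / 2)) := by
  have hn' : (110 : ℚ) ≤ n := by exact_mod_cast hn
  have h1 : (n - 1).centralBinom ≤ n.multichoose (2 * (n / 2)) := by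
    rw [Nat.centralBinom_eq_two_mul_choose, Nat.multichoose_eq]
    obtain ⟨r, rfl⟩ : ∃ r, n = r + 1 := ⟨n - 1, by omega⟩
    rw [Nat.add_sub_cancel]
    obtain h | h : 2 * ((r + 1) / 2) = r ∨ 2 * ((r + 1) / 2) = r + 1 := by omega
    · rw [h, show r + 1 + r - 1 = 2 * r by omega]
    · rw [h, show r + 1 + (r + 1) - 1 = 2 * r + 1 by omega, Nat.choose_succ_succ]
      omega
  have h2 := (Nat.four_pow_le_two_mul_self_mul_centralBinom (n - 1) (by omega)).trans
    (Nat.mul_le_mul (show 2 * (n - 1) ≤ 2 * (n + 1) by omega) h1)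
  have h3 : (4 : ℚ) ^ (n - 1) ≤ 2 * (n + 1) * n.multichoose (2 * (n / 2)) := by exact_mod_cast h2
  have h4 : (2 : ℚ) / (n + 1) ≤ 1 - (2 * (n / 2) * (2 * (n / 2) - 1) : ℕ) / ((n + 1) * n) := by
    have a1 : 2 * (n / 2) * (2 * (n / 2) - 1) ≤ n * (n - 1) := Nat.mul_le_mul (by omega) (by omega)
    have a2 : ((2 * (n / 2) * (2 * (n / 2) - 1) : ℕ) : ℚ) ≤ n * (n - 1) := by
      rw [← Nat.cast_one (R := ℚ), ← Nat.cast_sub (by omega)]
      exact_mod_cast a1
    have a3 := div_le_div_of_nonneg_right a2 (show (0 : ℚ) ≤ (n + 1) * n by positivity)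
    have a4 : (n : ℚ) * (n - 1) / ((n + 1) * n) = 1 - 2 / (n + 1) := by
      field_simp
      ring
    linarith
  have h5 : th (n - 1) n ^ ((2 * (n / 2) + 1) / 2) ≤ 2 ^ ((n + 1) / 2 + 3) := by
    rw [th_diag (by omega)]
    refine le_trans (pow_le_pow_right₀ ?_ (by omega)) (two_ratio_pow (by omega))
    rw [← mul_div_assoc, le_div_iff₀ (by linarith)]
    linarith
  have h6 : ((n : ℚ) + 1) ^ 4 * 2 ^ 9 ≤ 2 ^ n := by
    have a1 := pow_big hn
    have a2 := Nat.pow_le_pow_left (show n + 1 ≤ 2 * n by omega) 4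
    have a3 : n ^ 4 ≤ n ^ 12 := Nat.pow_le_pow_right (by omega) (by norm_num)
    rw [mul_pow] at a2
    have : (n + 1) ^ 4 * 2 ^ 9 ≤ 2 ^ n := by
      generalize (n + 1) ^ 4 = A at *
      generalize n ^ 12 = B at *
      generalize n ^ 4 = D at *
      generalize 2 ^ n = C at *
      norm_num at a1 a2 ⊢
      linarith
    exact_mod_cast this
  have h7 : (2 : ℚ) ^ ((n + 1) / 2 + 3) * 2 ^ ((n + 1) / 2 + 3) * 2 ^ n ≤ 4 ^ (n - 1) * 2 ^ 9 := by
    rw [show (4 : ℚ) = 2 ^ 2 by norm_num, ← pow_mul, ← pow_add, ← pow_add, ← pow_add]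
    exact pow_le_pow_right₀ (by norm_num) (by omega)
  have p1 := pow_pos (th_pos (a := n - 1) (r := n) (by omega) (by omega)) ((2 * (n / 2) + 1) / 2)
  rw [eta, lam, le_div_iff₀ (by positivity)]
  have hM : (0 : ℚ) ≤ n.multichoose (2 * (n / 2)) := by positivity
  refine le_trans ?_ (mul_le_mul_of_nonneg_left h4 hM)
  have hP : (0 : ℚ) < 2 ^ ((n + 1) / 2 + 3) := by positivity
  generalize ((n.multichoose (2 * (n / 2)) : ℕ) : ℚ) = M at *
  generalize th (n - 1) n ^ ((2 * (n / 2) + 1) / 2) = t at *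
  generalize (2 : ℚ) ^ ((n + 1) / 2 + 3) = P at *
  rw [← mul_div_assoc, le_div_iff₀ (by positivity)]
  refine le_of_mul_le_mul_right ?_ (show (0 : ℚ) < (n + 1) * 2 ^ 9 by positivity)
  have a1 := mul_le_mul_of_nonneg_left h5 (show (0 : ℚ) ≤ P * ((n + 1) ^ 4 * 2 ^ 9) by positivity)
  have a2 := mul_le_mul_of_nonneg_left h6 (show (0 : ℚ) ≤ P * P by positivity)
  linarith

theorem large_big {n m : ℕ} (hn : 110 ≤ n) (hm : n < m) :
    m.factorial * XB n m ≤ n.factorial * U m (n * m) := by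
  have h := eta_ge hn
  refine large_of (k := n / 2) (by omega) (by omega) (fun s hs => (rho_le (by omega) hs).trans
    (le_trans (le_mul_of_one_le_left (by positivity) (by linarith [Nat.cast_nonneg (α := ℚ) n])) h))
    (le_trans ?_ h) hm
  refine (sum_le_card_nsmul _ _ _ fun s hs =>
    EE_le hn (show s ≤ n by have := mem_range.1 hs; omega)).trans (le_of_eq ?_)
  simp

end Pool.Agent.Lib.MP_a5d4dd_co
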