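import Pool.Agent.Lib.MP_a5d4dd_co.Bal

namespace Pool.Agent.Lib.MP_a5d4dd_co

open Finset

lemma choose_two_succ (t : ℕ) : (t + 1).choose 2 = t.choose 2 + t := by
  rw [Nat.choose_succ_succ' t 1, Nat.choose_one_right, add_comm]

lemma desc_ge (c t : ℕ) : (c : ℤ) ^ t * (c - t.choose 2) ≤ c * c.descFactorial t := by
  induction t with
  | zero => simp
  | succ t ih =>
    rw [Nat.descFactorial_succ, choose_two_succ]
    have hc : (0 : ℤ) ≤ (c : ℤ) ^ t := by positivity
    by_cases h : t ≤ c
    · push_cast [Nat.cast_sub h]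
      have h1 : (0 : ℤ) ≤ c - t := by omega
      have h2 := mul_le_mul_of_nonneg_left ih h1
      have h3 : (0 : ℤ) ≤ (c : ℤ) ^ t * (t * t.choose 2) := by positivity
      rw [pow_succ]
      nlinarith
    · rw [show c - t = 0 by omega]
      simp only [zero_mul, Nat.cast_zero, mul_zero]
      refine mul_nonpos_of_nonneg_of_nonpos (by positivity) ?_
      push_cast
      omega

lemma prod_desc_ge {ι : Type*} [DecidableEq ι] {c : ℕ} (hc : 0 < c) (y : ι → ℕ) (s : Finset ι) :
    (c : ℤ) ^ (∑ i ∈ s, y i) * (c - (∑ i ∈ s, (y i).choose 2 : ℕ))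
      ≤ c * (∏ i ∈ s, c.descFactorial (y i) : ℕ) := by
  induction s using Finset.induction_on with
  | empty => simp
  | insert a s ha ih =>
    rw [sum_insert ha, sum_insert ha, prod_insert ha, pow_add]
    have h1 := desc_ge c (y a)
    generalize (∑ i ∈ s, (y i).choose 2) = X at *
    generalize (∏ i ∈ s, c.descFactorial (y i)) = P at *
    generalize (y a).choose 2 = x at *
    generalize c.descFactorial (y a) = d at *
    have hA : (0 : ℤ) < (c : ℤ) ^ (y a) := by positivity
    have hB : (0 : ℤ) < (c : ℤ) ^ (∑ i ∈ s, y i) := by positivity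
    generalize (c : ℤ) ^ (y a) = A at *
    generalize (c : ℤ) ^ (∑ i ∈ s, y i) = B at *
    have hc' : (0 : ℤ) < c := by exact_mod_cast hc
    push_cast
    by_cases h : (c : ℤ) - (x + X) ≤ 0
    · exact (mul_nonpos_of_nonneg_of_nonpos (by positivity) h).trans (by positivity)
    · have h2 : 0 ≤ A * (c - x) := mul_nonneg hA.le (by omega)
      have h3 : 0 ≤ B * (c - X) := mul_nonneg hB.le (by omega)
      have h4 := mul_le_mul h1 ih h3 (by positivity)
      have h5 : (0 : ℤ) ≤ A * B * (x * X) := by positivity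
      refine le_of_mul_le_mul_left ?_ hc'
      nlinarith

lemma sum_multichoose (r a : ℕ) :
    ∑ b ∈ range (a + 1), r.multichoose b = (r + 1).multichoose a := by
  induction a with
  | zero => simp
  | succ a ih => rw [sum_range_succ, ih, Nat.multichoose_succ_succ, add_comm]

lemma conv_choose (r a j : ℕ) :
    ∑ b ∈ range (a + 1), (a - b).choose j * r.multichoose b = (a + r).choose (r + j) := by
  induction a generalizing j with
  | zero =>
    rcases j with _ | j
    · simp
    · simp [Nat.choose_eq_zero_of_lt]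
  | succ a ih =>
    rcases j with _ | j
    · simp only [Nat.choose_zero_right, one_mul, add_zero]
      rw [sum_multichoose, Nat.multichoose_eq, show r + 1 + (a + 1) - 1 = a + 1 + r by omega,
        Nat.choose_symm_add]
    · rw [sum_range_succ, show a + 1 + r = a + r + 1 by ring, ← add_assoc r j 1,
        Nat.choose_succ_succ', ← ih j, add_assoc r j 1, ← ih (j + 1), ← sum_add_distrib]
      simp only [Nat.sub_self, Nat.choose_zero_succ, zero_mul, add_zero]
      refine sum_congr rfl fun b hb => ?_
      have := mem_range.1 hb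
      rw [show a + 1 - b = a - b + 1 by omega, Nat.choose_succ_succ', add_mul]

lemma hockey (r a : ℕ) :
    ∑ b ∈ range (a + 1), r * (r + b - 1).choose (r + 1) = r * (a + r).choose (r + 2) := by
  induction a with
  | zero =>
    rw [sum_range_one, Nat.choose_eq_zero_of_lt (by omega), Nat.choose_eq_zero_of_lt (by omega)]
  | succ a ih =>
    rw [sum_range_succ, ih, show a + 1 + r = a + r + 1 by ring, Nat.choose_succ_succ' _ (r + 1),
      show r + (a + 1) - 1 = a + r by omega]
    ring

lemma sum_X (r b : ℕ) : ∑ y ∈ piAntidiag (univ : Finset (Fin r)) b, ∑ i, (y i).choose 2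
    = r * (r + b - 1).choose (r + 1) := by
  induction r generalizing b with
  | zero => simp
  | succ r ih =>
    rw [sum_pA_succ]
    simp only [Fin.sum_univ_succ, Fin.cons_zero, Fin.cons_succ, sum_add_distrib, ih, sum_const,
      card_pA, card_univ, Fintype.card_fin, smul_eq_mul]
    have := conv_choose r b 2
    simp only [mul_comm _ (r.multichoose _)] at this
    rw [this, hockey, show r + 1 + b - 1 = b + r by omega]
    ring

lemma X_eq (r b : ℕ) :
    (r + 1) * (r * (r + b - 1).choose (r + 1)) = b * (b - 1) * r.multichoose b := by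
  rcases r with _ | r
  · rcases b with _ | b <;> simp
  rw [Nat.multichoose_eq, show r + 1 + b - 1 = r + b by omega]
  rcases b with _ | _ | b
  · simp [Nat.choose_eq_zero_of_lt]
  · simp
  · have h1 := Nat.choose_succ_right_eq (r + (b + 1 + 1)) (r + 1)
    have h2 := Nat.choose_succ_right_eq (r + (b + 1 + 1)) r
    rw [show r + (b + 1 + 1) - (r + 1) = b + 1 by omega] at h1
    rw [show r + (b + 1 + 1) - r = b + 2 by omega] at h2
    rw [← Nat.choose_symm_add (a := r), Nat.add_sub_cancel]
    calc _ = (r + 1) * ((r + (b + 1 + 1)).choose (r + 1 + 1) * (r + 1 + 1)) := by ring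
      _ = (b + 1) * ((r + (b + 1 + 1)).choose (r + 1) * (r + 1)) := by rw [h1]; ring
      _ = _ := by rw [h2]; ring

def lam (r c b : ℕ) : ℚ := r.multichoose b * (1 - (b * (b - 1) : ℕ) / ((r + 1) * c))

lemma SN_lin {r c b : ℕ} (hc : 0 < c) (hb : b ≤ r) :
    lam r c b * U r (r * c - b) ≤ SN r c b := by
  rcases Nat.eq_zero_or_pos r with rfl | hr
  · obtain rfl : b = 0 := by omega
    simp [lam, SN, U_zero, N_fin0]
  have hb' : b ≤ r * c := hb.trans (Nat.le_mul_of_pos_right r hc)
  have hQ : Qw r c b = c ^ b := by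
    unfold Qw
    rcases hb.eq_or_lt with rfl | h
    · simp [Nat.div_self hr]
    · simp [Nat.div_eq_of_lt h, Nat.mod_eq_of_lt h]
  have hc' : (0 : ℤ) < c := by exact_mod_cast hc
  have key : ∀ y ∈ piAntidiag (univ : Finset (Fin r)) b,
      (U r (r * c - b) : ℤ) * (c - (∑ i, (y i).choose 2 : ℕ))
        ≤ c * N (fun i : Fin r => (c : ℤ) - (y i : ℕ)) := by
    intro y hy
    have h1 := N_ge_wt hr hb' y (mem_pA.1 hy)
    have h2 := prod_desc_ge hc y univ
    rw [mem_pA.1 hy] at h2
    rw [hQ] at h1
    have h3 : (U r (r * c - b) : ℤ) * (∏ i, c.descFactorial (y i) : ℕ)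
        ≤ N (fun i : Fin r => (c : ℤ) - (y i : ℕ)) * c ^ b := by exact_mod_cast h1
    have h4 := mul_le_mul_of_nonneg_left h2 (show (0 : ℤ) ≤ U r (r * c - b) by positivity)
    have h5 := mul_le_mul_of_nonneg_left h3 hc'.le
    refine le_of_mul_le_mul_left ?_ (show (0 : ℤ) < c ^ b by positivity)
    nlinarith
  have h1 := sum_le_sum key
  rw [← mul_sum, ← mul_sum, sum_sub_distrib, ← Nat.cast_sum, ← Nat.cast_sum, sum_X, sum_const,
    card_pA, card_univ, Fintype.card_fin] at h1
  have h2 := X_eq r b
  have h0 : ∑ y ∈ piAntidiag univ b, (N (fun i : Fin r => (c : ℤ) - (y i : ℕ)) : ℤ)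
      = (SN r c b : ℕ) := by rw [SN, Nat.cast_sum]
  rw [h0] at h1
  unfold lam
  clear key hQ h0
  generalize SN r c b = S at *
  generalize r * (r + b - 1).choose (r + 1) = X at *
  generalize b * (b - 1) = B at *
  generalize r.multichoose b = M at *
  generalize U r (r * c - b) = V at *
  have h3 : (V : ℚ) * (M * c - X) ≤ c * S := by
    simp only [smul_eq_mul] at h1
    exact_mod_cast h1
  have h4 : ((r : ℚ) + 1) * X = B * M := by exact_mod_cast h2
  have hc2 : (0 : ℚ) < c := by exact_mod_cast hc
  have h5 : (M : ℚ) * (1 - B / ((r + 1) * c)) = (M * c - X) / c := by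
    field_simp
    linarith
  rw [h5, div_mul_eq_mul_div, div_le_iff₀ hc2]
  linarith

end Pool.Agent.Lib.MP_a5d4dd_co
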