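import Pool.Agent.Lib.MP_a5d4dd_co.Chain

namespace Pool.Agent.Lib.MP_a5d4dd_co

open Finset

def ch (n k : ℕ) : ℕ := if k ≤ n then n.factorial / (k.factorial * (n - k).factorial) else 0

def frc (x : ℕ) (k : ℕ → ℕ) : ℕ :=
  match x with
  | 0 => k 0
  | y + 1 => k (y + 1)

def mc (r b : ℕ) : ℕ := ch (r + b - 1) b

def dot : List ℕ → List ℕ → ℕ
  | x :: xs, y :: ys => x * y + dot xs ys
  | _, _ => 0

def rv (r : ℕ) : ℕ → List ℕ
  | 0 => [1]
  | a + 1 => mc r (a + 1) :: rv r a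

def ex2 (p q : ℕ) : ℕ := min p q + 1

def sumTo (f : ℕ → ℕ) : ℕ → ℕ
  | 0 => 0
  | k + 1 => sumTo f k + f k

def ex3 (a p q : ℕ) : ℕ :=
  sumTo (fun x => sumTo (fun y => ex2 (p - x) (q - y)) (min (a - x) q + 1)) (min a p + 1)

def ex4 (a p q u : ℕ) : ℕ :=
  sumTo (fun x => sumTo (fun y => sumTo (fun z => ex3 (p - x) (q - y) (u - z))
    (min (a - x - y) u + 1)) (min (a - x) q + 1)) (min a p + 1)

def ex5 (a p q u v : ℕ) : ℕ :=
  sumTo (fun x => sumTo (fun y => sumTo (fun z => sumTo (fun w =>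
    ex4 (p - x) (q - y) (u - z) (v - w)) (min (a - x - y - z) v + 1))
    (min (a - x - y) u + 1)) (min (a - x) q + 1)) (min a p + 1)

def exT3 : List ℕ := (List.range 28).map fun T => ex3 (bl 3 T 2) (bl 3 T 1) (bl 3 T 0)
def exT4 : List ℕ := (List.range 31).map fun T => ex4 (bl 4 T 3) (bl 4 T 2) (bl 4 T 1) (bl 4 T 0)
def exT5 : List ℕ :=
  (List.range 25).map fun T => ex5 (bl 5 T 4) (bl 5 T 3) (bl 5 T 2) (bl 5 T 1) (bl 5 T 0)

def ovr (r : ℕ) (l : List ℕ) : List ℕ :=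
  if r = 3 then exT3 ++ l.drop 28 else if r = 4 then exT4 ++ l.drop 31
  else if r = 5 then exT5 ++ l.drop 25 else l

def stepU (r : ℕ) (prev : List ℕ) : List ℕ :=
  (List.range (19 * (r + 1) + 1)).map fun T =>
    frc (T / (r + 1)) fun a => dot (rv r a) (prev.drop (T - 2 * a))

def rowU : ℕ → List ℕ
  | 0 => [1]
  | 1 => List.replicate 22 1
  | r + 2 => ovr (r + 2) (stepU (r + 1) (rowU (r + 1)))

def gv (c : ℕ) : ℕ → List ℕ
  | 0 => [1]
  | b + 1 => c.descFactorial (b + 1) :: gv c b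

def cpl (c : ℕ) : ℕ → List ℕ
  | 0 => [1]
  | r + 1 => (List.range (c + 2)).map fun b => dot (gv c b) (cpl c r)

def pref (acc : ℕ) : List ℕ → List ℕ
  | [] => []
  | x :: xs => (acc + x) :: pref (acc + x) xs

def zmax : List ℕ → List ℕ → List ℕ
  | [], l => l
  | l, [] => l
  | x :: xs, y :: ys => max x y :: zmax xs ys

def rmax (acc : ℕ) : List ℕ → List ℕ
  | [] => []
  | x :: xs => max acc x :: rmax (max acc x) xs

def seg (r c : ℕ) (prev : List ℕ) : List ℕ :=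
  List.replicate (r * c) 0 ++ pref 0 ((List.range (min (c + 1) (r * c) + 1)).map fun b =>
    (prev.drop (r * c - min (c + 1) (r * c))).getD (min (c + 1) (r * c) - b) 0
      * (cpl c r).getD b 0 / Qw r c b)

def segs (r : ℕ) (prev : List ℕ) : ℕ → List ℕ
  | 0 => []
  | c + 1 => zmax (segs r prev c) (seg r c prev)

def rowL : ℕ → List ℕ
  | 0 => [1]
  | 1 => List.replicate 22 1
  | r + 2 => rmax 0 (ovr (r + 2) (segs (r + 1) (rowL (r + 1)) (min 18 (r + 4))))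

def Rr (m n : ℕ) : ℕ → ℕ
  | 0 => 1
  | q + 1 => Rr m n q * ch (m + (n - 2 - 2 * q)) m

def restU (n m : ℕ) : ℕ :=
  sumTo (fun s => ch n (s + 1) * numDerangements (s + 1) * Rr m n ((s + 1) / 2)
    * (rowU (n - (s + 1))).getD ((n - (s + 1)) * m) 0) n

def chkP (n m : ℕ) : Bool :=
  decide (m.factorial * ((rowU n).getD (n * m) 0 + restU n m)
    ≤ n.factorial * (rowL m).getD (n * m) 0)

def sumQ (f : ℕ → ℚ) : ℕ → ℚ
  | 0 => 0
  | k + 1 => sumQ f k + f k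

def lamK (r c b : ℕ) : ℚ := mc r b * (1 - (b * (b - 1) : ℕ) / ((r + 1) * c))

def etaK (n m b : ℕ) : ℚ := lamK m n b / (th (n - 1) m ^ ((b + 1) / 2) * (m + 1))

def chkR (n m : ℕ) : Bool :=
  (List.range (n + 1)).all fun s => decide (rho n m s ≤ etaK n m (2 * (n / 2)))

def etaN (n b : ℕ) : ℕ :=
  mc n b * ((n + 1) * n - b * (b - 1)) * (n - 1) ^ ((b + 1) / 2)
    / ((n + 1) * n * (2 * (n + 1)) ^ ((b + 1) / 2) * (n + 1))

def DlN (r : ℕ) : ℕ :=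
  sumTo (fun b => mc r b * ((r + 1) * (r + 1) - b * (b - 1))) (r + 1) / ((r + 1) * (r + 1))

def DpN (n : ℕ) : ℕ → ℕ
  | 0 => 1
  | j + 1 => DpN n j * frc (n - 1 - j) DlN

def TpN (f : ℕ) : ℕ → ℕ
  | 0 => 1
  | j + 1 => TpN f j * ((f + 1) * (f + j + f - 1))

def TpD (f : ℕ) : ℕ → ℕ
  | 0 => 1
  | j + 1 => TpD f j * ((f + j) * (f - 1))

def EEN (n s : ℕ) : ℕ :=
  frc (n - s) fun f => ch n s * numDerangements s * Rr (n + 1) n (s / 2)
      * (if f ≤ 1 then 1 else TpN f (s + 1) ^ ((f + 1) / 2))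
    / ((if f ≤ 1 then 1 else TpD f (s + 1) ^ ((f + 1) / 2)) * DpN n s) + 1

def chkM (n : ℕ) : Bool :=
  decide (2 ^ ((n + 1) / 2 + 3) ≤ etaN n (2 * (n / 2))) &&
    decide (sumTo (EEN n) (n + 1) ≤ etaN n (2 * (n / 2)))

def H1 (n : ℕ) : ℚ :=
  sumQ (fun b => lamK n n b
    / (th n n ^ ((n + 1) / 2) * th (n - 1) n ^ ((n + b + 1) / 2 - (n + 1) / 2))) (n + 1)

def chkD (n : ℕ) : Bool :=
  decide (((n + 1 : ℕ) : ℚ) ≤ H1 n) &&
    decide ((((n + 1) * restU n (n + 1) : ℕ) : ℚ) * H1 n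
      ≤ (H1 n - (n + 1 : ℕ)) * ((rowL (n + 1)).getD (n * (n + 1)) 0 : ℕ))

end Pool.Agent.Lib.MP_a5d4dd_co
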