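import Pool.Agent.Lib.MP_a5d4dd_co.NumDef

namespace Pool.Agent.Lib.MP_a5d4dd_co

open Finset

lemma ch_eq (n k : ℕ) : ch n k = n.choose k := by
  unfold ch
  split_ifs with h
  · rw [Nat.choose_eq_factorial_div_factorial h]
  · rw [Nat.choose_eq_zero_of_lt (by omega)]

lemma mc_eq (r b : ℕ) : mc r b = r.multichoose b := by rw [mc, ch_eq, Nat.multichoose_eq]

lemma frc_eq (x : ℕ) (k : ℕ → ℕ) : frc x k = k x := by cases x <;> rfl

lemma sumTo_eq (f : ℕ → ℕ) (k : ℕ) : sumTo f k = ∑ i ∈ range k, f i := by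
  induction k with
  | zero => rfl
  | succ k ih => rw [sumTo, ih, sum_range_succ]

lemma sumQ_eq (f : ℕ → ℚ) (k : ℕ) : sumQ f k = ∑ i ∈ range k, f i := by
  induction k with
  | zero => rfl
  | succ k ih => rw [sumQ, ih, sum_range_succ]

lemma Rr_eq (m n q : ℕ) : Rr m n q = Rp m n q := by
  induction q with
  | zero => rfl
  | succ q ih => rw [Rr, ih, ch_eq, Rp, Rp, prod_range_succ]

lemma lamK_eq (r c b : ℕ) : lamK r c b = lam r c b := by rw [lamK, mc_eq, lam]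

lemma etaK_eq (n m b : ℕ) : etaK n m b = eta n m b := by rw [etaK, lamK_eq, eta]

def LE {r : ℕ} (a : ℕ) (G : (Fin r → ℕ) → ℕ) : ℕ :=
  ∑ b ∈ range (a + 1), ∑ y ∈ piAntidiag univ b, G y

lemma LE_zero (a : ℕ) (G : (Fin 0 → ℕ) → ℕ) : LE a G = G 0 := by
  unfold LE
  simp only [univ_eq_empty, piAntidiag_empty]
  rw [sum_eq_single 0] <;> simp +contextual

lemma LE_succ {r : ℕ} (a : ℕ) (G : (Fin (r + 1) → ℕ) → ℕ) :
    LE a G = ∑ x ∈ range (a + 1), LE (a - x) fun y => G (Fin.cons x y) := by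
  unfold LE
  simp only [sum_pA_succ]
  have := sum_range_diag_flip (a + 1)
    fun x b => ∑ y ∈ piAntidiag (univ : Finset (Fin r)) b, G (Fin.cons x y)
  refine Eq.trans (sum_congr rfl fun b _ => ?_) (this.trans (sum_congr rfl fun x hx => ?_))
  · rw [← sum_range_reflect]
    refine sum_congr rfl fun x hx => ?_
    have := mem_range.1 hx
    rw [show b + 1 - 1 - x = b - x by omega, show b - (b - x) = x by omega]
  · have := mem_range.1 hx
    rw [show a + 1 - x = a - x + 1 by omega]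

lemma N_LE {r : ℕ} (a : ℕ) (ν : Fin r → ℤ) :
    N (Matrix.vecCons (a : ℤ) ν) = LE a fun y => N (fun i => ν i - (y i : ℕ)) := N_cons a ν

lemma sum_trunc (F G : ℕ → ℕ) (a p : ℕ) (h1 : ∀ x, p < x → F x = 0) (h2 : ∀ x ≤ p, F x = G x) :
    ∑ x ∈ range (a + 1), F x = sumTo G (min a p + 1) := by
  rw [sumTo_eq, ← sum_subset (range_subset_range.2 (show min a p + 1 ≤ a + 1 by omega))]
  · exact sum_congr rfl fun x hx => h2 x (by have := mem_range.1 hx; omega)
  · intro x hx hx'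
    rw [mem_range] at hx hx'
    exact h1 x (by omega)

lemma ex2_eq (p q : ℕ) : N ![(p : ℤ), q] = ex2 p q := by
  rw [ex2, ← N_fin2]
  congr 1
  funext i
  fin_cases i <;> rfl

lemma ex3_eq (a p q : ℕ) : N ![(a : ℤ), p, q] = ex3 a p q := by
  rw [N_LE]
  simp only [LE_succ, LE_zero]
  refine sum_trunc _ _ _ _ (fun x hx => sum_eq_zero fun y _ => N_neg (i := 0) (by simp; omega))
    fun x hx => ?_
  refine sum_trunc _ _ _ _ (fun y hy => N_neg (i := 1) (by simp; omega)) fun y hy => ?_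
  rw [← ex2_eq, Nat.cast_sub hx, Nat.cast_sub hy]
  congr 1
  funext i
  fin_cases i <;> rfl

lemma ex4_eq (a p q u : ℕ) : N ![(a : ℤ), p, q, u] = ex4 a p q u := by
  rw [N_LE]
  simp only [LE_succ, LE_zero]
  refine sum_trunc _ _ _ _ (fun x hx => sum_eq_zero fun y _ => sum_eq_zero fun z _ =>
    N_neg (i := 0) (sub_neg.2 (Nat.cast_lt.2 hx))) fun x hx => ?_
  refine sum_trunc _ _ _ _ (fun y hy => sum_eq_zero fun z _ =>
    N_neg (i := 1) (sub_neg.2 (Nat.cast_lt.2 hy))) fun y hy => ?_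
  refine sum_trunc _ _ _ _ (fun z hz => N_neg (i := 2) (sub_neg.2 (Nat.cast_lt.2 hz)))
    fun z hz => ?_
  rw [← ex3_eq, Nat.cast_sub hx, Nat.cast_sub hy, Nat.cast_sub hz]
  congr 1
  funext i
  fin_cases i <;> rfl

lemma ex5_eq (a p q u v : ℕ) : N ![(a : ℤ), p, q, u, v] = ex5 a p q u v := by
  rw [N_LE]
  simp only [LE_succ, LE_zero]
  refine sum_trunc _ _ _ _ (fun x hx => sum_eq_zero fun y _ => sum_eq_zero fun z _ =>
    sum_eq_zero fun w _ => N_neg (i := 0) (sub_neg.2 (Nat.cast_lt.2 hx))) fun x hx => ?_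
  refine sum_trunc _ _ _ _ (fun y hy => sum_eq_zero fun z _ => sum_eq_zero fun w _ =>
    N_neg (i := 1) (sub_neg.2 (Nat.cast_lt.2 hy))) fun y hy => ?_
  refine sum_trunc _ _ _ _ (fun z hz => sum_eq_zero fun w _ =>
    N_neg (i := 2) (sub_neg.2 (Nat.cast_lt.2 hz))) fun z hz => ?_
  refine sum_trunc _ _ _ _ (fun w hw => N_neg (i := 3) (sub_neg.2 (Nat.cast_lt.2 hw)))
    fun w hw => ?_
  rw [← ex4_eq, Nat.cast_sub hx, Nat.cast_sub hy, Nat.cast_sub hz, Nat.cast_sub hw]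
  congr 1
  funext i
  fin_cases i <;> rfl

lemma U_rev (r T : ℕ) : U r T = N fun i : Fin r => bal r T i.rev :=
  N_ext Fin.rev Fin.rev_injective _ fun i hi => absurd ⟨i.rev, Fin.rev_rev i⟩ hi

lemma U3_eq (T : ℕ) : U 3 T = ex3 (bl 3 T 2) (bl 3 T 1) (bl 3 T 0) := by
  rw [U_rev, ← ex3_eq]
  congr 1
  funext i
  fin_cases i <;> rfl

lemma U4_eq (T : ℕ) : U 4 T = ex4 (bl 4 T 3) (bl 4 T 2) (bl 4 T 1) (bl 4 T 0) := by
  rw [U_rev, ← ex4_eq]
  congr 1
  funext i
  fin_cases i <;> rfl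

lemma U5_eq (T : ℕ) : U 5 T = ex5 (bl 5 T 4) (bl 5 T 3) (bl 5 T 2) (bl 5 T 1) (bl 5 T 0) := by
  rw [U_rev, ← ex5_eq]
  congr 1
  funext i
  fin_cases i <;> rfl

lemma getD_map_range (f : ℕ → ℕ) (k i : ℕ) :
    ((List.range k).map f).getD i 0 = if i < k then f i else 0 := by
  split_ifs with h
  · simp [List.getD_eq_getElem?_getD, List.getElem?_range h]
  · simp [List.getD_eq_getElem?_getD, not_lt.1 h]

lemma getD_drop (l : List ℕ) (k i : ℕ) : (l.drop k).getD i 0 = l.getD (k + i) 0 := by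
  simp [List.getD_eq_getElem?_getD]

lemma getD_app (f : ℕ → ℕ) (k : ℕ) (l : List ℕ) (i : ℕ) :
    ((List.range k).map f ++ l.drop k).getD i 0 = if i < k then f i else l.getD i 0 := by
  split_ifs with h
  · rw [List.getD_append _ _ _ _ (by simpa using h), getD_map_range, if_pos h]
  · rw [List.getD_append_right _ _ _ _ (by simpa using h), getD_drop]
    congr 1
    simp only [List.length_map, List.length_range]
    omega

lemma ovr_getD (r : ℕ) (l : List ℕ) (T : ℕ) :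
    (ovr r l).getD T 0 = U r T ∨ (ovr r l).getD T 0 = l.getD T 0 := by
  unfold ovr
  split_ifs with h1 h2 h3
  · rw [exT3, getD_app, h1, U3_eq]
    split_ifs <;> simp
  · rw [exT4, getD_app, h2, U4_eq]
    split_ifs <;> simp
  · rw [exT5, getD_app, h3, U5_eq]
    split_ifs <;> simp
  · exact Or.inr rfl

end Pool.Agent.Lib.MP_a5d4dd_co
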