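import Pool.Agent.Lib.MP_a5d4dd_co.NumEx

namespace Pool.Agent.Lib.MP_a5d4dd_co

open Finset

lemma dot_eq (g : ℕ → ℕ) (L : ℕ → List ℕ) (h0 : L 0 = [g 0])
    (h1 : ∀ a, L (a + 1) = g (a + 1) :: L a) (a : ℕ) (l : List ℕ) :
    dot (L a) l = ∑ b ∈ range (a + 1), g b * l.getD (a - b) 0 := by
  induction a generalizing l with
  | zero =>
    rw [h0]
    cases l <;> simp [dot]
  | succ a ih =>
    rw [h1]
    cases l with
    | nil => simp [dot]
    | cons y ys =>
      rw [dot, ih, sum_range_succ _ (a + 1), add_comm]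
      congr 1
      · refine sum_congr rfl fun b hb => ?_
        have := mem_range.1 hb
        rw [show a + 1 - b = a - b + 1 by omega, List.getD_cons_succ]
      · simp

lemma rowU_ge (r T : ℕ) (h : T ≤ 19 * r) : U r T ≤ (rowU r).getD T 0 := by
  induction r using Nat.strong_induction_on generalizing T with
  | _ r ih =>
    match r, ih, h with
    | 0, _, h =>
      obtain rfl : T = 0 := by omega
      simp [rowU, U_zero]
    | 1, _, h =>
      rw [U_one, rowU, List.getD_eq_getElem?_getD, List.getElem?_replicate, if_pos (by omega)]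
      simp
    | r + 2, ih, h =>
      rw [rowU]
      rcases ovr_getD (r + 2) (stepU (r + 1) (rowU (r + 1))) T with e | e
      · rw [e]
      rw [e, stepU, getD_map_range, if_pos (by omega), frc_eq,
        dot_eq (mc (r + 1)) (rv (r + 1)) (by simp [rv, mc_eq]) (fun _ => rfl)]
      refine (U_succ_le (by omega) T).trans (sum_le_sum fun b hb => ?_)
      have hb' := mem_range.1 hb
      have h1 := Nat.div_add_mod T (r + 1 + 1)
      have h2 := Nat.mod_lt T (show 0 < r + 1 + 1 by omega)
      generalize T / (r + 1 + 1) = a at *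
      generalize T % (r + 1 + 1) = ρ at *
      have h3 : (r + 1 + 1) * a = r * a + 2 * a := by ring
      rw [mc_eq, getD_drop, show T - 2 * a + (a - b) = T - a - b by omega]
      refine Nat.mul_le_mul_left _ (ih _ (by omega) _ ?_)
      by_cases h4 : 19 ≤ a
      · omega
      · have : r * a ≤ r * 18 := Nat.mul_le_mul_left _ (by omega)
        omega

lemma cpl_le (c r b : ℕ) : (cpl c r).getD b 0 ≤ cp c.descFactorial r b := by
  induction r generalizing b with
  | zero => cases b <;> simp [cpl, cp]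
  | succ r ih =>
    rw [cpl, getD_map_range]
    split_ifs
    · rw [dot_eq c.descFactorial (gv c) (by simp [gv]) (fun _ => rfl), cp, ← sum_range_reflect]
      refine sum_le_sum fun t ht => ?_
      have := mem_range.1 ht
      rw [show b + 1 - 1 - t = b - t by omega, show b - (b - t) = t by omega]
      exact Nat.mul_le_mul_left _ (ih t)
    · exact Nat.zero_le _

lemma pref_le (l : List ℕ) (acc a : ℕ) :
    (pref acc l).getD a 0 ≤ acc + ∑ b ∈ range (a + 1), l.getD b 0 := by
  induction l generalizing acc a with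
  | nil => simp [pref]
  | cons x xs ih =>
    rw [pref, sum_range_succ']
    cases a with
    | zero => simp
    | succ a =>
      simp only [List.getD_cons_succ, List.getD_cons_zero]
      have := ih (acc + x) a
      omega

lemma zmax_le (f : ℕ → ℕ) (l1 l2 : List ℕ) (h1 : ∀ i, l1.getD i 0 ≤ f i)
    (h2 : ∀ i, l2.getD i 0 ≤ f i) (i : ℕ) : (zmax l1 l2).getD i 0 ≤ f i := by
  induction l1 generalizing l2 f i with
  | nil => rw [zmax]; exact h2 i
  | cons x xs ih =>
    cases l2 with
    | nil => simpa [zmax] using h1 i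
    | cons y ys =>
      rw [zmax]
      cases i with
      | zero => exact max_le (h1 0) (h2 0)
      | succ i => exact ih (fun i => f (i + 1)) ys (fun i => h1 (i + 1)) (fun i => h2 (i + 1)) i

lemma rmax_le (f : ℕ → ℕ) (hf : Monotone f) (l : List ℕ) (acc : ℕ) (ha : acc ≤ f 0)
    (h : ∀ i, l.getD i 0 ≤ f i) (i : ℕ) : (rmax acc l).getD i 0 ≤ f i := by
  induction l generalizing acc f i with
  | nil => simp [rmax]
  | cons x xs ih =>
    rw [rmax]
    have h0 : max acc x ≤ f 0 := max_le ha (h 0)
    cases i with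
    | zero => exact h0
    | succ i =>
      exact ih (fun i => f (i + 1)) (fun a b hab => hf (by omega)) _
        (h0.trans (hf (by omega))) (fun i => h (i + 1)) i

lemma seg_le {r : ℕ} (hr : 0 < r) (c : ℕ) (prev : List ℕ) (h : ∀ T, prev.getD T 0 ≤ U r T)
    (T : ℕ) : (seg r c prev).getD T 0 ≤ U (r + 1) T := by
  unfold seg
  by_cases hT : T < r * c
  · rw [List.getD_append _ _ _ _ (by simpa using hT), List.getD_eq_getElem _ _ (by simpa using hT)]
    simp
  rw [List.getD_append_right _ _ _ _ (by simpa using hT), List.length_replicate]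
  refine (pref_le _ _ _).trans ?_
  have := sum_SN_le r c (T - r * c)
  rw [show r * c + (T - r * c) = T by omega] at this
  rw [zero_add]
  refine le_trans (sum_le_sum fun b _ => ?_) this
  rw [getD_map_range]
  split_ifs with hb
  · refine Nat.div_le_of_le_mul ?_
    rw [mul_comm (Qw r c b), getD_drop,
      show r * c - min (c + 1) (r * c) + (min (c + 1) (r * c) - b) = r * c - b by omega]
    exact (Nat.mul_le_mul (h _) (cpl_le c r b)).trans (SN_ex hr (by omega))
  · exact Nat.zero_le _

lemma segs_le {r : ℕ} (hr : 0 < r) (prev : List ℕ) (h : ∀ T, prev.getD T 0 ≤ U r T) (c T : ℕ) :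
    (segs r prev c).getD T 0 ≤ U (r + 1) T := by
  induction c generalizing T with
  | zero => simp [segs]
  | succ c ih => exact zmax_le _ _ _ ih (seg_le hr c prev h) T

lemma rowL_le (r T : ℕ) : (rowL r).getD T 0 ≤ U r T := by
  induction r using Nat.strong_induction_on generalizing T with
  | _ r ih =>
    match r, ih with
    | 0, _ => cases T <;> simp [rowL, U_zero]
    | 1, _ =>
      rw [U_one, rowL, List.getD_eq_getElem?_getD, List.getElem?_replicate]
      split_ifs <;> simp
    | r + 2, ih =>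
      rw [rowL]
      refine rmax_le _ (fun a b hab => U_mono _ hab) _ _ (Nat.zero_le _) (fun T => ?_) T
      rcases ovr_getD (r + 2) (segs (r + 1) (rowL (r + 1)) (min 18 (r + 4))) T with e | e
      · rw [e]
      · rw [e]
        exact segs_le (by omega) _ (ih _ (by omega)) _ T

lemma XB_le_rest {n m : ℕ} (hm : m ≤ 19) : XB n m ≤ U n (n * m) + restU n m := by
  rw [XB, sum_range_succ', add_comm, restU, sumTo_eq]
  refine Nat.add_le_add (by simp [XT, Rp]) (sum_le_sum fun s _ => ?_)
  rw [XT, ch_eq, Rr_eq]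
  exact Nat.mul_le_mul_left _ (rowU_ge _ _ (by rw [mul_comm]; exact Nat.mul_le_mul_right _ hm))

lemma of_chkP {n m : ℕ} (hm : m ≤ 19) (h : chkP n m = true) :
    m.factorial * XB n m ≤ n.factorial * U m (n * m) := by
  have h1 := of_decide_eq_true h
  have h2 := rowU_ge n (n * m) (by rw [mul_comm]; exact Nat.mul_le_mul_right _ hm)
  exact (Nat.mul_le_mul_left _ ((XB_le_rest hm).trans (Nat.add_le_add_right h2 _))).trans
    (h1.trans (Nat.mul_le_mul_left _ (rowL_le _ _)))

lemma H1_le {n : ℕ} (hn : 2 ≤ n) : H1 n * U n (n * (n + 1)) ≤ U (n + 1) (n * (n + 1)) := by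
  have h1 := sum_lam_le (r := n) (c := n) (a := n) (by omega) n le_rfl le_rfl
  rw [show n * (n + 1) = n * n + n by ring]
  refine le_trans ?_ h1
  rw [H1, sumQ_eq, sum_mul]
  refine sum_le_sum fun b hb => ?_
  have hb' := mem_range.1 hb
  have h0 : (n - 1) * n + n = n * n := by
    obtain ⟨k, rfl⟩ : ∃ k, n = k + 1 := ⟨n - 1, by omega⟩
    simp only [Nat.add_sub_cancel]; ring
  have h2 := U_theta_le (a := n) (r := n) (T := n * n + n) (T' := n * n + n - 2 * ((n + 1) / 2))
    (k := (n + 1) / 2) (by omega) hn (by omega) (by omega)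
  have h3 := U_theta_le (a := n - 1) (r := n) (T := n * n + n - 2 * ((n + 1) / 2))
    (T' := n * n - b) (k := (n + b + 1) / 2 - (n + 1) / 2) (by omega) hn (by omega) (by omega)
  have p1 := pow_pos (th_pos (a := n) (by omega) hn) ((n + 1) / 2)
  have p2 := pow_pos (th_pos (a := n - 1) (by omega) hn) ((n + b + 1) / 2 - (n + 1) / 2)
  have h4 := h2.trans (mul_le_mul_of_nonneg_left h3 p1.le)
  rw [lamK_eq, div_mul_eq_mul_div, div_le_iff₀ (mul_pos p1 p2), mul_assoc]
  refine mul_le_mul_of_nonneg_left ?_ (lam_nonneg (by omega) (by omega))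
  linarith

lemma of_chkD {n : ℕ} (hn : 2 ≤ n) (hm : n + 1 ≤ 19) (h : chkD n = true) :
    (n + 1).factorial * XB n (n + 1) ≤ n.factorial * U (n + 1) (n * (n + 1)) := by
  rw [chkD, Bool.and_eq_true, decide_eq_true_eq, decide_eq_true_eq] at h
  obtain ⟨h1, h2⟩ := h
  have h3 := H1_le hn
  have h4 : (XB n (n + 1) : ℚ) ≤ U n (n * (n + 1)) + restU n (n + 1) := by
    exact_mod_cast XB_le_rest hm
  have h5 : (((rowL (n + 1)).getD (n * (n + 1)) 0 : ℕ) : ℚ) ≤ U (n + 1) (n * (n + 1)) := by
    exact_mod_cast rowL_le _ _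
  have h6 := h2.trans (mul_le_mul_of_nonneg_left h5 (sub_nonneg.2 h1))
  push_cast at h1 h6
  have h7 : (0 : ℚ) < H1 n := lt_of_lt_of_le (by positivity) h1
  have h8 : ((n : ℚ) + 1) * XB n (n + 1) ≤ U (n + 1) (n * (n + 1)) := by
    refine le_of_mul_le_mul_left ?_ h7
    have a1 := mul_le_mul_of_nonneg_left h3 (show (0 : ℚ) ≤ n + 1 by positivity)
    have a2 := mul_le_mul_of_nonneg_left h4 (show (0 : ℚ) ≤ H1 n * (n + 1) by positivity)
    linarith
  have h9 : (n + 1) * XB n (n + 1) ≤ U (n + 1) (n * (n + 1)) := by exact_mod_cast h8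
  rw [Nat.factorial_succ, mul_comm (n + 1), mul_assoc]
  exact Nat.mul_le_mul_left _ h9

lemma of_chkR {n m : ℕ} (h : chkR n m = true) : ∀ s ≤ n, rho n m s ≤ eta n m (2 * (n / 2)) := by
  intro s hs
  rw [chkR, List.all_eq_true] at h
  rw [← etaK_eq]
  exact of_decide_eq_true (h s (List.mem_range.2 (by omega)))

end Pool.Agent.Lib.MP_a5d4dd_co
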