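import Pool.Agent.Lib.MP_a5d4dd_co.Large
import Pool.Agent.Lib.MP_a5d4dd_co.Chk1
import Pool.Agent.Lib.MP_a5d4dd_co.Chk2
import Pool.Agent.Lib.MP_a5d4dd_co.Chk3

namespace Pool.Agent.Lib.MP_a5d4dd_co

open Finset Equiv

lemma U_pos (r T : ℕ) : 0 < U r T := by
  refine lt_of_lt_of_le ?_ (N_mono (μ := fun _ => 0) fun i => by simp [bal])
  exact card_pos.2 ⟨fun _ _ => 0, mem_Sy.2 ⟨fun _ _ => rfl, fun _ => by simp⟩⟩

lemma tnum_pos (n m : ℕ) : 0 < tnum n m := by
  have := (U_pos n (n * m)).trans_le (U_le_XX n m)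
  rw [← burnside] at this
  exact Nat.pos_of_mul_pos_left this

lemma U_two_le (m : ℕ) : U 2 (2 * m) ≤ m + 1 := by
  refine (U_succ_le (r := 1) (by omega) _).trans (le_of_eq ?_)
  simp [U_one]

lemma case_one (m : ℕ) : tnum 1 m ≤ tnum m 1 := by
  have h := XX_le 1 m
  rw [← burnside] at h
  simp [XB, XT, sum_range_succ, Rp, U_one] at h
  exact h.trans (tnum_pos m 1)

def sg (m j : ℕ) (h : 2 * j ≤ m) (p : Fin m) : Fin m :=
  if hp : (p : ℕ) < 2 * j then ⟨2 * j - 1 - p, by omega⟩ else p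

lemma sg_symm {m j : ℕ} (h : 2 * j ≤ m) (p q : Fin m) : q = sg m j h p ↔ p = sg m j h q := by
  have := p.2
  have := q.2
  simp only [sg, Fin.ext_iff]
  split_ifs <;> (try simp only) <;> omega

def Aj (m j : ℕ) (h : 2 * j ≤ m) : Matrix (Fin m) (Fin m) ℕ :=
  fun p q => (if q = p then 1 else 0) + if q = sg m j h p then 1 else 0

lemma Aj_symm {m j : ℕ} (h : 2 * j ≤ m) (p q : Fin m) : Aj m j h p q = Aj m j h q p := by
  simp only [Aj, sg_symm h p q, eq_comm (a := q) (b := p)]

lemma Aj_mem {m j : ℕ} (h : 2 * j ≤ m) : Aj m j h ∈ SelfTr m 2 := by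
  have h1 : ∀ p, ∑ q, Aj m j h p q = 2 := fun p => by simp [Aj, sum_add_distrib]
  refine ⟨⟨h1, fun q => ?_⟩, 1, 1, ?_⟩
  · rw [← h1 q]
    exact sum_congr rfl fun p _ => Aj_symm h p q
  · ext p q
    exact Aj_symm h q p

lemma Aj_inv {m j : ℕ} (h : 2 * j ≤ m) :
    ∑ p, ∑ q, Aj m j h p q * Aj m j h p q + 4 * j = 4 * m := by
  have h1 : ∀ p, ∑ q, Aj m j h p q * Aj m j h p q + 2 * (if (p : ℕ) < 2 * j then 1 else 0) = 4 := by
    intro p
    have e : ∀ q, Aj m j h p q * Aj m j h p q = (if q = p then 1 else 0)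
        + (if q = sg m j h p then 1 else 0)
        + if q = p then (if p = sg m j h p then 2 else 0) else 0 := by
      intro q
      unfold Aj
      by_cases a : q = p
      · subst a
        simp only [if_true]
        split_ifs <;> rfl
      · simp only [if_neg a]
        split_ifs <;> rfl
    simp only [e, sum_add_distrib, sum_ite_eq', mem_univ, if_true]
    have : p = sg m j h p ↔ ¬(p : ℕ) < 2 * j := by
      unfold sg
      split_ifs with a
      · simp only [Fin.ext_iff]; omega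
      · simp [a]
    simp only [this]
    split_ifs <;> rfl
  have h2 := sum_congr (rfl : (univ : Finset (Fin m)) = univ) fun p _ => h1 p
  rw [sum_add_distrib, ← mul_sum, ← card_filter, Fin.card_filter_val_lt, min_eq_right h] at h2
  simp only [sum_const, card_univ, Fintype.card_fin, smul_eq_mul] at h2
  omega

lemma case_two (m : ℕ) : tnum 2 m ≤ tnum m 2 := by
  have h := XX_le 2 m
  rw [← burnside] at h
  have h1 := U_two_le m
  simp [XB, XT, sum_range_succ, Rp, U_zero, numDerangements] at h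
  have : Finite (Quot fun A B : SelfTr m 2 => PermEquiv A.1 B.1) :=
    Nat.finite_of_card_ne_zero (tnum_pos m 2).ne'
  let inv : (Quot fun A B : SelfTr m 2 => PermEquiv A.1 B.1) → ℕ :=
    Quot.lift (fun A => ∑ p, ∑ q, A.1 p q * A.1 p q) (by
      rintro A B ⟨σ, τ, e⟩
      simp only [e, Matrix.submatrix_apply]
      rw [← Equiv.sum_comp σ]
      exact sum_congr rfl fun p _ => (Equiv.sum_comp τ fun q => A.1 (σ p) q * A.1 (σ p) q).symm)
  have h2 := Nat.card_le_card_of_injective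
    (fun j : Fin (m / 2 + 1) => (Quot.mk _ ⟨Aj m j (by omega), Aj_mem _⟩ :
      Quot fun A B : SelfTr m 2 => PermEquiv A.1 B.1)) (by
      intro j j' e
      have a1 := congrArg inv e
      have a2 := Aj_inv (m := m) (j := j) (by omega)
      have a3 := Aj_inv (m := m) (j := j') (by omega)
      simp only [inv] at a1
      exact Fin.ext (by omega))
  rw [Nat.card_eq_fintype_card, Fintype.card_fin] at h2
  refine le_trans (by omega) h2

lemma XX_le_tuple (n m : ℕ) : XX n m ≤ ∑ π : Perm (Fin n),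
    #(filter (fun B : Fin n → Fin n → ℕ => ∀ i j, B i j = B j (π i))
      (Fintype.piFinset fun _ => Finset.Nat.antidiagonalTuple n m)) := by
  refine sum_le_sum fun π _ => card_le_card fun B hB => ?_
  obtain ⟨a1, a2⟩ := mem_Fs.1 hB
  refine mem_filter.2 ⟨Fintype.mem_piFinset.2 fun i => ?_, a1⟩
  rw [Finset.Nat.mem_antidiagonalTuple]
  exact_mod_cast a2 i

lemma case_34 : tnum 3 4 ≤ tnum 4 3 := by
  have h1 : XX 3 4 ≤ 54 := (XX_le_tuple 3 4).trans chk_34.le
  have h2 := U_le_XX 4 3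
  rw [U4_eq, chk_43, ← burnside] at h2
  rw [← burnside] at h1
  norm_num [Nat.factorial] at h1 h2
  omega

lemma XB_three (m : ℕ) : XB 3 m ≤ (m + 2) ^ 3 := by
  have h1 : U 3 (3 * m) ≤ (m + 1) * ((m + 1) * (m + 1)) := by
    refine (U_succ_le (r := 2) (by omega) _).trans ?_
    rw [show 3 * m / (2 + 1) = m by omega]
    refine (sum_le_card_nsmul _ _ ((m + 1) * (m + 1)) fun b hb => ?_).trans (by simp)
    have := mem_range.1 hb
    rw [Nat.multichoose_two]
    exact Nat.mul_le_mul (by omega) ((U_mono 2 (by omega)).trans (U_two_le m))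
  simp [XB, XT, sum_range_succ, Rp, U_zero, U_one, numDerangements]
  nlinarith

lemma three_step {m : ℕ} (hm : 20 ≤ m) (h : m.factorial * (m + 2) ^ 3 ≤ 6 * U m (3 * m)) :
    (m + 2).factorial * (m + 2 + 2) ^ 3 ≤ 6 * U (m + 2) (3 * (m + 2)) := by
  have hm' : (20 : ℚ) ≤ m := by exact_mod_cast hm
  have a1 := lam_le (r := m) (c := 3) (a := 4) (b := 4) (by omega) (by omega) le_rfl
  have a2 := U_theta_le (a := 2) (r := m) (T := 3 * m) (T' := m * 3 - 4) (k := 2) (by omega)
    (by omega) (by omega) (by omega)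
  have a3 := lam_le (r := m + 1) (c := 3) (a := 3) (b := 3) (by omega) (by omega) le_rfl
  have a4 := U_theta (a := 3) (r := m + 1) (T := 3 * m + 2) (by omega) (by omega) (by omega)
  have a5 := U_theta (a := 2) (r := m + 1) (T := 3 * m) (by omega) (by omega) (by omega)
  rw [show (m + 1) * 3 - 3 = 3 * m by omega, show (m + 1) * 3 + 3 = 3 * (m + 2) by ring] at a3
  rw [show m * 3 + 4 = 3 * m + 2 + 2 by ring] at a1
  have c1 : lam m 3 4 = (m + 3) * (m + 2) * m * (m - 3) / 24 := by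
    have := Nat.descFactorial_eq_factorial_mul_choose (m + 3) 4
    have e : (m + 3).descFactorial 4 = m * ((m + 1) * ((m + 2) * (m + 3))) := by
      simp [Nat.descFactorial_succ]
    rw [e] at this
    have e2 : (m : ℚ) * ((m + 1) * ((m + 2) * (m + 3))) = 24 * (m + 3).choose 4 := by
      exact_mod_cast this
    rw [lam, Nat.multichoose_eq, show m + 4 - 1 = m + 3 by omega,
      show (((m + 3).choose 4 : ℕ) : ℚ) = m * ((m + 1) * ((m + 2) * (m + 3))) / 24 by linarith]
    field_simp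
    push_cast
    ring
  have c2 : lam (m + 1) 3 3 = (m + 3) * (m + 1) * m / 6 := by
    have := Nat.descFactorial_eq_factorial_mul_choose (m + 3) 3
    have e : (m + 3).descFactorial 3 = (m + 1) * ((m + 2) * (m + 3)) := by
      simp [Nat.descFactorial_succ]
    rw [e] at this
    have e2 : ((m : ℚ) + 1) * ((m + 2) * (m + 3)) = 6 * (m + 3).choose 3 := by
      exact_mod_cast this
    rw [lam, Nat.multichoose_eq, show m + 1 + 3 - 1 = m + 3 by omega,
      show (((m + 3).choose 3 : ℕ) : ℚ) = (m + 1) * ((m + 2) * (m + 3)) / 6 by linarith]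
    push_cast
    field_simp
    ring
  have p0 : (0 : ℚ) < m - 1 := by linarith
  have p1 : (0 : ℚ) < m := by linarith
  have p3 : (0 : ℚ) < m - 3 := by linarith
  have c3 : th 2 m ^ 2 = (m + 1) ^ 4 / (4 * (m - 1) ^ 2) := by
    unfold th
    push_cast
    field_simp
    ring
  have c4 : th 3 (m + 1) = (m + 2) * (m + 3) / (3 * m) := by
    unfold th
    push_cast
    congr 1 <;> ring
  have c5 : th 2 (m + 1) = (m + 2) ^ 2 / (2 * m) := by
    unfold th
    push_cast
    congr 1 <;> ring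
  rw [c1, div_mul_eq_mul_div, div_le_iff₀ (by norm_num)] at a1
  rw [c2, div_mul_eq_mul_div, div_le_iff₀ (by norm_num)] at a3
  rw [c3, div_mul_eq_mul_div, le_div_iff₀ (by positivity)] at a2
  rw [c4, div_mul_eq_mul_div, le_div_iff₀ (by positivity)] at a4
  rw [c5, div_mul_eq_mul_div, le_div_iff₀ (by positivity)] at a5
  have h' : (m.factorial : ℚ) * (m + 2) ^ 3 ≤ 6 * U m (3 * m) := by exact_mod_cast h
  have key : 6 * ((m : ℚ) + 1) ^ 4 * (m + 4) ^ 3 ≤ (m + 3) * m ^ 4 * (m - 3) * (m - 1) ^ 2 := by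
    obtain ⟨k, hk, e⟩ : ∃ k : ℚ, 0 ≤ k ∧ (m : ℚ) = 20 + k := ⟨m - 20, by linarith, by ring⟩
    rw [e, ← sub_nonneg]
    ring_nf
    positivity
  have goal : (((m + 2).factorial : ℕ) : ℚ) * (m + 2 + 2) ^ 3 ≤ 6 * U (m + 2) (3 * (m + 2)) := by
    rw [Nat.factorial_succ, Nat.factorial_succ]
    push_cast
    have hF : (0 : ℚ) ≤ m.factorial := by positivity
    generalize (m.factorial : ℚ) = F at *
    generalize (U (m + 2) (3 * (m + 2)) : ℚ) = V5 at *
    generalize (U (m + 1) (3 * m) : ℚ) = V4 at *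
    generalize (U (m + 1) (3 * m + 2) : ℚ) = V3 at *
    generalize (U (m + 1) (3 * m + 2 + 2) : ℚ) = V2 at *
    generalize (U m (m * 3 - 4) : ℚ) = V1 at *
    generalize (U m (3 * m) : ℚ) = V0 at *
    generalize (m : ℚ) = x at *
    refine le_of_mul_le_mul_left ?_
      (show (0 : ℚ) < 6 * (x + 1) ^ 4 * (x + 2) ^ 3 * (x + 2) * (x + 3) by positivity)
    have b0 := mul_le_mul_of_nonneg_left key
      (show (0 : ℚ) ≤ F * (x + 2) ^ 5 * (x + 3) * (x + 1) by positivity)
    have b1 := mul_le_mul_of_nonneg_left h' (show (0 : ℚ) ≤ (x + 3) * x ^ 4 * (x - 3) * (x - 1) ^ 2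
      * (x + 2) ^ 2 * (x + 3) * (x + 1) by positivity)
    have b2 := mul_le_mul_of_nonneg_left a2 (show (0 : ℚ) ≤ 3 / 2 * (x + 3) * x ^ 4 * (x - 3)
      * (x + 2) ^ 2 * (x + 3) * (x + 1) by positivity)
    have b3 := mul_le_mul_of_nonneg_left a1 (show (0 : ℚ) ≤ 3 / 2 * x ^ 3 * (x + 1) ^ 4
      * (x + 2) * (x + 3) * (x + 1) by positivity)
    have b4 := mul_le_mul_of_nonneg_left a4 (show (0 : ℚ) ≤ 12 * x ^ 2 * (x + 1) ^ 4
      * (x + 2) * (x + 3) * (x + 1) by positivity)
    have b5 := mul_le_mul_of_nonneg_left a5 (show (0 : ℚ) ≤ 6 * x * (x + 1) ^ 4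
      * (x + 2) ^ 2 * (x + 3) ^ 2 * (x + 1) by positivity)
    have b6 := mul_le_mul_of_nonneg_left a3 (show (0 : ℚ) ≤ 6 * (x + 1) ^ 4
      * (x + 2) ^ 4 * (x + 3) by positivity)
    linarith
  exact_mod_cast goal

lemma three_big (k : ℕ) : (20 + k).factorial * (20 + k + 2) ^ 3 ≤ 6 * U (20 + k) (3 * (20 + k)) ∧
    (21 + k).factorial * (21 + k + 2) ^ 3 ≤ 6 * U (21 + k) (3 * (21 + k)) := by
  induction k with
  | zero =>
    exact ⟨chk_three.1.trans (Nat.mul_le_mul_left _ (rowL_le 20 60)),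
      chk_three.2.trans (Nat.mul_le_mul_left _ (rowL_le 21 63))⟩
  | succ k ih =>
    refine ⟨by rw [show 20 + (k + 1) = 21 + k by ring]; exact ih.2, ?_⟩
    rw [show 21 + (k + 1) = 20 + k + 2 by ring]
    exact three_step (by omega) ih.1

lemma table_case {n m : ℕ} (h3 : 3 ≤ n) (hn : n ≤ 17) (h1 : n < m) (h2 : m ≤ mz n)
    (h4 : ¬(n = 3 ∧ m = 4)) : m.factorial * XB n m ≤ n.factorial * U m (n * m) := by
  have hz : mz n ≤ 19 := by
    unfold mz
    split_ifs <;> omega
  by_cases h5 : m = n + 1 ∧ 9 ≤ n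
  · rw [h5.1]
    exact of_chkD (by omega) (by omega) (chk_D n (List.mem_range.2 (by omega)) h5.2)
  · have h6 : n < 13 := by
      by_contra hc
      unfold mz at h2
      rw [if_neg (by omega), if_neg (by omega)] at h2
      omega
    have := chk_small n (List.mem_range.2 h6) h3 m (List.mem_range.2 (by omega))
    simp only [chkS, Bool.or_eq_true, decide_eq_true_eq] at this
    exact of_chkP (by omega) (this.resolve_left (by omega))

theorem weak_foulkes (n m : ℕ) (hn : 1 ≤ n) (h : n ≤ m) : tnum n m ≤ tnum m n := by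
  rcases h.eq_or_lt with rfl | h
  · exact le_rfl
  rcases hn.eq_or_lt with rfl | hn
  · exact case_one m
  by_cases h2 : n = 2
  · rw [h2]; exact case_two m
  by_cases h34 : n = 3 ∧ m = 4
  · rw [h34.1, h34.2]; exact case_34
  refine tnum_le_of ?_
  by_cases hb : 110 ≤ n
  · exact large_big hb h
  by_cases hm : 18 ≤ n
  · exact of_chkM (by omega) (chk_M n (List.mem_range.2 (by omega)) hm) h
  by_cases hz : m ≤ mz n
  · exact table_case (by omega) (by omega) h hz h34
  by_cases h3 : n = 3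
  · subst h3
    have : mz 3 = 19 := rfl
    obtain ⟨k, rfl⟩ : ∃ k, m = 20 + k := ⟨m - 20, by omega⟩
    exact (Nat.mul_le_mul_left _ (XB_three _)).trans (three_big k).1
  have h5 : n < mz n := by
    unfold mz
    split_ifs <;> omega
  exact step_all (k := n / 2) (by omega) (by omega) h5.le le_rfl
    (of_chkR (chk_R n (List.mem_range.2 (by omega)) (by omega)))
    (table_case (by omega) (by omega) h5 le_rfl (by omega)) (by omega)

end Pool.Agent.Lib.MP_a5d4dd_co
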