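import Pool.Agent.Lib.MP_a5d4dd_co.Lin

namespace Pool.Agent.Lib.MP_a5d4dd_co

open Finset

section
variable {ι : Type*} [Fintype ι] [DecidableEq ι]

lemma pA_le {a : ℕ} {y : ι → ℕ} (hy : y ∈ piAntidiag univ a) (u : ι) : y u ≤ a := by
  rw [← mem_pA.1 hy]
  exact single_le_sum (f := y) (fun _ _ => Nat.zero_le _) (mem_univ u)

lemma sum_update_nat (y : ι → ℕ) (u : ι) (x : ℕ) :
    ∑ l, Function.update y u x l + y u = ∑ l, y l + x := by
  rw [sum_update_of_mem (mem_univ u), ← add_sum_erase _ y (mem_univ u), sdiff_singleton_eq_erase]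
  ring

lemma N_reindex (μ : ι → ℤ) (j u : ι) (a s : ℕ) (h : μ j = a) :
    ∑ y ∈ (piAntidiag univ a).filter (fun y => s ≤ y u), N (res μ j y)
      = N (up2 μ j (μ j - s) u (μ u - s)) := by
  by_cases hs : s ≤ a
  · rw [N_row _ j (a - s) (by simp [up2, h, Nat.cast_sub hs])]
    refine sum_nbij' (fun y => Function.update y u (y u - s))
      (fun y => Function.update y u (y u + s)) ?_ ?_ ?_ ?_ ?_
    · intro y hy
      rw [mem_filter, mem_pA] at hy
      have := sum_update_nat y u (y u - s)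
      rw [mem_pA]
      omega
    · intro y hy
      rw [mem_pA] at hy
      have := sum_update_nat y u (y u + s)
      rw [mem_filter, mem_pA, Function.update_self]
      omega
    · intro y hy
      rw [mem_filter] at hy
      simp [Nat.sub_add_cancel hy.2]
    · intro y _
      simp
    · intro y hy
      rw [mem_filter] at hy
      congr 1
      funext l
      simp only [res, up2]
      split_ifs with h1 h2
      · rfl
      · rw [h2, Function.update_self, Nat.cast_sub hy.2]; ring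
      · rw [Function.update_of_ne h2]
  · rw [N_neg (i := j) (by simp only [up2, if_true]; omega)]
    refine sum_eq_zero fun y hy => ?_
    rw [mem_filter] at hy
    have := pA_le hy.1 u
    omega

lemma sum_layer {α : Type*} (Y : Finset α) (f w : α → ℕ) (a : ℕ) (h : ∀ y ∈ Y, f y ≤ a) :
    ∑ y ∈ Y, f y * w y = ∑ s ∈ range a, ∑ y ∈ Y.filter (fun y => s + 1 ≤ f y), w y := by
  simp only [sum_filter]
  rw [sum_comm]
  refine sum_congr rfl fun y hy => ?_
  rw [← sum_filter, sum_const, smul_eq_mul]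
  congr 1
  have : filter (fun s => s + 1 ≤ f y) (range a) = range (f y) := by
    ext s
    have := h y hy
    simp only [mem_filter, mem_range]
    omega
  rw [this, card_range]

lemma half_le (μ : ι → ℤ) {j i : ι} (hij : j ≠ i) (a : ℕ) (h : μ j = a) (hi : μ j ≤ μ i + 1) :
    ∑ y ∈ piAntidiag univ a, y j / 2 * N (res μ j y)
      ≤ ∑ y ∈ piAntidiag univ a, y i * N (res μ j y) := by
  rw [sum_layer _ _ _ a fun y hy => pA_le hy i,
    sum_layer _ _ _ a fun y hy => (Nat.div_le_self _ _).trans (pA_le hy j)]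
  refine sum_le_sum fun s _ => ?_
  have e : ∀ y : ι → ℕ, s + 1 ≤ y j / 2 ↔ 2 * (s + 1) ≤ y j := fun y => by omega
  simp only [e]
  rw [N_reindex μ j j a _ h, N_reindex μ j i a _ h]
  refine N_schur hij (fun l h1 h2 => by simp [up2, h1, h2]) ?_ ?_ ?_ <;>
    simp only [up2, if_true, hij.symm, if_false] <;> push_cast <;> omega

lemma zero_le (μ : ι → ℤ) {j k i : ι} (hij : i ≠ j) (hik : i ≠ k) (hkj : k ≠ j) (a : ℕ)
    (h : μ j = a) (hi : μ i ≤ μ k) :
    ∑ z ∈ (piAntidiag univ a).filter (fun z => z k = 0), (z i + 1) * N (res μ j z) ≤ N μ := by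
  rw [N_row μ j a h, sum_pA_pair hik]
  refine sum_le_sum fun z hz => ?_
  rw [mem_filter] at hz
  rw [← card_range (z i + 1), ← smul_eq_mul, card_range]
  refine le_trans (by rw [card_range]) (card_nsmul_le_sum _ _ (N (res μ j z)) fun t ht => ?_)
  have := mem_range.1 ht
  refine N_schur hik (fun l h1 h2 => by simp [res, up2, h1, h2]) ?_ ?_ ?_ <;>
    simp only [res, up2, if_true, hik.symm, hij, hkj, if_false, hz.2] <;> omega

theorem theta_N (μ : ι → ℤ) {j k : ι} (hkj : k ≠ j) (a : ℕ) (h : μ j = a)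
    (h1 : ∀ i, μ j ≤ μ i + 1) (h2 : ∀ i, i ≠ j → μ i ≤ μ k) :
    ((a : ℤ) - 1) * (Fintype.card ι - 1) * N μ
      ≤ (Fintype.card ι + 1) * (a + Fintype.card ι - 2) * N (up2 μ j (μ j - 1) k (μ k - 1)) := by
  have hW := N_reindex μ j k a 1 h
  have hN := N_row μ j a h
  have c1 : #(univ.erase j) + 1 = Fintype.card ι := by
    rw [card_erase_add_one (mem_univ j), card_univ]
  have c2 : #((univ.erase j).erase k) + 1 = #(univ.erase j) :=
    card_erase_add_one (mem_erase.2 ⟨hkj, mem_univ k⟩)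
  have hA : ∑ y ∈ piAntidiag univ a, y j * N (res μ j y)
      + #(univ.erase j) * ∑ y ∈ piAntidiag univ a, y j / 2 * N (res μ j y) ≤ a * N μ := by
    have e : a * N μ = ∑ y ∈ piAntidiag univ a, y j * N (res μ j y)
        + ∑ i ∈ univ.erase j, ∑ y ∈ piAntidiag univ a, y i * N (res μ j y) := by
      rw [sum_comm, ← sum_add_distrib, hN, mul_sum]
      refine sum_congr rfl fun y hy => ?_
      rw [← sum_mul, ← add_mul, add_sum_erase _ y (mem_univ j), mem_pA.1 hy]
    rw [e, ← smul_eq_mul]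
    exact Nat.add_le_add_left (card_nsmul_le_sum _ _ _ fun i hi =>
      half_le μ (ne_of_mem_erase hi).symm a h (h1 i)) _
  have hH : ∑ y ∈ piAntidiag univ a, y j * N (res μ j y)
      ≤ 2 * ∑ y ∈ piAntidiag univ a, y j / 2 * N (res μ j y) + N μ := by
    rw [hN, mul_sum, ← sum_add_distrib]
    refine sum_le_sum fun y _ => ?_
    rw [← mul_assoc, ← add_one_mul]
    exact Nat.mul_le_mul_right _ (by omega)
  have hB : (a + #((univ.erase j).erase k))
        * ∑ z ∈ (piAntidiag univ a).filter (fun z => z k = 0), N (res μ j z)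
      ≤ #((univ.erase j).erase k) * N μ + ∑ y ∈ piAntidiag univ a, y j * N (res μ j y) := by
    have e : (a + #((univ.erase j).erase k))
          * ∑ z ∈ (piAntidiag univ a).filter (fun z => z k = 0), N (res μ j z)
        = ∑ i ∈ (univ.erase j).erase k, ∑ z ∈ (piAntidiag univ a).filter (fun z => z k = 0),
            (z i + 1) * N (res μ j z)
          + ∑ z ∈ (piAntidiag univ a).filter (fun z => z k = 0), z j * N (res μ j z) := by
      rw [sum_comm, ← sum_add_distrib, mul_sum]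
      refine sum_congr rfl fun z hz => ?_
      rw [mem_filter, mem_pA, sum_two hkj.symm] at hz
      rw [← sum_mul, ← add_mul, sum_add_distrib, sum_const, smul_eq_mul, mul_one]
      congr 1
      omega
    rw [e, ← smul_eq_mul]
    refine Nat.add_le_add (sum_le_card_nsmul _ _ _ fun i hi => ?_)
      (sum_le_sum_of_subset (filter_subset _ _))
    simp only [mem_erase] at hi
    exact zero_le μ hi.2.1 hi.1 hkj a h (h2 i hi.2.1)
  have hZ : ∑ z ∈ (piAntidiag univ a).filter (fun z => z k = 0), N (res μ j z)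
      + ∑ y ∈ (piAntidiag univ a).filter (fun y => 1 ≤ y k), N (res μ j y) = N μ := by
    rw [hN, ← sum_filter_add_sum_filter_not (piAntidiag univ a) fun z => z k = 0]
    congr 2
    ext z
    simp only [mem_filter]
    rw [Nat.one_le_iff_ne_zero]
  rw [hW] at hZ
  simp only [Nat.cast_one] at hZ
  rw [← c1, ← c2]
  rw [← c2] at hA
  generalize #((univ.erase j).erase k) = r at *
  generalize ∑ z ∈ (piAntidiag univ a).filter (fun z => z k = 0), N (res μ j z) = Z at *
  generalize N (up2 μ j (μ j - 1) k (μ k - 1)) = W at *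
  generalize ∑ y ∈ piAntidiag univ a, y j * N (res μ j y) = D at *
  generalize ∑ y ∈ piAntidiag univ a, y j / 2 * N (res μ j y) = H at *
  generalize N μ = M at *
  have hA' : (D : ℤ) + (r + 1) * H ≤ a * M := by exact_mod_cast hA
  have hH' : (D : ℤ) ≤ 2 * H + M := by exact_mod_cast hH
  have hB' : ((a : ℤ) + r) * Z ≤ r * M + D := by exact_mod_cast hB
  have hZ' : (Z : ℤ) = M - W := by omega
  rw [hZ'] at hB'
  have h3 := mul_le_mul_of_nonneg_left hH' (show (0 : ℤ) ≤ r + 1 by positivity)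
  have h4 := mul_le_mul_of_nonneg_left hB' (show (0 : ℤ) ≤ r + 3 by positivity)
  push_cast
  nlinarith

end

def th (a r : ℕ) : ℚ := ((r + 1) * (a + r - 1)) / (a * (r - 1))

lemma th_pos {a r : ℕ} (ha : 0 < a) (hr : 2 ≤ r) : 0 < th a r := by
  have h1 : (1 : ℚ) ≤ a := by exact_mod_cast ha
  have h2 : (2 : ℚ) ≤ r := by exact_mod_cast hr
  unfold th
  exact div_pos (mul_pos (by linarith) (by linarith)) (mul_pos (by linarith) (by linarith))

lemma th_anti {a a' r : ℕ} (ha : 0 < a) (h : a ≤ a') (hr : 2 ≤ r) : th a' r ≤ th a r := by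
  have h1 : (1 : ℚ) ≤ a := by exact_mod_cast ha
  have h2 : (2 : ℚ) ≤ r := by exact_mod_cast hr
  have h3 : (a : ℚ) ≤ a' := by exact_mod_cast h
  unfold th
  rw [div_le_div_iff₀ (mul_pos (by linarith) (by linarith)) (mul_pos (by linarith) (by linarith))]
  have : 0 ≤ ((r : ℚ) + 1) * (r - 1) * (r - 1) * (a' - a) :=
    mul_nonneg (mul_nonneg (mul_nonneg (by linarith) (by linarith)) (by linarith)) (by linarith)
  nlinarith

lemma U_theta {a r T : ℕ} (ha : 0 < a) (hr : 2 ≤ r) (h : a * r ≤ T + 1) :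
    (U r (T + 2) : ℚ) ≤ th a r * U r T := by
  obtain ⟨r, rfl⟩ : ∃ r', r = r' + 2 := ⟨r - 2, by omega⟩
  have h10 : (1 : Fin (r + 2)) ≠ 0 := by simp
  have hd := Nat.div_add_mod (T + 2) (r + 2)
  have hA : a + 1 ≤ bl (r + 2) (T + 2) 0 := by
    unfold bl
    have h1 : a ≤ (T + 2) / (r + 2) := (Nat.le_div_iff_mul_le (by omega)).2 (by omega)
    split_ifs with h2
    · omega
    · rcases h1.eq_or_lt with h3 | h3
      · rw [← h3, mul_comm] at hd; omega
      · omega
  have h1 := theta_N (bal (r + 2) (T + 2)) h10 (bl (r + 2) (T + 2) 0) rfl (bal_bal _ _ 0) (by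
    intro i hi
    have : (i : ℕ) ≠ 0 := fun h => hi (Fin.ext h)
    have e1 : ((1 : Fin (r + 2)) : ℕ) = 1 := rfl
    simp only [bal, bl, e1]
    split_ifs <;> omega)
  have h2 : N (up2 (bal (r + 2) (T + 2)) 0 (bal (r + 2) (T + 2) 0 - 1) 1
      (bal (r + 2) (T + 2) 1 - 1)) ≤ U (r + 2) T := by
    refine N_le_U _ ?_
    have := sum_bal (r := r + 2) (by omega) (T + 2)
    rw [sum_two' h10.symm] at this ⊢
    have e : ∑ l ∈ (univ.erase 0).erase 1, up2 (bal (r + 2) (T + 2)) 0 (bal (r + 2) (T + 2) 0 - 1)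
        1 (bal (r + 2) (T + 2) 1 - 1) l = ∑ l ∈ (univ.erase 0).erase 1, bal (r + 2) (T + 2) l := by
      refine sum_congr rfl fun l hl => ?_
      simp only [mem_erase] at hl
      simp [up2, hl.1, hl.2.1]
    rw [e]
    simp only [up2, if_true, h10, if_false]
    push_cast at this
    omega
  rw [Fintype.card_fin] at h1
  change _ * (U (r + 2) (T + 2) : ℤ) ≤ _ at h1
  obtain ⟨A, hA'⟩ : ∃ A, bl (r + 2) (T + 2) 0 = A + 1 := ⟨bl (r + 2) (T + 2) 0 - 1, by omega⟩
  rw [hA'] at h1 hA
  refine le_trans ?_ (mul_le_mul_of_nonneg_right (th_anti ha (show a ≤ A by omega) hr)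
    (by positivity))
  have h3 : (1 : ℚ) ≤ A := by exact_mod_cast (show 1 ≤ A by omega)
  unfold th
  rw [div_mul_eq_mul_div, le_div_iff₀ (mul_pos (by linarith) (by push_cast; linarith))]
  generalize N (up2 (bal (r + 2) (T + 2)) 0 (bal (r + 2) (T + 2) 0 - 1) 1
      (bal (r + 2) (T + 2) 1 - 1)) = W at *
  have h4 : ((A : ℚ)) * (r + 1) * U (r + 2) (T + 2) ≤ (r + 3) * (A + r + 1) * W := by
    have : ((A : ℤ)) * (r + 1) * U (r + 2) (T + 2) ≤ (r + 3) * (A + r + 1) * W := by
      push_cast at h1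
      linarith
    exact_mod_cast this
  have h5 : (W : ℚ) ≤ U (r + 2) T := by exact_mod_cast h2
  have h6 := mul_le_mul_of_nonneg_left h5 (show (0 : ℚ) ≤ (r + 3) * (A + r + 1) by positivity)
  push_cast
  linarith

lemma U_theta_pow {a r T : ℕ} (ha : 0 < a) (hr : 2 ≤ r) (h : a * r ≤ T + 1) (k : ℕ) :
    (U r (T + 2 * k) : ℚ) ≤ th a r ^ k * U r T := by
  induction k with
  | zero => simp
  | succ k ih =>
    have h1 := U_theta (T := T + 2 * k) ha hr (by omega)
    rw [show T + 2 * (k + 1) = T + 2 * k + 2 by ring, pow_succ']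
    refine h1.trans ?_
    rw [mul_assoc]
    exact mul_le_mul_of_nonneg_left ih (th_pos ha hr).le

lemma U_theta_le {a r T T' k : ℕ} (ha : 0 < a) (hr : 2 ≤ r) (h : a * r + 2 * k ≤ T + 1)
    (h1 : T ≤ T' + 2 * k) : (U r T : ℚ) ≤ th a r ^ k * U r T' := by
  have h0 : 2 ≤ a * r := hr.trans (Nat.le_mul_of_pos_left r ha)
  have h2 := U_theta_pow (T := T - 2 * k) ha hr (by omega) k
  rw [show T - 2 * k + 2 * k = T by omega] at h2
  refine h2.trans (mul_le_mul_of_nonneg_left ?_ (pow_pos (th_pos ha hr) k).le)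
  exact_mod_cast U_mono r (by omega)

end Pool.Agent.Lib.MP_a5d4dd_co
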