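import Pool.Agent.Lib.MP_a5d4dd_co.Basic

namespace Pool.Agent.Lib.MP_a5d4dd_co

open Finset

structure Good (L : ℤ) (c : ℤ → ℤ) : Prop where
  sym : ∀ k, c (L - k) = c k
  mono : ∀ k, 2 * k + 1 ≤ L → c k ≤ c (k + 1)
  fl : ∀ k, 2 * k + 1 ≤ L → (k + 1) * c (k + 1) ≤ (L - k) * c k

lemma Good.le {L : ℤ} {c : ℤ → ℤ} (h : Good L c) {u v : ℤ} (huv : u ≤ v) (hL : u + v ≤ L) :
    c u ≤ c v := by
  have key : ∀ (d : ℕ) (u : ℤ), 2 * (u + d) ≤ L + 1 → c u ≤ c (u + d) := by
    intro d
    induction d with
    | zero => intro u _; simp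
    | succ d ih =>
      intro u hu
      push_cast at hu ⊢
      have h1 := ih u (by omega)
      have h2 := h.mono (u + d) (by omega)
      rw [← add_assoc]
      exact h1.trans h2
  by_cases hv : 2 * v ≤ L + 1
  · obtain ⟨d, hd⟩ := Int.eq_ofNat_of_zero_le (sub_nonneg.2 huv)
    have := key d u (by omega)
    rwa [show u + d = v by omega] at this
  · obtain ⟨d, hd⟩ := Int.eq_ofNat_of_zero_le (show 0 ≤ L - v - u by omega)
    have := key d u (by omega)
    rwa [show u + d = L - v by omega, h.sym] at this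

lemma Good.zero (L : ℤ) : Good L fun _ => 0 := ⟨fun _ => rfl, fun _ _ => le_rfl, fun _ _ => by simp⟩

lemma Good.sum {α : Type*} {L : ℤ} (s : Finset α) (c : α → ℤ → ℤ) (h : ∀ a ∈ s, Good L (c a)) :
    Good L fun k => ∑ a ∈ s, c a k where
  sym k := sum_congr rfl fun a ha => (h a ha).sym k
  mono k hk := sum_le_sum fun a ha => (h a ha).mono k hk
  fl k hk := by
    rw [mul_sum, mul_sum]
    exact sum_le_sum fun a ha => (h a ha).fl k hk

lemma window_nonneg (e : ℤ → ℤ) (L : ℤ) (hs : ∀ u, e (L - 1 - u) = -e u)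
    (hp : ∀ u, 2 * u + 1 ≤ L → 0 ≤ e u) :
    ∀ (n : ℕ) (k : ℤ), 2 * k - n + 2 ≤ L → 0 ≤ ∑ t ∈ range n, e (k - t) := by
  intro n
  induction n using Nat.strong_induction_on with
  | _ n ih =>
    intro k hk
    match n, ih, hk with
    | 0, _, _ => simp
    | 1, _, hk => simpa using hp k (by push_cast at hk; omega)
    | n + 2, ih, hk =>
      push_cast at hk
      by_cases h : 2 * k - n + 1 ≤ L
      · rw [sum_range_succ]
        have h1 := ih (n + 1) (by omega) k (by push_cast; omega)
        have h2 := hp (k - ((n + 1 : ℕ) : ℤ)) (by push_cast; omega)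
        omega
      · rw [sum_range_succ, sum_range_succ']
        have h1 := ih n (by omega) (k - 1) (by omega)
        have h2 := hs k
        have e1 : ∑ t ∈ range n, e (k - ((t + 1 : ℕ) : ℤ)) = ∑ t ∈ range n, e (k - 1 - t) :=
          sum_congr rfl fun t _ => by congr 1; push_cast; ring
        have e2 : k - ((n + 1 : ℕ) : ℤ) = L - 1 - k := by push_cast; omega
        rw [e1, e2, h2]
        simp only [Nat.cast_zero, sub_zero]
        omega

lemma Good.window {L : ℤ} {c : ℤ → ℤ} (l : ℕ) (h : Good (L - l) c) :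
    Good L fun k => ∑ t ∈ range (l + 1), c (k - t) where
  sym k := by
    rw [← sum_range_reflect]
    refine sum_congr rfl fun t ht => ?_
    have := mem_range.1 ht
    rw [← h.sym]
    congr 1
    rw [show l + 1 - 1 - t = l - t by omega, Nat.cast_sub (by omega)]
    ring
  mono k hk := by
    have e1 := sum_range_succ (fun t : ℕ => c (k - t)) l
    have e2 := sum_range_succ' (fun t : ℕ => c (k + 1 - t)) l
    have e3 : ∑ t ∈ range l, c (k + 1 - ((t + 1 : ℕ) : ℤ)) = ∑ t ∈ range l, c (k - t) :=
      sum_congr rfl fun t _ => by congr 1; push_cast; ring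
    have := h.le (u := k - l) (v := k + 1) (by omega) (by omega)
    simp only [Nat.cast_zero, sub_zero] at e2
    simp only [e1, e2, e3]
    omega
  fl k hk := by
    have h1 := window_nonneg (fun u => (L - l - u) * c u - (u + 1) * c (u + 1)) (L - l)
      (fun u => by
        have a1 := h.sym (u + 1)
        have a2 := h.sym u
        rw [show L - l - 1 - u = L - l - (u + 1) by ring, a1,
          show L - l - (u + 1) + 1 = L - l - u by ring, a2]
        ring)
      (fun u hu => sub_nonneg.2 (h.fl u hu)) (l + 1) k (by push_cast; omega)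
    have h2 : 0 ≤ ∑ t ∈ range l, ((l : ℤ) - 2 * t - 1) * c (k - t) := by
      have e : ∑ t ∈ range l, ((l : ℤ) - 2 * t - 1) * c (k - t)
          = ∑ t ∈ range l, -(((l : ℤ) - 2 * t - 1) * c (k - l + 1 + t)) := by
        rw [← sum_range_reflect]
        refine sum_congr rfl fun t ht => ?_
        have := mem_range.1 ht
        rw [show l - 1 - t = l - (t + 1) by omega, Nat.cast_sub (by omega)]
        push_cast
        rw [show k - (l - (t + 1)) = k - l + 1 + t by ring]
        ring
      have h3 : 0 ≤ ∑ t ∈ range l, (((l : ℤ) - 2 * t - 1) * c (k - t)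
          + -(((l : ℤ) - 2 * t - 1) * c (k - l + 1 + t))) := by
        refine sum_nonneg fun t ht => ?_
        rw [← sub_eq_add_neg, ← mul_sub]
        by_cases h4 : 0 ≤ (l : ℤ) - 2 * t - 1
        · exact mul_nonneg h4 (sub_nonneg.2 (h.le (by omega) (by omega)))
        · exact mul_nonneg_of_nonpos_of_nonpos (by omega)
            (sub_nonpos.2 (h.le (by omega) (by omega)))
      rw [sum_add_distrib, ← e] at h3
      omega
    have e1 : (L - k) * ∑ t ∈ range (l + 1), c (k - t)
        = ∑ t ∈ range (l + 1), (L - l - (k - t)) * c (k - t)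
          + ∑ t ∈ range l, ((l : ℤ) - t) * c (k - t) := by
      have : ∑ t ∈ range l, ((l : ℤ) - t) * c (k - t)
          = ∑ t ∈ range (l + 1), ((l : ℤ) - t) * c (k - t) := by
        rw [sum_range_succ]; simp
      rw [this, mul_sum, ← sum_add_distrib]
      exact sum_congr rfl fun t _ => by ring
    have e2 : (k + 1) * ∑ t ∈ range (l + 1), c (k + 1 - t)
        = ∑ t ∈ range (l + 1), (k - t + 1) * c (k - t + 1)
          + ∑ t ∈ range l, ((t : ℤ) + 1) * c (k - t) := by
      have : ∑ t ∈ range l, ((t : ℤ) + 1) * c (k - t)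
          = ∑ t ∈ range (l + 1), (t : ℤ) * c (k - t + 1) := by
        rw [sum_range_succ']
        simp only [Nat.cast_zero, zero_mul, add_zero]
        refine sum_congr rfl fun t _ => ?_
        push_cast
        rw [show k - (t + 1) + 1 = k - t by ring]
      rw [this, mul_sum, ← sum_add_distrib]
      refine sum_congr rfl fun t _ => ?_
      rw [show k + 1 - t = k - t + 1 by ring]
      ring
    have e3 : ∑ t ∈ range l, ((l : ℤ) - 2 * t - 1) * c (k - t)
        = ∑ t ∈ range l, ((l : ℤ) - t) * c (k - t) - ∑ t ∈ range l, ((t : ℤ) + 1) * c (k - t) := by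
      rw [← sum_sub_distrib]
      exact sum_congr rfl fun t _ => by ring
    rw [sum_sub_distrib] at h1
    rw [e1, e2]
    omega

section
variable {ι : Type*} [Fintype ι] [DecidableEq ι]

def up2 {α : Type*} (μ : ι → α) (i : ι) (p : α) (j : ι) (q : α) : ι → α :=
  fun l => if l = i then p else if l = j then q else μ l

lemma sum_two {i j : ι} (hij : i ≠ j) (f : ι → ℕ) :
    ∑ l, f l = f i + f j + ∑ l ∈ (univ.erase i).erase j, f l := by
  rw [← add_sum_erase _ _ (mem_univ i),
    ← add_sum_erase _ _ (mem_erase.2 ⟨hij.symm, mem_univ j⟩), add_assoc]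

lemma sum_up2 {i j : ι} (hij : i ≠ j) (z : ι → ℕ) (p q : ℕ) :
    ∑ l, up2 z i p j q l = p + q + ∑ l ∈ (univ.erase i).erase j, z l := by
  rw [sum_two hij]
  congr 1
  · simp [up2, hij.symm]
  · refine sum_congr rfl fun l hl => ?_
    simp only [mem_erase] at hl
    simp [up2, hl.1, hl.2.1]

lemma sum_pA_pair {M : Type*} [AddCommMonoid M] {i j : ι} (hij : i ≠ j) (a : ℕ)
    (g : (ι → ℕ) → M) :
    ∑ y ∈ piAntidiag univ a, g y = ∑ z ∈ (piAntidiag univ a).filter (fun z => z j = 0),
      ∑ t ∈ range (z i + 1), g (up2 z i (z i - t) j t) := by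
  rw [sum_sigma']
  refine sum_nbij' (fun y => ⟨up2 y i (y i + y j) j 0, y j⟩)
    (fun p => up2 p.1 i (p.1 i - p.2) j p.2) ?_ ?_ ?_ ?_ ?_
  · intro y hy
    have hy' := mem_pA.1 hy
    rw [sum_two hij] at hy'
    simp only [mem_sigma, mem_filter, mem_range, mem_pA, sum_up2 hij]
    simp only [up2, hij.symm, if_true, if_false, and_true]
    omega
  · rintro ⟨z, t⟩ hp
    simp only [mem_sigma, mem_filter, mem_range, mem_pA, sum_up2 hij] at hp ⊢
    rw [sum_two hij] at hp
    omega
  · intro y _
    funext l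
    simp only [up2]
    split_ifs with h1 h2
    · rw [h1]; omega
    · rw [h2]
    · rfl
  · rintro ⟨z, t⟩ hp
    simp only [mem_sigma, mem_filter, mem_range] at hp
    have e1 : up2 z i (z i - t) j t j = t := by simp [up2, hij.symm]
    have e2 : up2 z i (z i - t) j t i = z i - t := by simp [up2]
    simp only [e1, e2, Sigma.mk.injEq, heq_eq_eq, and_true]
    funext l
    simp only [up2]
    split_ifs with h1 h2
    · rw [h1]; omega
    · rw [h2, hp.1.2]
    · rfl
  · intro y _
    congr 1
    funext l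
    simp only [up2]
    split_ifs with h1 h2
    · rw [h1]; omega
    · rw [h2]
    · rfl

lemma good_base (L : ℤ) :
    Good L fun k => if 0 ≤ k ∧ k ≤ L then min (L - k) k + 1 else 0 where
  sym k := by
    simp only [sub_sub_cancel]
    split_ifs <;> omega
  mono k hk := by
    split_ifs <;> omega
  fl k hk := by
    by_cases h0 : 0 ≤ k
    · rw [if_pos (by omega), if_pos (by omega), min_eq_right (show k ≤ L - k by omega)]
      have : min (L - (k + 1)) (k + 1) + 1 ≤ L - k := by omega
      nlinarith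
    · rw [if_neg (show ¬(0 ≤ k ∧ k ≤ L) by omega)]
      by_cases h1 : k = -1
      · simp [h1]
      · rw [if_neg (by omega)]; simp

lemma N_two {i j : ι} (hij : i ≠ j) (μ : ι → ℤ) (h : ∀ l, l ≠ i → l ≠ j → μ l = 0) :
    (N μ : ℤ) = if 0 ≤ μ i ∧ 0 ≤ μ j then min (μ i) (μ j) + 1 else 0 := by
  split_ifs with h0
  · obtain ⟨p, hp⟩ := Int.eq_ofNat_of_zero_le h0.1
    obtain ⟨q, hq⟩ := Int.eq_ofNat_of_zero_le h0.2
    rw [N_ext ![i, j] _ μ]
    · have : μ ∘ ![i, j] = Fin.cons (p : ℤ) fun _ => (q : ℤ) := by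
        funext l
        fin_cases l
        · simpa using hp
        · simpa using hq
      rw [this, N_fin2, hp, hq]
      push_cast
      rfl
    · intro l hl
      exact h l (fun e => hl ⟨0, e.symm⟩) fun e => hl ⟨1, e.symm⟩
    · intro a b hab
      fin_cases a <;> fin_cases b <;> simp_all [hij.symm]
  · by_cases h1 : 0 ≤ μ i
    · rw [N_neg (i := j) (by omega)]; rfl
    · rw [N_neg (i := i) (by omega)]; rfl

theorem good_N {i j : ι} (hij : i ≠ j) (μ : ι → ℤ) (L : ℤ) :
    Good L fun k => (N (up2 μ i (L - k) j k) : ℤ) := by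
  generalize hn : #(univ.filter fun l => l ≠ i ∧ l ≠ j ∧ 0 < μ l) = n
  induction n using Nat.strong_induction_on generalizing μ L with
  | _ n ih =>
    by_cases hneg : ∃ l, l ≠ i ∧ l ≠ j ∧ μ l < 0
    · obtain ⟨l, h1, h2, h3⟩ := hneg
      have : ∀ k, N (up2 μ i (L - k) j k) = 0 := fun k => N_neg (i := l) (by simp [up2, h1, h2, h3])
      simp only [this]
      exact Good.zero L
    by_cases hpos : ∃ v, v ≠ i ∧ v ≠ j ∧ 0 < μ v
    · obtain ⟨v, h1, h2, h3⟩ := hpos
      obtain ⟨a, ha⟩ := Int.eq_ofNat_of_zero_le h3.le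
      have e : ∀ k, (N (up2 μ i (L - k) j k) : ℤ)
          = ∑ z ∈ (piAntidiag univ a).filter (fun z => z j = 0), ∑ t ∈ range (z i + 1),
            (N (up2 (res μ v z) i (L - z i - (k - t)) j (k - t)) : ℤ) := by
        intro k
        rw [N_row _ v a (by simp [up2, h1, h2, ha]), sum_pA_pair hij]
        push_cast
        refine sum_congr rfl fun z _ => sum_congr rfl fun t ht => ?_
        have := mem_range.1 ht
        congr 2
        funext l
        simp only [res, up2]
        by_cases hv : l = v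
        · simp [hv, h1, h2]
        · by_cases hi : l = i
          · simp only [hi, if_true, h1.symm, if_false]
            rw [Nat.cast_sub (by omega)]; ring
          · by_cases hj : l = j
            · simp [hj, hij.symm, h2.symm]
            · simp [hv, hi, hj]
      simp only [e]
      refine Good.sum _ _ fun z _ => ?_
      refine Good.window (c := fun k => (N (up2 (res μ v z) i (L - z i - k) j k) : ℤ)) (z i) ?_
      refine ih _ ?_ _ _ rfl
      rw [← hn]
      refine card_lt_card ((Finset.ssubset_iff_of_subset fun l hl => ?_).2 ⟨v, ?_, ?_⟩)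
      · rw [mem_filter] at hl ⊢
        refine ⟨mem_univ _, hl.2.1, hl.2.2.1, ?_⟩
        have := hl.2.2.2
        simp only [res] at this
        split_ifs at this <;> omega
      · rw [mem_filter]
        exact ⟨mem_univ _, h1, h2, h3⟩
      · rw [mem_filter]
        simp [res]
    · have e : ∀ k, (N (up2 μ i (L - k) j k) : ℤ)
          = if 0 ≤ k ∧ k ≤ L then min (L - k) k + 1 else 0 := by
        intro k
        rw [N_two hij]
        · simp only [up2, if_true, hij.symm, if_false]
          split_ifs <;> omega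
        · intro l h1 h2
          simp only [up2, h1, h2, if_false]
          push Not at hneg hpos
          exact le_antisymm (hpos l h1 h2) (hneg l h1 h2)
      simp only [e]
      exact good_base L

lemma N_schur {i j : ι} (hij : i ≠ j) {μ ν : ι → ℤ} (h : ∀ l, l ≠ i → l ≠ j → ν l = μ l)
    (hs : ν i + ν j = μ i + μ j) (h1 : min (μ i) (μ j) ≤ ν i) (h2 : min (μ i) (μ j) ≤ ν j) :
    N μ ≤ N ν := by
  have g := good_N hij μ (μ i + μ j)
  have e1 : μ = up2 μ i (μ i + μ j - μ j) j (μ j) := by
    funext l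
    simp only [up2]
    split_ifs with a b
    · rw [a]; ring
    · rw [b]
    · rfl
  have e2 : ν = up2 μ i (μ i + μ j - ν j) j (ν j) := by
    funext l
    simp only [up2]
    split_ifs with a b
    · rw [a]; omega
    · rw [b]
    · exact h l a b
  have e3 := g.le (u := min (μ i) (μ j)) (v := ν j) h2 (by omega)
  rw [← e2] at e3
  have e4 : (N μ : ℤ) = N (up2 μ i (μ i + μ j - min (μ i) (μ j)) j (min (μ i) (μ j))) := by
    rcases le_total (μ i) (μ j) with a | a
    · have := g.sym (μ i)
      rw [min_eq_left a, ← this, add_sub_cancel_left, ← e1]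
    · rw [min_eq_right a, ← e1]
  omega

lemma N_fl {i j : ι} (hij : i ≠ j) {μ ν : ι → ℤ} (h : ∀ l, l ≠ i → l ≠ j → ν l = μ l)
    (hi : ν i = μ i - 1) (hj : ν j = μ j + 1) (h1 : μ j + 1 ≤ μ i) :
    (μ j + 1) * N ν ≤ μ i * N μ := by
  have g := (good_N hij μ (μ i + μ j)).fl (μ j) (by omega)
  have e1 : μ = up2 μ i (μ i + μ j - μ j) j (μ j) := by
    funext l
    simp only [up2]
    split_ifs with a b
    · rw [a]; ring
    · rw [b]
    · rfl
  have e2 : ν = up2 μ i (μ i + μ j - (μ j + 1)) j (μ j + 1) := by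
    funext l
    simp only [up2]
    split_ifs with a b
    · rw [a]; omega
    · rw [b, hj]
    · exact h l a b
  rwa [← e1, ← e2, add_sub_cancel_right] at g

end

end Pool.Agent.Lib.MP_a5d4dd_co
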